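import Mathlib

/-! Chain complexes of cliques with coefficients in a family of commuting square-zero operators,
characteristic two (helper162). -/

namespace H162.CD

open Finset Classical

noncomputable section

variable {V : Type*} [Fintype V]
variable {K : Type*} [Field K] [CharP K 2]
variable {N : Type*} [AddCommGroup N] [Module K N]

/-- `σ` is a clique of `G`. -/
def Cl (G : SimpleGraph V) (σ : Finset V) : Prop := ∀ u ∈ σ, ∀ v ∈ σ, u ≠ v → G.Adj u v

omit [Fintype V] in
lemma Cl.mono {G : SimpleGraph V} {σ τ : Finset V} (h : Cl G τ) (hs : σ ⊆ τ) : Cl G σ :=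
  fun u hu v hv huv => h u (hs hu) v (hs hv) huv

omit [Fintype V] in
lemma cl_empty (G : SimpleGraph V) : Cl G ∅ := by intro u hu; simp at hu

omit [Fintype V] in
lemma Cl.insert {G : SimpleGraph V} {σ : Finset V} {v : V} (h : Cl G σ)
    (hv : ∀ u ∈ σ, G.Adj v u) : Cl G (insert v σ) := by
  intro a ha b hb hab
  rw [Finset.mem_insert] at ha hb
  rcases ha with rfl | ha
  · rcases hb with rfl | hb
    · exact absurd rfl hab
    · exact hv b hb
  · rcases hb with rfl | hb
    · exact (hv a ha).symm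
    · exact h a ha b hb hab

/-- A family of square-zero operators, commuting along the edges of `G`. -/
structure IsRep (G : SimpleGraph V) (e : V → Module.End K N) : Prop where
  sq : ∀ v x, e v (e v x) = 0
  comm : ∀ u v, G.Adj u v → ∀ x, e u (e v x) = e v (e u x)

/-- Joint kernels. -/
def SS (e : V → Module.End K N) (σ : Finset V) : Submodule K N where
  carrier := {x | ∀ v ∈ σ, e v x = 0}
  add_mem' := by
    intro a b ha hb v hv
    rw [map_add, ha v hv, hb v hv, add_zero]
  zero_mem' := by intro v _; simp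
  smul_mem' := by
    intro c a ha v hv
    rw [map_smul, ha v hv, smul_zero]

omit [Fintype V] [CharP K 2] in
lemma mem_SS {e : V → Module.End K N} {σ : Finset V} {x : N} :
    x ∈ SS e σ ↔ ∀ v ∈ σ, e v x = 0 := Iff.rfl

omit [Fintype V] [CharP K 2] in
lemma SS_mono {e : V → Module.End K N} {σ τ : Finset V} (h : σ ⊆ τ) : SS e τ ≤ SS e σ :=
  fun _ hx v hv => hx v (h hv)

omit [Fintype V] [CharP K 2] in
lemma mem_SS_insert {e : V → Module.End K N} {σ : Finset V} {v : V} {x : N} :
    x ∈ SS e (insert v σ) ↔ e v x = 0 ∧ x ∈ SS e σ := by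
  constructor
  · intro h
    exact ⟨h v (mem_insert_self _ _), fun w hw => h w (mem_insert_of_mem hw)⟩
  · rintro ⟨h1, h2⟩ w hw
    rw [mem_insert] at hw
    rcases hw with rfl | hw
    · exact h1
    · exact h2 w hw

/-- Balanced families: all the sequences `S_σ → S_σ → S_σ` given by `e v` are exact. -/
def Bal (G : SimpleGraph V) (e : V → Module.End K N) : Prop :=
  ∀ σ v, v ∉ σ → Cl G (insert v σ) → ∀ x ∈ SS e σ, e v x = 0 → ∃ y ∈ SS e σ, e v y = x

/-- Chains of size `i` on the cliques contained in `A`, coefficients killed by `τ`. -/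
def Ch (G : SimpleGraph V) (e : V → Module.End K N) (A τ : Finset V) (i : ℕ) :
    Submodule K (Finset V → N) where
  carrier := {x | (∀ σ, ∀ v ∈ τ, e v (x σ) = 0) ∧ (∀ σ, ∀ v ∈ σ, e v (x σ) = 0) ∧
    ∀ σ, x σ ≠ 0 → σ ⊆ A ∧ Cl G σ ∧ σ.card = i}
  add_mem' := by
    rintro a b ⟨ha1, ha2, ha3⟩ ⟨hb1, hb2, hb3⟩
    refine ⟨fun σ v hv => ?_, fun σ v hv => ?_, fun σ hσ => ?_⟩
    · rw [Pi.add_apply, map_add, ha1 σ v hv, hb1 σ v hv, add_zero]
    · rw [Pi.add_apply, map_add, ha2 σ v hv, hb2 σ v hv, add_zero]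
    · by_cases h : a σ = 0
      · apply hb3
        intro h'
        apply hσ
        rw [Pi.add_apply, h, h', add_zero]
      · exact ha3 σ h
  zero_mem' := by
    refine ⟨fun σ v _ => ?_, fun σ v _ => ?_, fun σ hσ => ?_⟩
    · simp
    · simp
    · exact absurd rfl hσ
  smul_mem' := by
    rintro c a ⟨ha1, ha2, ha3⟩
    refine ⟨fun σ v hv => ?_, fun σ v hv => ?_, fun σ hσ => ?_⟩
    · rw [Pi.smul_apply, map_smul, ha1 σ v hv, smul_zero]
    · rw [Pi.smul_apply, map_smul, ha2 σ v hv, smul_zero]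
    · apply ha3
      intro h
      apply hσ
      rw [Pi.smul_apply, h, smul_zero]

/-- The boundary operator (characteristic two). -/
def bd : (Finset V → N) →ₗ[K] (Finset V → N) where
  toFun x := fun ρ => ∑ v, if v ∈ ρ then 0 else x (insert v ρ)
  map_add' := by
    intro x y
    funext ρ
    rw [Pi.add_apply, ← Finset.sum_add_distrib]
    refine Finset.sum_congr rfl (fun v _ => ?_)
    split_ifs <;> simp
  map_smul' := by
    intro c x
    funext ρ
    simp only [RingHom.id_apply, Pi.smul_apply, Finset.smul_sum]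
    refine Finset.sum_congr rfl (fun v _ => ?_)
    split_ifs <;> simp

omit [CharP K 2] in
lemma bd_apply (x : Finset V → N) (ρ : Finset V) :
    bd (K := K) x ρ = ∑ v, if v ∈ ρ then 0 else x (insert v ρ) := rfl

include K in
omit [Fintype V] in
variable (K) in
lemma add_self2 (x : N) : x + x = 0 := by
  have h := two_smul K x
  rw [CharTwo.two_eq_zero, zero_smul] at h
  exact h.symm

include K in
variable (K) in
lemma sum_symm_zero (f : V → V → N) (hs : ∀ v w, f v w = f w v) (hd : ∀ v, f v v = 0) :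
    ∑ v, ∑ w, f v w = 0 := by
  rw [← Finset.sum_product']
  refine Finset.sum_involution (fun a _ => (a.2, a.1)) ?_ ?_ ?_ ?_
  · rintro ⟨a, b⟩ _
    simp only
    rw [hs b a]
    exact add_self2 K _
  · rintro ⟨a, b⟩ _ hne heq
    simp only [Prod.mk.injEq] at heq
    apply hne
    simp only
    rw [heq.1]
    exact hd _
  · intro a _; simp
  · intro a _; rfl

lemma bd_bd (x : Finset V → N) : bd (K := K) (bd (K := K) x) = 0 := by
  funext ρ
  rw [bd_apply]
  have h1 : ∀ v : V, (if v ∈ ρ then (0 : N) else bd (K := K) x (insert v ρ)) =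
      ∑ w, (if v ∈ ρ ∨ w ∈ ρ ∨ v = w then 0 else x (insert v (insert w ρ))) := by
    intro v
    by_cases hv : v ∈ ρ
    · simp [hv]
    · rw [if_neg hv, bd_apply]
      refine Finset.sum_congr rfl (fun w _ => ?_)
      by_cases hw : w ∈ ρ
      · simp [hw]
      · by_cases hvw : v = w
        · subst hvw; simp
        · have : w ∉ insert v ρ := by
            rw [mem_insert]; push Not; exact ⟨fun h => hvw h.symm, hw⟩
          rw [if_neg this, if_neg (by push Not; exact ⟨hv, hw, hvw⟩), Finset.insert_comm]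
  rw [Finset.sum_congr rfl (fun v _ => h1 v)]
  apply sum_symm_zero K
  · intro v w
    by_cases h : v ∈ ρ ∨ w ∈ ρ ∨ v = w
    · rw [if_pos h, if_pos (by tauto)]
    · rw [if_neg h, if_neg (by intro h'; apply h; tauto), Finset.insert_comm]
  · intro v; simp

def res (v : V) (x : Finset V → N) : Finset V → N := fun σ => if v ∈ σ then 0 else x σ
def lk (v : V) (x : Finset V → N) : Finset V → N := fun ρ => if v ∈ ρ then 0 else x (insert v ρ)
def co (v : V) (y : Finset V → N) : Finset V → N := fun σ => if v ∈ σ then y (σ.erase v) else 0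

omit [Fintype V] in
lemma res_add_co (v : V) (x : Finset V → N) : res v x + co v (lk v x) = x := by
  funext σ
  simp only [Pi.add_apply, res, co, lk]
  by_cases h : v ∈ σ
  · simp [h, Finset.insert_erase h]
  · simp [h]

lemma lk_bd (v : V) (x : Finset V → N) : lk v (bd (K := K) x) = bd (K := K) (lk v x) := by
  funext ρ
  by_cases hv : v ∈ ρ
  · rw [lk, if_pos hv, bd_apply]
    symm
    apply Finset.sum_eq_zero
    intro w _
    simp [lk, hv]
  · rw [lk, if_neg hv, bd_apply, bd_apply]
    refine Finset.sum_congr rfl (fun w _ => ?_)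
    by_cases hw : w ∈ ρ
    · simp [hw]
    · by_cases hvw : w = v
      · subst hvw; simp [lk]
      · have h1 : w ∉ insert v ρ := by rw [mem_insert]; tauto
        have h2 : v ∉ insert w ρ := by
          rw [mem_insert]; push Not; exact ⟨fun h => hvw h.symm, hv⟩
        rw [if_neg h1, if_neg hw, lk, if_neg h2, Finset.insert_comm]

lemma bd_co (v : V) (y : Finset V → N) (hy : ∀ ρ, v ∈ ρ → y ρ = 0) :
    bd (K := K) (co v y) = y + co v (bd (K := K) y) := by
  funext ρ
  by_cases hv : v ∈ ρ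
  · rw [bd_apply, Pi.add_apply, hy ρ hv, zero_add, co, if_pos hv, bd_apply]
    refine Finset.sum_congr rfl (fun w _ => ?_)
    by_cases hw : w ∈ ρ
    · rw [if_pos hw]
      by_cases hvw : w = v
      · subst hvw
        rw [if_neg (Finset.notMem_erase _ _), Finset.insert_erase hv, hy ρ hv]
      · rw [if_pos (Finset.mem_erase.2 ⟨hvw, hw⟩)]
    · have hvw : w ≠ v := by rintro rfl; exact hw hv
      rw [if_neg hw, if_neg (fun h => hw (Finset.mem_of_mem_erase h)), co,
        if_pos (Finset.mem_insert_of_mem hv), Finset.erase_insert_of_ne hvw]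
  · rw [bd_apply, Pi.add_apply]
    rw [Finset.sum_eq_single v]
    · simp [hv, co]
    · intro w _ hw
      have : v ∉ insert w ρ := by
        rw [mem_insert]; push Not; exact ⟨fun h => hw h.symm, hv⟩
      by_cases hwρ : w ∈ ρ
      · rw [if_pos hwρ]
      · rw [if_neg hwρ, co, if_neg this]
    · intro h; exact absurd (mem_univ v) h

omit [Fintype V] in
lemma lk_co (v : V) (y : Finset V → N) (hy : ∀ ρ, v ∈ ρ → y ρ = 0) : lk v (co v y) = y := by
  funext ρ
  by_cases hv : v ∈ ρ
  · rw [lk, if_pos hv, hy ρ hv]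
  · rw [lk, if_neg hv, co, if_pos (mem_insert_self _ _), Finset.erase_insert hv]

omit [Fintype V] in
lemma lk_eq_zero (v : V) (y : Finset V → N) (hy : ∀ ρ, v ∈ ρ → y ρ = 0) : lk v y = 0 := by
  funext ρ
  rw [lk]
  split_ifs
  · rfl
  · exact hy _ (mem_insert_self _ _)

omit [Fintype V] in
lemma lk_add (v : V) (x y : Finset V → N) : lk v (x + y) = lk v x + lk v y := by
  funext ρ
  simp only [lk, Pi.add_apply]
  split_ifs <;> simp

omit [Fintype V] in
lemma of_lk_eq_zero (v : V) (x : Finset V → N) (h : lk v x = 0) : ∀ σ, v ∈ σ → x σ = 0 := by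
  intro σ hσ
  have := congrFun h (σ.erase v)
  rw [lk, if_neg (Finset.notMem_erase _ _), Finset.insert_erase hσ] at this
  exact this

/-- neighbours of `v` in `A` -/
def nb (G : SimpleGraph V) (A : Finset V) (v : V) : Finset V := A.filter (fun w => G.Adj v w)

omit [Fintype V] in
lemma mem_nb {G : SimpleGraph V} {A : Finset V} {v w : V} : w ∈ nb G A v ↔ w ∈ A ∧ G.Adj v w := by
  simp [nb]

omit [Fintype V] in
lemma not_mem_nb_self {G : SimpleGraph V} {A : Finset V} {v : V} : v ∉ nb G A v := by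
  simp [nb]

omit [Fintype V] [CharP K 2] in
lemma co_mem {G : SimpleGraph V} {e : V → Module.End K N} {A τ : Finset V} {i : ℕ} {v : V}
    (hv : v ∈ A) {z : Finset V → N} (hz : z ∈ Ch G e (nb G A v) (insert v τ) i) :
    co v z ∈ Ch G e A τ (i + 1) := by
  obtain ⟨h1, h2, h3⟩ := hz
  refine ⟨fun σ w hw => ?_, fun σ w hw => ?_, fun σ hσ => ?_⟩
  · rw [co]
    split_ifs
    · exact h1 _ w (mem_insert_of_mem hw)
    · simp
  · rw [co]
    split_ifs with hvσ
    · by_cases hwv : w = v
      · subst hwv; exact h1 _ w (mem_insert_self _ _)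
      · exact h2 _ w (Finset.mem_erase.2 ⟨hwv, hw⟩)
    · simp
  · rw [co] at hσ
    split_ifs at hσ with hvσ
    · obtain ⟨a1, a2, a3⟩ := h3 _ hσ
      refine ⟨?_, ?_, ?_⟩
      · intro w hw
        by_cases hwv : w = v
        · subst hwv; exact hv
        · exact (mem_nb.1 (a1 (Finset.mem_erase.2 ⟨hwv, hw⟩))).1
      · have := Cl.insert (v := v) a2 (fun u hu => (mem_nb.1 (a1 hu)).2)
        rwa [Finset.insert_erase hvσ] at this
      · rw [← a3, Finset.card_erase_add_one hvσ]
    · exact absurd rfl hσ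

omit [Fintype V] [CharP K 2] in
lemma lk_mem {G : SimpleGraph V} {e : V → Module.End K N} {A τ : Finset V} {i : ℕ} {v : V}
    {x : Finset V → N} (hx : x ∈ Ch G e A τ (i + 1)) :
    lk v x ∈ Ch G e (nb G A v) (insert v τ) i := by
  obtain ⟨h1, h2, h3⟩ := hx
  refine ⟨fun σ w hw => ?_, fun σ w hw => ?_, fun σ hσ => ?_⟩
  · rw [lk]
    split_ifs
    · simp
    · rw [mem_insert] at hw
      rcases hw with rfl | hw
      · exact h2 _ _ (mem_insert_self _ _)
      · exact h1 _ w hw
  · rw [lk]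
    split_ifs
    · simp
    · exact h2 _ w (mem_insert_of_mem hw)
  · rw [lk] at hσ
    split_ifs at hσ with hvσ
    · exact absurd rfl hσ
    · obtain ⟨a1, a2, a3⟩ := h3 _ hσ
      refine ⟨?_, a2.mono (subset_insert _ _), ?_⟩
      · intro w hw
        rw [mem_nb]
        refine ⟨a1 (mem_insert_of_mem hw), a2 v (mem_insert_self _ _) w (mem_insert_of_mem hw) ?_⟩
        rintro rfl; exact hvσ hw
      · rw [Finset.card_insert_of_notMem hvσ] at a3
        omega

omit [CharP K 2] in
lemma bd_mem {G : SimpleGraph V} {e : V → Module.End K N} {A τ : Finset V} {i : ℕ}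
    {x : Finset V → N} (hx : x ∈ Ch G e A τ (i + 1)) : bd (K := K) x ∈ Ch G e A τ i := by
  obtain ⟨h1, h2, h3⟩ := hx
  refine ⟨fun σ w hw => ?_, fun σ w hw => ?_, fun σ hσ => ?_⟩
  · rw [bd_apply, map_sum]
    apply Finset.sum_eq_zero
    intro u _
    split_ifs
    · simp
    · exact h1 _ w hw
  · rw [bd_apply, map_sum]
    apply Finset.sum_eq_zero
    intro u _
    split_ifs
    · simp
    · exact h2 _ w (mem_insert_of_mem hw)
  · rw [bd_apply] at hσ
    obtain ⟨u, _, hu⟩ := Finset.exists_ne_zero_of_sum_ne_zero hσ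
    split_ifs at hu with hmem
    · exact absurd rfl hu
    · obtain ⟨a1, a2, a3⟩ := h3 _ hu
      refine ⟨(subset_insert _ _).trans a1, a2.mono (subset_insert _ _), ?_⟩
      rw [Finset.card_insert_of_notMem hmem] at a3
      omega

omit [CharP K 2] in
lemma bd_zero_of_mem_zero {G : SimpleGraph V} {e : V → Module.End K N} {A τ : Finset V}
    {x : Finset V → N} (hx : x ∈ Ch G e A τ 0) : bd (K := K) x = 0 := by
  funext ρ
  rw [bd_apply]
  apply Finset.sum_eq_zero
  intro v _
  split_ifs with h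
  · rfl
  · by_contra hne
    have := (hx.2.2 _ hne).2.2
    rw [Finset.card_insert_of_notMem h] at this
    omega

omit [Fintype V] [CharP K 2] in
lemma Ch_mono {G : SimpleGraph V} {e : V → Module.End K N} {A B τ : Finset V} {i : ℕ}
    (h : A ⊆ B) : Ch G e A τ i ≤ Ch G e B τ i := by
  rintro x ⟨h1, h2, h3⟩
  exact ⟨h1, h2, fun σ hσ => ⟨(h3 σ hσ).1.trans h, (h3 σ hσ).2⟩⟩

omit [Fintype V] [CharP K 2] in
/-- a chain without faces through `v` -/
lemma mem_erase_of_lk {G : SimpleGraph V} {e : V → Module.End K N} {A τ : Finset V} {i : ℕ}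
    {v : V} {x : Finset V → N} (hx : x ∈ Ch G e A τ i) (h : lk v x = 0) :
    x ∈ Ch G e (A.erase v) τ i := by
  refine ⟨hx.1, hx.2.1, fun σ hσ => ⟨?_, (hx.2.2 σ hσ).2⟩⟩
  intro w hw
  rw [Finset.mem_erase]
  refine ⟨?_, (hx.2.2 σ hσ).1 hw⟩
  rintro rfl
  exact hσ (of_lk_eq_zero _ x h σ hw)

omit [Fintype V] [CharP K 2] in
lemma vanish_of_mem {G : SimpleGraph V} {e : V → Module.End K N} {A τ : Finset V} {i : ℕ}
    {v : V} (hv : v ∉ A) {x : Finset V → N} (hx : x ∈ Ch G e A τ i) : ∀ σ, v ∈ σ → x σ = 0 := by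
  intro σ hσ
  by_contra h
  exact hv ((hx.2.2 σ h).1 hσ)

/-- exactness at size `i` -/
def Ex (G : SimpleGraph V) (e : V → Module.End K N) (A τ : Finset V) (i : ℕ) : Prop :=
  ∀ x ∈ Ch G e A τ i, bd (K := K) x = 0 → ∃ y ∈ Ch G e A τ (i + 1), bd (K := K) y = x

theorem D1 {G : SimpleGraph V} {e : V → Module.End K N} {A τ : Finset V} {i : ℕ} {v : V}
    (hv : v ∈ A) (h1 : Ex G e (A.erase v) τ (i + 1)) (h2 : Ex G e (nb G A v) (insert v τ) i) :
    Ex G e A τ (i + 1) := by
  intro x hx hbx
  have hy := lk_mem (v := v) hx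
  have hby : bd (K := K) (lk v x) = 0 := by
    rw [← lk_bd, hbx]
    funext ρ
    simp [lk]
  obtain ⟨z, hz, hbz⟩ := h2 _ hy hby
  have hzv := vanish_of_mem (not_mem_nb_self (G := G)) hz
  have hyv := vanish_of_mem (not_mem_nb_self (G := G)) hy
  have hco := co_mem hv hz
  have hx' : x + bd (K := K) (co v z) ∈ Ch G e A τ (i + 1) := add_mem hx (bd_mem hco)
  have hlk : lk v (x + bd (K := K) (co v z)) = 0 := by
    rw [lk_add, bd_co v z hzv, lk_add, lk_eq_zero v z hzv, hbz, lk_co v _ hyv, zero_add]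
    funext ρ
    exact add_self2 K _
  obtain ⟨w, hw, hbw⟩ := h1 _ (mem_erase_of_lk hx' hlk) (by rw [map_add, hbx, bd_bd, add_zero])
  refine ⟨w + co v z, add_mem (Ch_mono (Finset.erase_subset _ _) hw) hco, ?_⟩
  rw [map_add, hbw, add_assoc]
  have : bd (K := K) (co v z) + bd (K := K) (co v z) = 0 := add_self2 K _
  rw [this, add_zero]

theorem D1_zero {G : SimpleGraph V} {e : V → Module.End K N} {A τ : Finset V} {v : V}
    (h1 : Ex G e (A.erase v) τ 0) : Ex G e A τ 0 := by
  intro x hx hbx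
  have hx' : x ∈ Ch G e (A.erase v) τ 0 := by
    refine ⟨hx.1, hx.2.1, fun σ hσ => ?_⟩
    have h := hx.2.2 σ hσ
    have : σ = ∅ := Finset.card_eq_zero.1 h.2.2
    subst this
    exact ⟨by simp, h.2⟩
  obtain ⟨w, hw, hbw⟩ := h1 _ hx' hbx
  exact ⟨w, Ch_mono (Finset.erase_subset _ _) hw, hbw⟩

theorem D2 {G : SimpleGraph V} {e : V → Module.End K N} {A τ : Finset V} {i : ℕ} {v : V}
    (hv : v ∈ A) (h1 : Ex G e A τ i) (h2 : Ex G e (nb G A v) (insert v τ) i) :
    Ex G e (A.erase v) τ i := by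
  intro x hx hbx
  obtain ⟨y, hy, hby⟩ := h1 x (Ch_mono (Finset.erase_subset _ _) hx) hbx
  have hxv := vanish_of_mem (Finset.notMem_erase v A) hx
  have hz := lk_mem (v := v) hy
  have hbz : bd (K := K) (lk v y) = 0 := by
    rw [← lk_bd, hby]
    exact lk_eq_zero v x hxv
  obtain ⟨w, hw, hbw⟩ := h2 _ hz hbz
  have hwv := vanish_of_mem (not_mem_nb_self (G := G)) hw
  have hzv := vanish_of_mem (not_mem_nb_self (G := G)) hz
  have hco := co_mem hv hw
  have hlk : lk v (y + bd (K := K) (co v w)) = 0 := by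
    rw [lk_add, bd_co v w hwv, lk_add, lk_eq_zero v w hwv, hbw, lk_co v _ hzv, zero_add]
    funext ρ
    exact add_self2 K _
  refine ⟨y + bd (K := K) (co v w), mem_erase_of_lk (add_mem hy (bd_mem hco)) hlk, ?_⟩
  rw [map_add, hby, bd_bd, add_zero]

omit [CharP K 2] in
lemma Ex_empty {G : SimpleGraph V} {e : V → Module.End K N} {τ : Finset V} {i : ℕ} :
    Ex G e ∅ τ (i + 1) := by
  intro x hx _
  have : x = 0 := by
    funext σ
    by_contra h
    have h3 := hx.2.2 σ h
    have : σ = ∅ := Finset.subset_empty.1 h3.1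
    rw [this] at h3
    have := h3.2.2
    simp at this
  exact ⟨0, zero_mem _, by rw [this, map_zero]⟩

end

end H162.CD
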