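import Mathlib

/-! Definitions for the statement of the Charney-Davis theorem (helper162).

A finite simple graph `G` stands for its clique complex; the flag complexes are exactly the clique
complexes of graphs. Faces are the cliques, counted by their number of vertices. -/

namespace H162.CDS

open Finset

variable {V : Type}

/-- The vertices of the link of the face `σ`: those joined to every vertex of `σ`. -/
def link (G : SimpleGraph V) (σ : Finset V) : Set V := {v | ∀ u ∈ σ, G.Adj u v}

/-- `z` is a mod 2 chain on the faces with `i` vertices of the full subcomplex on `A`. -/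
def IsChain (G : SimpleGraph V) (A : Set V) (i : ℕ) (z : Finset V → ZMod 2) : Prop :=
  ∀ ρ : Finset V, z ρ ≠ 0 → (ρ : Set V) ⊆ A ∧ G.IsClique (ρ : Set V) ∧ ρ.card = i

/-- The mod 2 simplicial boundary (the faces with one vertex have the empty face as boundary). -/
def boundary [Fintype V] [DecidableEq V] (z : Finset V → ZMod 2) (ρ : Finset V) : ZMod 2 :=
  ∑ v ∈ univ \ ρ, z (insert v ρ)

/-- The clique complex of `G` is an `F₂`-homology `(n-1)`-sphere: faces have at most `n` vertices,
and the link of each face `σ` (the empty face included) has the reduced `F₂`-homology of a sphere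
of dimension `n - |σ| - 1`: none below that dimension, and exactly one nonzero top cycle. -/
structure IsFlagSphere [Fintype V] [DecidableEq V] (G : SimpleGraph V) (n : ℕ) : Prop where
  dim : ∀ σ : Finset V, G.IsClique (σ : Set V) → σ.card ≤ n
  acyclic : ∀ σ : Finset V, G.IsClique (σ : Set V) → ∀ i, σ.card + i < n →
    ∀ z, IsChain G (link G σ) i z → boundary z = 0 →
      ∃ y, IsChain G (link G σ) (i + 1) y ∧ boundary y = z
  top : ∀ σ : Finset V, G.IsClique (σ : Set V) →
    ∃! z, z ≠ 0 ∧ IsChain G (link G σ) (n - σ.card) z ∧ boundary z = 0

/-- The graph obtained from `G` by contracting `v` into `u` (on the vertices other than `v`). -/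
def contract (G : SimpleGraph V) (u v : V) : SimpleGraph {x : V // x ≠ v} :=
  SimpleGraph.fromRel (fun x y => G.Adj x y ∨ (x.1 = u ∧ G.Adj v y))

/-- The class of flag complexes built from two points by: isomorphism, join with an arbitrary
complex, insertion or deletion of a vertex whose link is in the class, union of two full
subcomplexes meeting in a member of the class (and its inverse), deletion of an edge whose link
is in the class, and inverse contraction of an edge which lies in no induced 4-cycle and whose
link is in the class. -/
inductive Reducible : ∀ {V : Type} [Finite V], SimpleGraph V → Prop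
  | twoPoints {V : Type} [Finite V] (G : SimpleGraph V) (u v : V) (huv : u ≠ v)
      (hV : ∀ w, w = u ∨ w = v) (h : ¬ G.Adj u v) : Reducible G
  | iso {V W : Type} [Finite V] [Finite W] (G : SimpleGraph V) (H : SimpleGraph W) (f : G ≃g H)
      (h : Reducible G) : Reducible H
  | join {V : Type} [Finite V] (G : SimpleGraph V) (A : Set V)
      (hA : ∀ a ∈ A, ∀ b ∉ A, G.Adj a b) (h : Reducible (G.induce A)) : Reducible G
  | addVertex {V : Type} [Finite V] (G : SimpleGraph V) (v : V)
      (h1 : Reducible (G.induce {x | x ≠ v})) (h2 : Reducible (G.induce (G.neighborSet v))) :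
      Reducible G
  | deleteVertex {V : Type} [Finite V] (G : SimpleGraph V) (v : V)
      (h1 : Reducible G) (h2 : Reducible (G.induce (G.neighborSet v))) :
      Reducible (G.induce {x | x ≠ v})
  | glue {V : Type} [Finite V] (G : SimpleGraph V) (A B : Set V) (hAB : A ∪ B = Set.univ)
      (hadj : ∀ a ∈ A \ B, ∀ b ∈ B \ A, ¬ G.Adj a b) (hA : Reducible (G.induce A))
      (hB : Reducible (G.induce B)) (hI : Reducible (G.induce (A ∩ B))) : Reducible G
  | cut {V : Type} [Finite V] (G : SimpleGraph V) (A B : Set V) (hAB : A ∪ B = Set.univ)
      (hadj : ∀ a ∈ A \ B, ∀ b ∈ B \ A, ¬ G.Adj a b) (h : Reducible G)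
      (hI : Reducible (G.induce (A ∩ B))) : Reducible (G.induce A)
  | deleteEdge {V : Type} [Finite V] (G : SimpleGraph V) (u v : V) (huv : G.Adj u v)
      (h1 : Reducible G) (h2 : Reducible (G.induce (G.commonNeighbors u v))) :
      Reducible (G.deleteEdges {s(u, v)})
  | contraction {V : Type} [Finite V] (G : SimpleGraph V) (u v : V) (huv : G.Adj u v)
      (hC : ∀ x y, G.Adj u x → ¬ G.Adj v x → x ≠ v → G.Adj v y → ¬ G.Adj u y → y ≠ u →
        ¬ G.Adj x y)
      (h1 : Reducible (contract G u v)) (h2 : Reducible (G.induce (G.commonNeighbors u v))) :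
      Reducible G

end H162.CDS
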