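import Pool.Agent.H162.CD.Main
import Pool.Agent.H162.CD.Stmt

/-! From the combinatorial class to `T`-acyclicity (helper162). -/

namespace H162.CD

open Finset Classical Module H162.CDS

noncomputable section

attribute [-instance] Subtype.instDecidableEq

variable {K : Type} [Field K] [CharP K 2] [Infinite K]

omit [CharP K 2] [Infinite K] in
lemma TA_inst {V : Type} {G : SimpleGraph V} (i1 i2 : Fintype V) (h : @TA K _ V i1 G) :
    @TA K _ V i2 G := by
  rw [Subsingleton.elim i2 i1]; exact h

omit [CharP K 2] [Infinite K] in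
lemma TA_of_induce {V : Type} [Fintype V] {G : SimpleGraph V} {A : Set V} {B : Finset V}
    (h : ∀ x, x ∈ B ↔ x ∈ A) (hA : ∀ [Fintype A], TA K (G.induce A)) : TA K (GI G B) :=
  TA_iso (G := G.induce A) (Equiv.subtypeEquivRight h) hA

omit [CharP K 2] [Infinite K] in
lemma TA_induce {V : Type} [Fintype V] {G : SimpleGraph V} {A : Set V} {B : Finset V}
    (h : ∀ x, x ∈ B ↔ x ∈ A) [Fintype A] (hB : TA K (GI G B)) : TA K (G.induce A) :=
  TA_iso (G := GI G B) (Equiv.subtypeEquivRight (fun x => (h x).symm)) hB

theorem reducible_TA {V : Type} [hV : Finite V] {G : SimpleGraph V} (h : Reducible G) :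
    ∀ [Fintype V], TA K G := by
  induction h with
  | twoPoints G u v huv hV h =>
    intro _
    exact TA_two K u v huv hV h
  | @iso V W _ _ G H f h ih =>
    intro _
    have : Fintype V := Fintype.ofFinite V
    have h1 := TA_iso (W := W) f.symm.toEquiv (ih : TA K G)
    have h2 : G.comap f.symm.toEquiv = H := by
      ext a b
      rw [SimpleGraph.comap_adj]
      exact f.symm.map_adj_iff
    rw [h2] at h1
    exact h1
  | join G A hA h ih =>
    intro _
    refine TA_join (univ.filter (· ∈ A)) ?_ (TA_of_induce (A := A) (by simp) ih)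
    intro a ha b hb
    exact hA a (by simpa using ha) b (by simpa using hb)
  | addVertex G v h1 h2 ih1 ih2 =>
    intro _
    refine TA_vadd v (TA_of_induce (A := {x | x ≠ v}) (by simp) ih1)
      (TA_of_induce (A := G.neighborSet v) (by simp [mem_nb]) ih2)
  | @deleteVertex V _ G v h1 h2 ih1 ih2 =>
    intro _
    have : Fintype V := Fintype.ofFinite V
    have h3 := TA_vdel v (ih1 : TA K G) (TA_of_induce (A := G.neighborSet v) (by simp [mem_nb]) ih2)
    exact TA_induce (by simp) h3
  | glue G A B hAB hadj hA hB hI iA iB iI =>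
    intro _
    refine TA_glue (univ.filter (· ∈ A)) (univ.filter (· ∈ B)) ?_ ?_
      (TA_of_induce (A := A) (by simp) iA) (TA_of_induce (A := B) (by simp) iB)
      (TA_of_induce (A := A ∩ B) (by simp) iI)
    · ext x
      have : x ∈ A ∪ B := by rw [hAB]; trivial
      simpa using this
    · intro a ha ha' b hb hb'
      exact hadj a ⟨by simpa using ha, by simpa using ha'⟩ b ⟨by simpa using hb, by simpa using hb'⟩
  | @cut V _ G A B hAB hadj h hI ih iI =>
    intro _
    have : Fintype V := Fintype.ofFinite V
    have h3 := TA_cut (univ.filter (· ∈ A)) (univ.filter (· ∈ B)) (by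
      ext x
      have : x ∈ A ∪ B := by rw [hAB]; trivial
      simpa using this) (by
      intro a ha ha' b hb hb'
      exact hadj a ⟨by simpa using ha, by simpa using ha'⟩ b ⟨by simpa using hb, by simpa using hb'⟩)
      (ih : TA K G) (TA_of_induce (A := A ∩ B) (by simp) iI)
    exact TA_induce (by simp) h3
  | deleteEdge G u v huv h1 h2 ih1 ih2 =>
    intro _
    exact TA_edel u v huv ih1 (TA_of_induce (A := G.commonNeighbors u v) (by
      intro x; simp [mem_nb, SimpleGraph.mem_commonNeighbors]) ih2)
  | contraction G u v huv hC h1 h2 ih1 ih2 =>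
    intro _
    refine TA_contract huv hC ?_ (TA_of_induce (A := G.commonNeighbors u v) (by
      intro x; simp [mem_nb, SimpleGraph.mem_commonNeighbors]) ih2)
    have h3 := TA_iso (G := contract G u v) (W := {x // x ∈ (univ.erase v)})
      (Equiv.subtypeEquivRight (fun x => by simp)) ih1
    have h4 : (contract G u v).comap (Equiv.subtypeEquivRight (fun x => by simp) :
        {x // x ∈ (univ.erase v)} ≃ {x // x ≠ v}) = GI (ctr G u v) (univ.erase v) := by
      ext a b
      have ha : a.1 ≠ v := (Finset.mem_erase.1 a.2).1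
      have hb : b.1 ≠ v := (Finset.mem_erase.1 b.2).1
      rw [SimpleGraph.comap_adj, GI_adj, contract, SimpleGraph.fromRel_adj]
      simp only [ctr, Equiv.subtypeEquivRight_apply_coe, ne_eq, Subtype.ext_iff, ha, hb,
        not_false_eq_true, true_and, G.adj_comm b.1 a.1]
      tauto
    rw [h4] at h3
    exact TA_inst _ _ h3

end

end H162.CD
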