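import Pool.Agent.H162.CD.Ext2

namespace H162.CD

open Finset Classical Module

noncomputable section

attribute [-instance] Subtype.instDecidableEq

variable {V : Type*} [Fintype V]
variable {K : Type*} [Field K]

/-- `G` carries a balanced family with acyclic clique complex. -/
def TA (K : Type*) [Field K] {V : Type*} [Fintype V] (G : SimpleGraph V) : Prop :=
  ∃ n : ℕ, 0 < n ∧ ∃ e : V → Module.End K (Fin n → K), IsRep G e ∧ Bal G e ∧
    ∀ i, Ex G e univ ∅ i

lemma toFin {N : Type*} [AddCommGroup N] [Module K N] [FiniteDimensional K N] [Nontrivial N]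
    {G : SimpleGraph V} {e : V → Module.End K N} (h : IsRep G e) (hB : Bal G e) :
    ∃ n : ℕ, 0 < n ∧ ∃ e' : V → Module.End K (Fin n → K), IsRep G e' ∧ Bal G e' ∧
      ∀ A τ i, Ex G e A τ i → Ex G e' A τ i := by
  let φ := (Module.finBasis K N).equivFun
  exact ⟨finrank K N, Module.finrank_pos, cj φ e, cj_rep φ h, cj_bal φ hB,
    fun A τ i hE => cj_Ex φ hE⟩

lemma ext_exists {G : SimpleGraph V} {A : Finset V} (h : TA K (GI G A)) :
    ∃ n : ℕ, 0 < n ∧ ∃ e : V → Module.End K (Fin n → K), IsRep G e ∧ Bal G e ∧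
      ∀ τ i, (∀ t ∈ τ, t ∉ A) → Ex G e A τ i := by
  obtain ⟨n, hn, e, h1, h2, h3⟩ := h
  have : Nonempty (Fin n) := ⟨⟨0, hn⟩⟩
  obtain ⟨m, hm, e', a1, a2, a3⟩ := toFin (extE_rep (A := A) h1) (extE_bal h2)
  exact ⟨m, hm, e', a1, a2, fun τ i hτ => a3 _ _ _ (extE_Ex (h3 i) τ hτ)⟩

lemma bal_exists (K : Type*) [Field K] (G : SimpleGraph V) :
    ∃ n : ℕ, 0 < n ∧ ∃ e : V → Module.End K (Fin n → K), IsRep G e ∧ Bal G e := by
  let e0 : {x // x ∈ (∅ : Finset V)} → Module.End K K := fun _ => 0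
  have h1 : IsRep (GI G ∅) e0 := ⟨fun v => absurd v.2 (Finset.notMem_empty _), fun v => absurd v.2 (Finset.notMem_empty _)⟩
  have h2 : Bal (GI G ∅) e0 := fun _ v => absurd v.2 (Finset.notMem_empty _)
  obtain ⟨m, hm, e', a1, a2, a3⟩ := toFin (extE_rep h1) (extE_bal h2)
  exact ⟨m, hm, e', a1, a2⟩

/-- One balanced family which is good for finitely many links. -/
theorem common [CharP K 2] [Infinite K] (G : SimpleGraph V) (T : Finset (Finset V × Finset V))
    (hT : ∀ p ∈ T, Cl G p.2 ∧ p.1 ⊆ Lk G p.2 ∧ TA K (GI G p.1)) :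
    ∃ n : ℕ, 0 < n ∧ ∃ e : V → Module.End K (Fin n → K), IsRep G e ∧ Bal G e ∧
      ∀ p ∈ T, ∀ i, Ex G e p.1 p.2 i := by
  induction T using Finset.induction_on with
  | empty =>
    obtain ⟨n, hn, e, h1, h2⟩ := bal_exists K G
    exact ⟨n, hn, e, h1, h2, by simp⟩
  | insert p T hp ih =>
    obtain ⟨n, hn, e, h1, h2, h3⟩ := ih (fun q hq => hT q (mem_insert_of_mem hq))
    obtain ⟨c1, c2, c3⟩ := hT p (mem_insert_self _ _)
    obtain ⟨n', hn', e', a1, a2, a3⟩ := ext_exists c3
    obtain ⟨m, hm, E, b1, b2, b3, b4⟩ := combine2 hn hn' h1 a1 h2 a2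
    refine ⟨m, hm, E, b1, b2, fun q hq i => ?_⟩
    rw [mem_insert] at hq
    rcases hq with rfl | hq
    · refine b4 _ _ _ c1 c2 (a3 _ _ ?_)
      intro t ht htA
      exact not_mem_of_mem_Lk (c2 htA) ht
    · obtain ⟨d1, d2, _⟩ := hT q (mem_insert_of_mem hq)
      exact b3 _ _ _ d1 d2 (h3 q hq i)

/-! ### restriction along an embedding -/

section emb

variable {W : Type*} [Fintype W] {N : Type*} [AddCommGroup N] [Module K N]

omit [Fintype V] [Fintype W] in
lemma cl_mapE {G : SimpleGraph V} {f : W ↪ V} {ρ : Finset W} :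
    Cl G (ρ.map f) ↔ Cl (G.comap f) ρ := by
  constructor
  · intro h a ha b hb hab
    exact h (f a) (Finset.mem_map_of_mem f ha) (f b) (Finset.mem_map_of_mem f hb)
      (fun h => hab (f.injective h))
  · intro h a ha b hb hab
    obtain ⟨a', ha', rfl⟩ := Finset.mem_map.1 ha
    obtain ⟨b', hb', rfl⟩ := Finset.mem_map.1 hb
    exact h a' ha' b' hb' (fun h => hab (by rw [h]))

omit [Fintype V] [Fintype W] in
lemma emb_rep {G : SimpleGraph V} {e : V → Module.End K N} (f : W ↪ V) (h : IsRep G e) :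
    IsRep (G.comap f) (fun w => e (f w)) :=
  ⟨fun v x => h.sq _ _, fun u v huv x => h.comm _ _ huv x⟩

omit [Fintype V] [Fintype W] in
lemma mem_SS_emb {e : V → Module.End K N} {f : W ↪ V} {σ : Finset W} {x : N} :
    x ∈ SS (fun w => e (f w)) σ ↔ x ∈ SS e (σ.map f) := by
  constructor
  · intro h v hv
    obtain ⟨w, hw, rfl⟩ := Finset.mem_map.1 hv
    exact h w hw
  · intro h w hw
    exact h (f w) (Finset.mem_map_of_mem f hw)

omit [Fintype V] [Fintype W] in
lemma emb_bal {G : SimpleGraph V} {e : V → Module.End K N} (f : W ↪ V) (h : Bal G e) :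
    Bal (G.comap f) (fun w => e (f w)) := by
  intro σ v hv hcl x hx hvx
  rw [mem_SS_emb] at hx
  obtain ⟨y, hy, hyx⟩ := h (σ.map f) (f v) (by simpa using hv) (by
    rw [← Finset.map_insert, cl_mapE]; exact hcl) x hx hvx
  exact ⟨y, mem_SS_emb.2 hy, hyx⟩

lemma bd_emb (f : W ↪ V) (x : Finset V → N) (hx : ∀ σ, x σ ≠ 0 → σ ⊆ univ.map f)
    (ρ : Finset W) :
    bd (K := K) (fun ρ : Finset W => x (ρ.map f)) ρ = bd (K := K) x (ρ.map f) := by
  rw [bd_apply, bd_apply]
  have h1 : ∑ v : V, (if v ∈ ρ.map f then (0 : N) else x (insert v (ρ.map f))) =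
      ∑ v ∈ univ.map f, (if v ∈ ρ.map f then (0 : N) else x (insert v (ρ.map f))) := by
    symm
    apply Finset.sum_subset (Finset.subset_univ _)
    intro v _ hv
    split_ifs
    · rfl
    · by_contra hne
      exact hv (hx _ hne (mem_insert_self _ _))
  rw [h1, Finset.sum_map]
  refine Finset.sum_congr rfl (fun w _ => ?_)
  have h2 : f w ∈ ρ.map f ↔ w ∈ ρ := Finset.mem_map' f
  by_cases hw : w ∈ ρ
  · rw [if_pos hw, if_pos (h2.2 hw)]
  · rw [if_neg hw, if_neg (fun h => hw (h2.1 h)), Finset.map_insert]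

lemma emb_Ex {G : SimpleGraph V} {e : V → Module.End K N} (f : W ↪ V) {i : ℕ}
    (h : Ex G e (univ.map f) ∅ i) : Ex (G.comap f) (fun w => e (f w)) univ ∅ i := by
  intro x hx hbx
  let g : Finset V → Finset W := fun σ => univ.filter (fun w => f w ∈ σ)
  have hgmap : ∀ ρ : Finset W, g (ρ.map f) = ρ := by
    intro ρ; ext w; simp [g]
  have hmapg : ∀ σ : Finset V, σ ⊆ univ.map f → (g σ).map f = σ := by
    intro σ hσ
    ext v
    simp only [g, Finset.mem_map, Finset.mem_filter, Finset.mem_univ, true_and]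
    constructor
    · rintro ⟨w, hw, rfl⟩; exact hw
    · intro hv
      obtain ⟨w, _, hw⟩ := Finset.mem_map.1 (hσ hv)
      exact ⟨w, by rw [hw]; exact hv, hw⟩
  let X : Finset V → N := fun σ => if σ ⊆ univ.map f then x (g σ) else 0
  have hX : ∀ σ, X σ ≠ 0 → σ ⊆ univ.map f := by
    intro σ hσ
    by_contra hne
    exact hσ (if_neg hne)
  have hXx : ∀ ρ : Finset W, X (ρ.map f) = x ρ := by
    intro ρ
    have : ρ.map f ⊆ univ.map f := Finset.map_subset_map.2 (Finset.subset_univ _)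
    simp only [X]
    rw [if_pos this, hgmap]
  have hXm : X ∈ Ch G e (univ.map f) ∅ i := by
    refine ⟨fun σ v hv => by simp at hv, fun σ v hv => ?_, fun σ hσ => ?_⟩
    · by_cases hs : σ ⊆ univ.map f
      · simp only [X, if_pos hs]
        obtain ⟨w, _, hw⟩ := Finset.mem_map.1 (hs hv)
        have : e (f w) (x (g σ)) = 0 := hx.2.1 (g σ) w (by simp [g, hw, hv])
        rw [hw] at this
        exact this
      · simp only [X, if_neg hs, map_zero]
    · have hs := hX σ hσ
      simp only [X, if_pos hs] at hσ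
      have := hx.2.2 _ hσ
      refine ⟨hs, ?_, ?_⟩
      · rw [← hmapg σ hs, cl_mapE]; exact this.2.1
      · rw [← hmapg σ hs, Finset.card_map]; exact this.2.2
  have hbX : bd (K := K) X = 0 := by
    funext σ
    by_cases hs : σ ⊆ univ.map f
    · have := bd_emb (K := K) f X hX (g σ)
      rw [hmapg σ hs] at this
      rw [← this]
      have h2 : (fun ρ : Finset W => X (ρ.map f)) = x := funext hXx
      rw [h2, hbx]; rfl
    · rw [bd_apply]
      apply Finset.sum_eq_zero
      intro v _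
      split_ifs
      · rfl
      · by_contra hne
        exact hs ((subset_insert _ _).trans (hX _ hne))
  obtain ⟨Y, hY, hYX⟩ := h X hXm hbX
  refine ⟨fun ρ => Y (ρ.map f), ⟨fun ρ v hv => by simp at hv, fun ρ w hw => ?_,
    fun ρ hρ => ?_⟩, ?_⟩
  · exact hY.2.1 _ _ (Finset.mem_map_of_mem f hw)
  · have := hY.2.2 _ hρ
    refine ⟨Finset.subset_univ _, cl_mapE.1 this.2.1, ?_⟩
    rw [← this.2.2, Finset.card_map]
  · funext ρ
    rw [bd_emb f Y (fun σ hσ => (hY.2.2 σ hσ).1), hYX, hXx]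

end emb

lemma TA_comap {G : SimpleGraph V} {W : Type*} [Fintype W] (f : W ↪ V) {n : ℕ} (hn : 0 < n)
    {e : V → Module.End K (Fin n → K)} (h1 : IsRep G e) (h2 : Bal G e)
    (h3 : ∀ i, Ex G e (univ.map f) ∅ i) : TA K (G.comap f) :=
  ⟨n, hn, _, emb_rep f h1, emb_bal f h2, fun i => emb_Ex f (h3 i)⟩

lemma TA_iso {G : SimpleGraph V} {W : Type*} [Fintype W] (f : W ≃ V) (h : TA K G) :
    TA K (G.comap f) := by
  obtain ⟨n, hn, e, h1, h2, h3⟩ := h
  refine TA_comap (f.toEmbedding) hn h1 h2 (fun i => ?_)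
  have : (univ : Finset W).map f.toEmbedding = univ := by
    ext v; simp
  rw [this]
  exact h3 i

lemma TA_GI {G : SimpleGraph V} {A : Finset V} {n : ℕ} (hn : 0 < n)
    {e : V → Module.End K (Fin n → K)} (h1 : IsRep G e) (h2 : Bal G e)
    (h3 : ∀ i, Ex G e A ∅ i) : TA K (GI G A) := by
  refine TA_comap (Function.Embedding.subtype (· ∈ A)) hn h1 h2 (fun i => ?_)
  have : (univ : Finset {x // x ∈ A}).map (Function.Embedding.subtype (· ∈ A)) = A := by
    ext v; simp
  rw [this]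
  exact h3 i

lemma TA_GI_univ {G : SimpleGraph V} (h : TA K G) : TA K (GI G univ) := by
  obtain ⟨n, hn, e, h1, h2, h3⟩ := h
  exact TA_GI hn h1 h2 h3

lemma Lk_empty (G : SimpleGraph V) : Lk G ∅ = univ := by
  ext v; simp [Lk]

/-! ### closure properties -/

section closure

variable [CharP K 2] [Infinite K]

lemma nb_subset_Lk' (G : SimpleGraph V) (v : V) : nb G univ v ⊆ Lk G {v} := by
  intro w hw
  rw [mem_nb] at hw
  rw [mem_Lk]
  intro t ht
  rw [Finset.mem_singleton] at ht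
  subst ht
  exact hw.2.symm

omit [Fintype V] [Infinite K] in
lemma cl_singleton (G : SimpleGraph V) (v : V) : Cl G {v} := by
  intro a ha b hb hab
  rw [Finset.mem_singleton] at ha hb
  exact absurd (ha.trans hb.symm) hab

theorem TA_vadd {G : SimpleGraph V} (v : V) (h1 : TA K (GI G (univ.erase v)))
    (h2 : TA K (GI G (nb G univ v))) : TA K G := by
  obtain ⟨n, hn, e, a1, a2, a3⟩ := common (K := K) G
    {(univ.erase v, ∅), (nb G univ v, {v})} (by
      intro p hp
      rw [Finset.mem_insert, Finset.mem_singleton] at hp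
      rcases hp with rfl | rfl
      · exact ⟨cl_empty G, by rw [Lk_empty]; exact Finset.subset_univ _, h1⟩
      · exact ⟨cl_singleton G v, nb_subset_Lk' G v, h2⟩)
  refine ⟨n, hn, e, a1, a2, fun i => ?_⟩
  have b1 := a3 (univ.erase v, ∅) (by simp)
  have b2 := a3 (nb G univ v, {v}) (by simp)
  cases i with
  | zero => exact D1_zero (b1 0)
  | succ i => exact D1 (mem_univ v) (b1 (i + 1)) (b2 i)

theorem TA_vdel {G : SimpleGraph V} (v : V) (h1 : TA K G)
    (h2 : TA K (GI G (nb G univ v))) : TA K (GI G (univ.erase v)) := by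
  obtain ⟨n, hn, e, a1, a2, a3⟩ := common (K := K) G
    {(univ, ∅), (nb G univ v, {v})} (by
      intro p hp
      rw [Finset.mem_insert, Finset.mem_singleton] at hp
      rcases hp with rfl | rfl
      · exact ⟨cl_empty G, by rw [Lk_empty], TA_GI_univ h1⟩
      · exact ⟨cl_singleton G v, nb_subset_Lk' G v, h2⟩)
  have b1 := a3 (univ, ∅) (by simp)
  have b2 := a3 (nb G univ v, {v}) (by simp)
  exact TA_GI hn a1 a2 (fun i => D2 (mem_univ v) (b1 i) (b2 i))

theorem TA_glue {G : SimpleGraph V} (A B : Finset V) (hU : A ∪ B = univ)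
    (hAB : ∀ a ∈ A, a ∉ B → ∀ b ∈ B, b ∉ A → ¬ G.Adj a b)
    (hA : TA K (GI G A)) (hB : TA K (GI G B)) (hI : TA K (GI G (A ∩ B))) : TA K G := by
  obtain ⟨n, hn, e, a1, a2, a3⟩ := common (K := K) G
    {(A, ∅), (B, ∅), (A ∩ B, ∅)} (by
      intro p hp
      rw [Finset.mem_insert, Finset.mem_insert, Finset.mem_singleton] at hp
      rcases hp with rfl | rfl | rfl
      · exact ⟨cl_empty G, by rw [Lk_empty]; exact Finset.subset_univ _, hA⟩
      · exact ⟨cl_empty G, by rw [Lk_empty]; exact Finset.subset_univ _, hB⟩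
      · exact ⟨cl_empty G, by rw [Lk_empty]; exact Finset.subset_univ _, hI⟩)
  have b1 := a3 (A, ∅) (by simp)
  have b2 := a3 (B, ∅) (by simp)
  have b3 := a3 (A ∩ B, ∅) (by simp)
  refine ⟨n, hn, e, a1, a2, fun i => ?_⟩
  rw [← hU]
  cases i with
  | zero => exact MV_zero (b1 0)
  | succ i => exact MV hAB (b1 (i + 1)) (b2 (i + 1)) (b3 i)

theorem TA_cut {G : SimpleGraph V} (A B : Finset V) (hU : A ∪ B = univ)
    (hAB : ∀ a ∈ A, a ∉ B → ∀ b ∈ B, b ∉ A → ¬ G.Adj a b)
    (hG : TA K G) (hI : TA K (GI G (A ∩ B))) : TA K (GI G A) := by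
  obtain ⟨n, hn, e, a1, a2, a3⟩ := common (K := K) G
    {(univ, ∅), (A ∩ B, ∅)} (by
      intro p hp
      rw [Finset.mem_insert, Finset.mem_singleton] at hp
      rcases hp with rfl | rfl
      · exact ⟨cl_empty G, by rw [Lk_empty], TA_GI_univ hG⟩
      · exact ⟨cl_empty G, by rw [Lk_empty]; exact Finset.subset_univ _, hI⟩)
  have b1 := a3 (univ, ∅) (by simp)
  have b3 := a3 (A ∩ B, ∅) (by simp)
  refine TA_GI hn a1 a2 (fun i => ?_)
  have := b1 i
  rw [← hU] at this
  exact MVcut hAB this (b3 i)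

end closure

end

end H162.CD
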