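import Pool.Agent.H162.CD.Class

namespace H162.CD

open Finset Classical Module

noncomputable section

attribute [-instance] Subtype.instDecidableEq

variable {V : Type*} [Fintype V]
variable {K : Type*} [Field K]
variable {N : Type*} [AddCommGroup N] [Module K N]

/-! ### joins -/

theorem TA_join [CharP K 2] [Infinite K] {G : SimpleGraph V} (A : Finset V)
    (hj : ∀ a ∈ A, ∀ h, h ∉ A → G.Adj a h) (hA : TA K (GI G A)) : TA K G := by
  obtain ⟨n, hn, e, a1, a2, a3⟩ := common (K := K) G
    ((univ.filter (fun τ : Finset V => Cl G τ ∧ τ ⊆ Aᶜ)).image (fun τ => (A, τ))) (by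
      intro p hp
      obtain ⟨τ, hτ, rfl⟩ := Finset.mem_image.1 hp
      rw [Finset.mem_filter] at hτ
      refine ⟨hτ.2.1, ?_, hA⟩
      intro a ha
      rw [mem_Lk]
      intro t ht
      exact hj a ha t (Finset.mem_compl.1 (hτ.2.2 ht)))
  have key : ∀ k : ℕ, ∀ H : Finset V, H.card = k → H ⊆ Aᶜ → ∀ τ, Cl G τ → τ ⊆ Aᶜ →
      H ⊆ Lk G τ → ∀ i, Ex G e (A ∪ H) τ i := by
    intro k
    induction k using Nat.strong_induction_on with
    | _ k ih =>
      intro H hk hHA τ hτ hτA hHτ i
      rcases Finset.eq_empty_or_nonempty H with rfl | ⟨v, hv⟩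
      · rw [Finset.union_empty]
        exact a3 (A, τ) (Finset.mem_image.2 ⟨τ, by simp [hτ, hτA], rfl⟩) i
      · have hvA : v ∉ A := Finset.mem_compl.1 (hHA hv)
        have e1 : (A ∪ H).erase v = A ∪ H.erase v := by
          ext w
          simp only [Finset.mem_erase, Finset.mem_union]
          constructor
          · rintro ⟨h1, h2 | h2⟩
            · exact Or.inl h2
            · exact Or.inr ⟨h1, h2⟩
          · rintro (h | h)
            · exact ⟨by rintro rfl; exact hvA h, Or.inl h⟩
            · exact ⟨h.1, Or.inr h.2⟩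
        have e2 : nb G (A ∪ H) v = A ∪ nb G H v := by
          ext w
          simp only [mem_nb, Finset.mem_union]
          constructor
          · rintro ⟨h1 | h1, h2⟩
            · exact Or.inl h1
            · exact Or.inr ⟨h1, h2⟩
          · rintro (h | h)
            · exact ⟨Or.inl h, (hj w h v hvA).symm⟩
            · exact ⟨Or.inr h.1, h.2⟩
        have c1 : (H.erase v).card < k := by
          rw [← hk]; exact Finset.card_erase_lt_of_mem hv
        have c2 : (nb G H v).card < k := by
          rw [← hk]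
          apply Finset.card_lt_card
          refine ⟨Finset.filter_subset _ _, fun h => ?_⟩
          exact not_mem_nb_self (h hv)
        have d1 : ∀ j, Ex G e ((A ∪ H).erase v) τ j := by
          intro j
          rw [e1]
          exact ih _ c1 _ rfl ((Finset.erase_subset _ _).trans hHA) τ hτ hτA
            ((Finset.erase_subset _ _).trans hHτ) j
        have d2 : ∀ j, Ex G e (nb G (A ∪ H) v) (insert v τ) j := by
          intro j
          rw [e2]
          refine ih _ c2 _ rfl ((Finset.filter_subset _ _).trans hHA) _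
            (cl_insert_Lk hτ (hHτ hv)) ?_ (nb_subset_Lk hHτ) j
          intro w hw
          rw [mem_insert] at hw
          rcases hw with rfl | hw
          · exact hHA hv
          · exact hτA hw
        cases i with
        | zero => exact D1_zero (d1 0)
        | succ i => exact D1 (Finset.mem_union_right _ hv) (d1 (i + 1)) (d2 i)
  refine ⟨n, hn, e, a1, a2, fun i => ?_⟩
  have := key _ Aᶜ rfl (Finset.Subset.refl _) ∅ (cl_empty G) (Finset.empty_subset _)
    (by rw [Lk_empty]; exact Finset.subset_univ _) i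
  rwa [Finset.union_compl] at this

/-! ### two points -/

theorem TA_two (K : Type*) [Field K] {V : Type*} [Fintype V] {G : SimpleGraph V} (x y : V)
    (hxy : x ≠ y) (hU : ∀ z, z = x ∨ z = y) (hG : ¬ G.Adj x y) : TA K G := by
  have hno : ∀ a b, ¬ G.Adj a b := by
    intro a b hab
    rcases hU a with rfl | rfl <;> rcases hU b with rfl | rfl
    · exact G.loopless.irrefl _ hab
    · exact hG hab
    · exact hG hab.symm
    · exact G.loopless.irrefl _ hab
  have hcl1 : ∀ σ, Cl G σ → ∀ a ∈ σ, ∀ b ∈ σ, a = b := by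
    intro σ hσ a ha b hb
    by_contra hne
    exact hno a b (hσ a ha b hb hne)
  let e : V → Module.End K (K × K) := fun w =>
    if w = x then (LinearMap.inl K K K) ∘ₗ (LinearMap.snd K K K)
    else (LinearMap.inr K K K) ∘ₗ (LinearMap.fst K K K)
  have ex : ∀ p : K × K, e x p = (p.2, 0) := by intro p; simp [e]
  have ey : ∀ p : K × K, e y p = (0, p.1) := by
    intro p
    have : ¬ (y = x) := fun h => hxy h.symm
    simp [e, this]
  have hrep : IsRep G e := by
    refine ⟨fun v p => ?_, fun u v huv => absurd huv (hno u v)⟩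
    rcases hU v with rfl | rfl
    · rw [ex, ex]; rfl
    · rw [ey, ey]; rfl
  have hbal : Bal G e := by
    intro σ v hv hcl p _ hvp
    have hσ : σ = ∅ := by
      by_contra hne
      obtain ⟨w, hw⟩ := Finset.nonempty_iff_ne_empty.2 hne
      have := hcl1 _ hcl w (mem_insert_of_mem hw) v (mem_insert_self _ _)
      subst this
      exact hv hw
    subst hσ
    rcases hU v with rfl | rfl
    · rw [ex] at hvp
      have h2 : p.2 = 0 := congrArg Prod.fst hvp
      refine ⟨(0, p.1), by rw [SS_empty]; trivial, ?_⟩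
      rw [ex]
      exact Prod.ext rfl h2.symm
    · rw [ey] at hvp
      have h2 : p.1 = 0 := congrArg Prod.snd hvp
      refine ⟨(p.2, 0), by rw [SS_empty]; trivial, ?_⟩
      rw [ey]
      exact Prod.ext h2.symm rfl
  have hEx : ∀ i, Ex G e univ ∅ i := by
    intro i z hz hbz
    have hsum : ∀ (f : V → K × K), ∑ v, f v = f x + f y := by
      intro f
      have : (univ : Finset V) = {x, y} := by
        ext w; simp [hU w]
      rw [this, Finset.sum_pair hxy]
    match i, hz with
    | 0, hz =>
      have hz0 : ∀ σ : Finset V, σ ≠ ∅ → z σ = 0 := by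
        intro σ hσ
        by_contra hne
        have := (hz.2.2 σ hne).2.2
        exact hσ (Finset.card_eq_zero.1 this)
      let Y : Finset V → K × K := fun σ => if σ = {x} then ((z ∅).1, 0) else
        if σ = {y} then (0, (z ∅).2) else 0
      have hxy' : ({y} : Finset V) ≠ {x} := by
        intro h; exact hxy (Finset.singleton_injective h).symm
      have hYx : Y {x} = ((z ∅).1, 0) := by simp [Y]
      have hYy : Y {y} = (0, (z ∅).2) := by
        show (if ({y} : Finset V) = {x} then _ else _) = _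
        rw [if_neg hxy', if_pos rfl]
      have hYs : ∀ σ, Y σ ≠ 0 → σ.card = 1 := by
        intro σ hσ
        simp only [Y] at hσ
        split_ifs at hσ with h1 h2
        · rw [h1]; simp
        · rw [h2]; simp
        · exact absurd rfl hσ
      refine ⟨Y, ⟨fun σ v hv => by simp at hv, fun σ v hv => ?_, fun σ hσ => ?_⟩, ?_⟩
      · simp only [Y]
        split_ifs with h1 h2
        · rw [h1, Finset.mem_singleton] at hv
          rw [hv, ex]; rfl
        · rw [h2, Finset.mem_singleton] at hv
          rw [hv, ey]; rfl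
        · simp
      · have h1 := hYs σ hσ
        obtain ⟨a, rfl⟩ := Finset.card_eq_one.1 h1
        exact ⟨Finset.subset_univ _, fun b hb c hc hbc => by
          rw [Finset.mem_singleton] at hb hc
          exact absurd (hb.trans hc.symm) hbc, h1⟩
      · funext σ
        by_cases hσ : σ = ∅
        · subst hσ
          rw [bd_apply, hsum]
          simp only [Finset.notMem_empty, if_false]
          rw [show insert x (∅ : Finset V) = {x} from rfl,
            show insert y (∅ : Finset V) = {y} from rfl, hYx, hYy]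
          simp
        · rw [hz0 σ hσ, bd_apply]
          apply Finset.sum_eq_zero
          intro v _
          split_ifs with hv
          · rfl
          · by_contra hne
            have h1 := hYs _ hne
            rw [Finset.card_insert_of_notMem hv] at h1
            exact hσ (Finset.card_eq_zero.1 (by omega))
    | 1, hz =>
      refine ⟨0, zero_mem _, ?_⟩
      rw [map_zero]
      have h0 := congrFun hbz ∅
      rw [bd_apply, hsum] at h0
      simp only [Finset.notMem_empty, if_false] at h0
      have hx2 : (z {x}).2 = 0 := by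
        have := hz.2.1 {x} x (Finset.mem_singleton_self _)
        rw [ex] at this
        exact congrArg Prod.fst this
      have hy1 : (z {y}).1 = 0 := by
        have := hz.2.1 {y} y (Finset.mem_singleton_self _)
        rw [ey] at this
        exact congrArg Prod.snd this
      have h1 : (z {x}).1 + (z {y}).1 = 0 := congrArg Prod.fst h0
      have h2 : (z {x}).2 + (z {y}).2 = 0 := congrArg Prod.snd h0
      rw [hy1, add_zero] at h1
      rw [hx2, zero_add] at h2
      funext σ
      by_contra hne
      have hne' : z σ ≠ 0 := fun h => hne h.symm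
      have h3 := (hz.2.2 σ hne').2.2
      obtain ⟨a, rfl⟩ := Finset.card_eq_one.1 h3
      apply hne'
      rcases hU a with rfl | rfl
      · exact Prod.ext h1 hx2
      · exact Prod.ext hy1 h2
    | (j + 2), hz =>
      refine ⟨0, zero_mem _, ?_⟩
      rw [map_zero]
      funext σ
      by_contra hne
      have hne' : z σ ≠ 0 := fun h => hne h.symm
      have h3 := hz.2.2 σ hne'
      have : 1 < σ.card := by rw [h3.2.2]; omega
      obtain ⟨a, ha, b, hb, hab⟩ := Finset.one_lt_card.1 this
      exact hab (hcl1 σ h3.2.1 a ha b hb)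
  obtain ⟨n, hn, e', a1, a2, a3⟩ := toFin hrep hbal
  exact ⟨n, hn, e', a1, a2, fun i => a3 _ _ _ (hEx i)⟩

/-! ### deleting an edge -/

omit [Fintype V] in
lemma cl_del {G : SimpleGraph V} {u v : V} (huv : u ≠ v) {σ : Finset V} :
    Cl (G.deleteEdges {s(u, v)}) σ ↔ Cl G σ ∧ ¬ (u ∈ σ ∧ v ∈ σ) := by
  constructor
  · intro h
    refine ⟨fun a ha b hb hab => (SimpleGraph.deleteEdges_adj.1 (h a ha b hb hab)).1, ?_⟩
    rintro ⟨hu, hv⟩
    have := (SimpleGraph.deleteEdges_adj.1 (h u hu v hv huv)).2
    exact this (Set.mem_singleton _)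
  · rintro ⟨h1, h2⟩ a ha b hb hab
    rw [SimpleGraph.deleteEdges_adj]
    refine ⟨h1 a ha b hb hab, ?_⟩
    intro h
    rw [Set.mem_singleton_iff, Sym2.eq_iff] at h
    rcases h with ⟨rfl, rfl⟩ | ⟨rfl, rfl⟩
    · exact h2 ⟨ha, hb⟩
    · exact h2 ⟨hb, ha⟩

theorem ED [CharP K 2] {G : SimpleGraph V} {ε : V → Module.End K N} {u v : V} (huv : G.Adj u v)
    {i : ℕ} (h1 : Ex G ε univ ∅ (i + 1)) (h2 : Ex G ε (nb G (nb G univ u) v) {v, u} i) :
    Ex (G.deleteEdges {s(u, v)}) ε univ ∅ (i + 1) := by
  have hne : u ≠ v := huv.ne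
  intro x hx hbx
  have hx' : x ∈ Ch G ε univ ∅ (i + 1) := by
    refine ⟨hx.1, hx.2.1, fun σ hσ => ?_⟩
    have := hx.2.2 σ hσ
    exact ⟨this.1, ((cl_del hne).1 this.2.1).1, this.2.2⟩
  obtain ⟨y, hy, hyx⟩ := h1 x hx' hbx
  have hz : lk v (lk u y) ∈ Ch G ε (nb G (nb G univ u) v) {v, u} i := lk_mem (lk_mem hy)
  have hbz : bd (K := K) (lk v (lk u y)) = 0 := by
    rw [← lk_bd, ← lk_bd, hyx]
    funext ρ
    simp only [lk]
    split_ifs with a1 a2
    · rfl
    · rfl
    · by_contra hne'
      have := (hx.2.2 _ hne').2.1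
      exact ((cl_del hne).1 this).2 ⟨mem_insert_self _ _,
        mem_insert_of_mem (mem_insert_self _ _)⟩
  obtain ⟨w, hw, hwz⟩ := h2 _ hz hbz
  have hu' : v ∈ nb G univ u := mem_nb.2 ⟨mem_univ _, huv⟩
  have c1 : co v w ∈ Ch G ε (nb G univ u) {u} (i + 2) := co_mem hu' hw
  have c2 : co u (co v w) ∈ Ch G ε univ ∅ (i + 3) := co_mem (mem_univ u) c1
  have hwv := vanish_of_mem (not_mem_nb_self (G := G)) hw
  have hcu := vanish_of_mem (not_mem_nb_self (G := G)) c1
  have e1 : lk v (lk u (bd (K := K) (co u (co v w)))) = bd (K := K) w := by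
    rw [lk_bd, lk_bd, lk_co u _ hcu, lk_co v _ hwv]
  have hlk : lk v (lk u (y + bd (K := K) (co u (co v w)))) = 0 := by
    rw [lk_add, lk_add, e1, hwz]
    exact add_self2 K _
  have hm : y + bd (K := K) (co u (co v w)) ∈ Ch G ε univ ∅ (i + 2) :=
    add_mem hy (bd_mem c2)
  refine ⟨y + bd (K := K) (co u (co v w)), ⟨hm.1, hm.2.1, fun σ hσ => ?_⟩, ?_⟩
  · have h3 := hm.2.2 σ hσ
    refine ⟨h3.1, (cl_del hne).2 ⟨h3.2.1, ?_⟩, h3.2.2⟩
    rintro ⟨hu, hv⟩
    apply hσ
    have h4 := congrFun hlk ((σ.erase u).erase v)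
    simp only [lk] at h4
    rw [if_neg (Finset.notMem_erase _ _), Finset.insert_erase
      (Finset.mem_erase.2 ⟨hne.symm, hv⟩), if_neg (Finset.notMem_erase _ _),
      Finset.insert_erase hu] at h4
    exact h4
  · rw [map_add, hyx, bd_bd, add_zero]

theorem ED_zero {G : SimpleGraph V} {ε : V → Module.End K N} {u v : V} (huv : G.Adj u v)
    (h1 : Ex G ε univ ∅ 0) : Ex (G.deleteEdges {s(u, v)}) ε univ ∅ 0 := by
  have hne : u ≠ v := huv.ne
  intro x hx hbx
  have hx' : x ∈ Ch G ε univ ∅ 0 := by
    refine ⟨hx.1, hx.2.1, fun σ hσ => ?_⟩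
    have := hx.2.2 σ hσ
    exact ⟨this.1, ((cl_del hne).1 this.2.1).1, this.2.2⟩
  obtain ⟨y, hy, hyx⟩ := h1 x hx' hbx
  refine ⟨y, ⟨hy.1, hy.2.1, fun σ hσ => ?_⟩, hyx⟩
  have h3 := hy.2.2 σ hσ
  refine ⟨h3.1, (cl_del hne).2 ⟨h3.2.1, ?_⟩, h3.2.2⟩
  rintro ⟨hu, hv⟩
  obtain ⟨a, ha⟩ := Finset.card_eq_one.1 h3.2.2
  rw [ha, Finset.mem_singleton] at hu hv
  exact hne (hu.trans hv.symm)

theorem TA_edel [CharP K 2] [Infinite K] {G : SimpleGraph V} (u v : V) (huv : G.Adj u v)
    (h1 : TA K G) (h2 : TA K (GI G (nb G (nb G univ u) v))) :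
    TA K (G.deleteEdges {s(u, v)}) := by
  have hne : u ≠ v := huv.ne
  obtain ⟨n, hn, e, a1, a2, a3⟩ := common (K := K) G
    {(univ, ∅), (nb G (nb G univ u) v, {v, u})} (by
      intro p hp
      rw [Finset.mem_insert, Finset.mem_singleton] at hp
      rcases hp with rfl | rfl
      · exact ⟨cl_empty G, by rw [Lk_empty], TA_GI_univ h1⟩
      · refine ⟨(cl_singleton G u).insert ?_, ?_, h2⟩
        · intro w hw
          rw [Finset.mem_singleton] at hw
          subst hw
          exact huv.symm
        · exact nb_subset_Lk (nb_subset_Lk' G u))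
  have b1 := a3 (univ, ∅) (by simp)
  have b2 := a3 (nb G (nb G univ u) v, {v, u}) (by simp)
  refine ⟨n, hn, e, ⟨a1.sq, fun a b hab => a1.comm a b (SimpleGraph.deleteEdges_adj.1 hab).1⟩,
    fun σ w hw hcl => a2 σ w hw ((cl_del hne).1 hcl).1, fun i => ?_⟩
  cases i with
  | zero => exact ED_zero huv (b1 0)
  | succ i => exact ED huv (b1 (i + 1)) (b2 i)

end

end H162.CD
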