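import Pool.Agent.H162.CD.Contract2

namespace H162.CD

open Finset Classical Module

noncomputable section

attribute [-instance] Subtype.instDecidableEq

variable {V : Type*} [Fintype V]
variable {K : Type*} [Field K]
variable {N : Type*} [AddCommGroup N] [Module K N]

/-- applying an operator to all coefficients -/
def ap (f : N →ₗ[K] N) (x : Finset V → N) : Finset V → N := fun σ => f (x σ)

lemma bd_ap (f : N →ₗ[K] N) (x : Finset V → N) :
    bd (K := K) (ap f x) = ap f (bd (K := K) x) := by
  funext ρ
  rw [bd_apply, ap, bd_apply, map_sum]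
  refine Finset.sum_congr rfl (fun w _ => ?_)
  split_ifs
  · simp
  · rfl

/-- Adding a cone point to a clique. -/
theorem COL [CharP K 2] {G : SimpleGraph V} {e : V → Module.End K N} (he : IsRep G e)
    (hB : Bal G e) {τ ξ : Finset V} {v : V} {p : ℕ} (hvτ : v ∉ τ)
    (hcl : Cl G (insert v (τ ∪ ξ))) (hvξ : v ∉ ξ)
    (h : Ex G e τ (insert v ξ) p) : Ex G e (insert v τ) ξ p := by
  have hadj : ∀ w ∈ τ ∪ ξ, G.Adj w v := by
    intro w hw
    apply hcl w (mem_insert_of_mem hw) v (mem_insert_self _ _)
    rintro rfl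
    rcases Finset.mem_union.1 hw with h | h
    · exact hvτ h
    · exact hvξ h
  intro x hx hbx
  have hr : res v x ∈ Ch G e τ ξ p := by
    refine ⟨fun σ w hw => ?_, fun σ w hw => ?_, fun σ hσ => ?_⟩
    · rw [res]; split_ifs
      · simp
      · exact hx.1 σ w hw
    · rw [res]; split_ifs
      · simp
      · exact hx.2.1 σ w hw
    · rw [res] at hσ
      split_ifs at hσ with hv
      · exact absurd rfl hσ
      · have := hx.2.2 σ hσ
        refine ⟨fun w hw => ?_, this.2⟩
        rcases Finset.mem_insert.1 (this.1 hw) with rfl | h'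
        · exact absurd hw hv
        · exact h'
  have hlkv : ∀ σ, e v (lk v x σ) = 0 := by
    intro σ
    rw [lk]; split_ifs
    · simp
    · exact hx.2.1 _ v (mem_insert_self _ _)
  have hbr : bd (K := K) (res v x) = lk v x := by
    have h1 := res_bd (K := K) v x
    rw [hbx] at h1
    have h2 : res v (0 : Finset V → N) = 0 := by funext σ; simp [res]
    rw [h2] at h1
    have h3 : bd (K := K) (res v x) + lk v x = lk v x + lk v x := by
      rw [← h1]; exact (add_self2 K _).symm
    exact add_right_cancel h3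
  have her : ap (e v) (res v x) ∈ Ch G e τ (insert v ξ) p := by
    refine ⟨fun σ w hw => ?_, fun σ w hw => ?_, fun σ hσ => hr.2.2 σ ?_⟩
    · rw [ap]
      rw [mem_insert] at hw
      rcases hw with rfl | hw
      · exact he.sq _ _
      · rw [he.comm w v (hadj w (Finset.mem_union_right _ hw)), hr.1 σ w hw, map_zero]
    · rw [ap]
      by_cases h0 : res v x σ = 0
      · rw [h0]; simp
      · rw [he.comm w v (hadj w (Finset.mem_union_left _ ((hr.2.2 σ h0).1 hw))),
          hr.2.1 σ w hw, map_zero]
    · intro h0; apply hσ; rw [ap, h0, map_zero]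
  have hber : bd (K := K) (ap (e v) (res v x)) = 0 := by
    rw [bd_ap, hbr]
    funext σ
    exact hlkv σ
  obtain ⟨s, hs, hbs⟩ := h _ her hber
  have key : ∀ σ, ∃ y, (∀ w ∈ ξ ∪ σ, e w y = 0) ∧ e v y = s σ ∧ (s σ = 0 → y = 0) := by
    intro σ
    by_cases h0 : s σ = 0
    · exact ⟨0, fun w _ => by simp, by rw [h0, map_zero], fun _ => rfl⟩
    · have h1 := hs.2.2 σ h0
      have hvσ : v ∉ ξ ∪ σ := by
        rw [Finset.mem_union]
        rintro (h' | h')
        · exact hvξ h'
        · exact hvτ (h1.1 h')
      have hcl' : Cl G (insert v (ξ ∪ σ)) := by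
        apply hcl.mono
        apply Finset.insert_subset_insert
        rw [Finset.union_comm]
        exact Finset.union_subset_union_left h1.1
      obtain ⟨y, hy, hyx⟩ := hB (ξ ∪ σ) v hvσ hcl' (s σ) (by
        intro w hw
        rcases Finset.mem_union.1 hw with h' | h'
        · exact hs.1 σ w (mem_insert_of_mem h')
        · exact hs.2.1 σ w h') (hs.1 σ v (mem_insert_self _ _))
      exact ⟨y, hy, hyx, fun h => absurd h h0⟩
  choose t ht1 ht2 ht3 using key
  have ht : t ∈ Ch G e τ ξ (p + 1) :=
    ⟨fun σ w hw => ht1 σ w (Finset.mem_union_left _ hw),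
      fun σ w hw => ht1 σ w (Finset.mem_union_right _ hw),
      fun σ hσ => hs.2.2 σ (fun h => hσ (ht3 σ h))⟩
  have hapt : ap (e v) t = s := funext ht2
  set r' := res v x + bd (K := K) t with hr'
  have hr'm : r' ∈ Ch G e τ ξ p := add_mem hr (bd_mem ht)
  have her' : ∀ σ, e v (r' σ) = 0 := by
    intro σ
    have h1 : e v (bd (K := K) t σ) = bd (K := K) s σ := by
      have := congrFun (bd_ap (e v) t) σ
      rw [hapt] at this
      exact this.symm
    rw [hr', Pi.add_apply, map_add, h1, hbs]
    exact add_self2 K _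
  have hr'm2 : r' ∈ Ch G e τ (insert v ξ) p := by
    refine ⟨fun σ w hw => ?_, hr'm.2.1, hr'm.2.2⟩
    rw [mem_insert] at hw
    rcases hw with rfl | hw
    · exact her' σ
    · exact hr'm.1 σ w hw
  have hco : co v r' ∈ Ch G e (insert v τ) ξ (p + 1) := by
    refine co_mem (mem_insert_self _ _) (Ch_mono ?_ hr'm2)
    intro w hw
    rw [mem_nb]
    exact ⟨mem_insert_of_mem hw, (hadj w (Finset.mem_union_left _ hw)).symm⟩
  have hr'v := vanish_of_mem hvτ hr'm
  have hbr' : bd (K := K) r' = lk v x := by rw [hr', map_add, bd_bd, add_zero, hbr]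
  refine ⟨co v r' + t, add_mem hco (Ch_mono (subset_insert _ _) ht), ?_⟩
  rw [map_add, bd_co v r' hr'v, hbr']
  have h1 := res_add_co v x
  calc r' + co v (lk v x) + bd (K := K) t
      = (res v x + co v (lk v x)) + (bd (K := K) t + bd (K := K) t) := by rw [hr']; abel
    _ = x := by rw [h1, add_self2 K (bd (K := K) t), add_zero]

/-- The complex of a simplex is exact in positive sizes. -/
theorem Ex_simplex [CharP K 2] {G : SimpleGraph V} {e : V → Module.End K N} (he : IsRep G e)
    (hB : Bal G e) (τ : Finset V) : ∀ ξ, Disjoint τ ξ → Cl G (τ ∪ ξ) → ∀ p,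
      Ex G e τ ξ (p + 1) := by
  induction τ using Finset.induction_on with
  | empty => intro ξ _ _ p; exact Ex_empty
  | insert v τ hv ih =>
    intro ξ hd hcl p
    rw [Finset.disjoint_insert_left] at hd
    apply COL he hB hv (by rwa [Finset.insert_union] at hcl) hd.1
    apply ih
    · rw [Finset.disjoint_insert_right]; exact ⟨hv, hd.2⟩
    · apply hcl.mono
      intro w hw
      simp only [Finset.mem_union, Finset.mem_insert] at hw ⊢
      tauto

end

end H162.CD
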