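import Pool.Agent.H162.CD.Class2

namespace H162.CD

open Finset Classical Module

noncomputable section

attribute [-instance] Subtype.instDecidableEq

variable {V : Type*} [Fintype V]
variable {K : Type*} [Field K]
variable {N : Type*} [AddCommGroup N] [Module K N]

/-- The graph obtained by merging `v` into `u`; the vertex `v` becomes isolated. -/
def ctr (G : SimpleGraph V) (u v : V) : SimpleGraph V where
  Adj x y := x ≠ y ∧ x ≠ v ∧ y ≠ v ∧ (G.Adj x y ∨ (x = u ∧ G.Adj v y) ∨ (y = u ∧ G.Adj v x))
  symm := ⟨by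
    rintro x y ⟨h1, h2, h3, h4⟩
    refine ⟨h1.symm, h3, h2, ?_⟩
    rcases h4 with h | h | h
    · exact Or.inl h.symm
    · exact Or.inr (Or.inr h)
    · exact Or.inr (Or.inl h)⟩
  loopless := ⟨by rintro x ⟨h, _⟩; exact h rfl⟩

lemma res_bd (v : V) (x : Finset V → N) :
    res v (bd (K := K) x) = bd (K := K) (res v x) + lk v x := by
  funext ρ
  by_cases hv : v ∈ ρ
  · rw [Pi.add_apply, res, if_pos hv, lk, if_pos hv, add_zero, bd_apply]
    symm
    apply Finset.sum_eq_zero
    intro w _
    simp [res, hv]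
  · rw [Pi.add_apply, res, if_neg hv, lk, if_neg hv, bd_apply, bd_apply]
    have : ∀ w, (if w ∈ ρ then 0 else x (insert w ρ)) =
        (if w ∈ ρ then 0 else res v x (insert w ρ)) + (if w = v then x (insert v ρ) else 0) := by
      intro w
      by_cases hw : w ∈ ρ
      · have : w ≠ v := by rintro rfl; exact hv hw
        simp [hw, this]
      · by_cases hwv : w = v
        · subst hwv
          simp [hw, res]
        · have : v ∉ insert w ρ := by
            rw [mem_insert]; push Not; exact ⟨fun h => hwv h.symm, hv⟩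
          simp [hw, hwv, res, this]
    rw [Finset.sum_congr rfl (fun w _ => this w), Finset.sum_add_distrib]
    simp

omit [Fintype V] in
lemma co_add (v : V) (x y : Finset V → N) : co v (x + y) = co v x + co v y := by
  funext σ
  simp only [co, Pi.add_apply]
  split_ifs <;> simp

omit [Fintype V] in
lemma co_res (v : V) (x : Finset V → N) : co v (res v x) = co v x := by
  funext σ
  simp only [co, res]
  split_ifs with h1 h2
  · exact absurd h2 (Finset.notMem_erase _ _)
  · rfl
  · rfl

/-- push forward of chains -/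
def Pf (u v : V) (x : Finset V → N) : Finset V → N := res v x + co u (lk v x)

lemma bd_Pf [CharP K 2] (u v : V) (x : Finset V → N) :
    bd (K := K) (Pf u v x) = Pf u v (bd (K := K) x) := by
  have h1 : bd (K := K) (co u (lk v x)) = lk v x + co u (bd (K := K) (lk v x)) := by
    rw [← co_res u (lk v x), bd_co u (res u (lk v x)) (fun ρ hρ => by simp [res, hρ])]
    have h2 : bd (K := K) (res u (lk v x)) = res u (bd (K := K) (lk v x)) + lk u (lk v x) := by
      rw [res_bd, add_assoc]
      have : lk u (lk v x) + lk u (lk v x) = 0 := add_self2 K _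
      rw [this, add_zero]
    rw [h2, co_add, co_res]
    have h3 := res_add_co u (lk v x)
    have : res u (lk v x) + (co u (bd (K := K) (lk v x)) + co u (lk u (lk v x))) =
      (res u (lk v x) + co u (lk u (lk v x))) + co u (bd (K := K) (lk v x)) := by abel
    rw [this, h3]
  rw [Pf, Pf, map_add, h1, res_bd, lk_bd]
  abel

/-- operators after identification of `v` with `u` -/
def eps (e : V → Module.End K N) (u v : V) : V → Module.End K N :=
  fun w => if w = v then e u else e w

omit [Fintype V] in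
lemma eps_v (e : V → Module.End K N) (u v : V) : eps e u v v = e u := by simp [eps]

omit [Fintype V] in
lemma eps_ne (e : V → Module.End K N) (u v : V) {w : V} (h : w ≠ v) : eps e u v w = e w := by
  simp [eps, h]

section contr

variable {G : SimpleGraph V} {u v : V} (huv : G.Adj u v)
  (hC : ∀ x y, G.Adj u x → ¬ G.Adj v x → x ≠ v → G.Adj v y → ¬ G.Adj u y → y ≠ u → ¬ G.Adj x y)

omit [Fintype V] in
lemma cl_ctr_of {σ : Finset V} (hv : v ∉ σ) (h : Cl G σ) : Cl (ctr G u v) σ := by
  intro a ha b hb hab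
  exact ⟨hab, by rintro rfl; exact hv ha, by rintro rfl; exact hv hb,
    Or.inl (h a ha b hb hab)⟩

include huv in
omit [Fintype V] in
lemma cl_ctr_of' {σ : Finset V} (hu : u ∈ σ) (hv : v ∉ σ) (h : Cl G (insert v (σ.erase u))) :
    Cl (ctr G u v) σ := by
  intro a ha b hb hab
  have ha' : a ≠ v := by rintro rfl; exact hv ha
  have hb' : b ≠ v := by rintro rfl; exact hv hb
  refine ⟨hab, ha', hb', ?_⟩
  by_cases hau : a = u
  · subst hau
    exact Or.inr (Or.inl ⟨rfl, h v (mem_insert_self _ _) b
      (mem_insert_of_mem (Finset.mem_erase.2 ⟨hab.symm, hb⟩)) hb'.symm⟩)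
  · by_cases hbu : b = u
    · subst hbu
      exact Or.inr (Or.inr ⟨rfl, h v (mem_insert_self _ _) a
        (mem_insert_of_mem (Finset.mem_erase.2 ⟨hab, ha⟩)) ha'.symm⟩)
    · exact Or.inl (h a (mem_insert_of_mem (Finset.mem_erase.2 ⟨hau, ha⟩)) b
        (mem_insert_of_mem (Finset.mem_erase.2 ⟨hbu, hb⟩)) hab)

include huv in
omit [Fintype V] in
lemma card_swap {σ : Finset V} (hu : u ∈ σ) (hv : v ∉ σ) :
    (insert v (σ.erase u)).card = σ.card := by
  rw [Finset.card_insert_of_notMem (fun h => hv (Finset.mem_of_mem_erase h)),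
    Finset.card_erase_add_one hu]

include huv hC in
omit [Fintype V] in
lemma cl_ctr_cases {σ : Finset V} (hu : u ∈ σ) (h : Cl (ctr G u v) σ) :
    Cl G σ ∨ Cl G (insert v (σ.erase u)) := by
  have hB : ∀ a ∈ σ.erase u, ∀ b ∈ σ.erase u, a ≠ b → G.Adj a b := by
    intro a ha b hb hab
    rw [Finset.mem_erase] at ha hb
    obtain ⟨_, _, _, h4⟩ := h a ha.2 b hb.2 hab
    rcases h4 with h4 | h4 | h4
    · exact h4
    · exact absurd h4.1 ha.1
    · exact absurd h4.1 hb.1
  have hN : ∀ b ∈ σ.erase u, b ≠ v ∧ (G.Adj u b ∨ G.Adj v b) := by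
    intro b hb
    rw [Finset.mem_erase] at hb
    obtain ⟨_, _, h3, h4⟩ := h u hu b hb.2 hb.1.symm
    refine ⟨h3, ?_⟩
    rcases h4 with h4 | h4 | h4
    · exact Or.inl h4
    · exact Or.inr h4.2
    · exact absurd h4.1 hb.1
  by_cases h1 : ∀ b ∈ σ.erase u, G.Adj u b
  · left
    have := Cl.insert (v := u) (σ := σ.erase u) hB h1
    rwa [Finset.insert_erase hu] at this
  · by_cases h2 : ∀ b ∈ σ.erase u, G.Adj v b
    · right
      exact Cl.insert (v := v) (σ := σ.erase u) hB h2
    · exfalso
      push Not at h1 h2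
      obtain ⟨y, hy, hy'⟩ := h1
      obtain ⟨x, hx, hx'⟩ := h2
      have hxu : G.Adj u x := (hN x hx).2.resolve_right hx'
      have hyv : G.Adj v y := (hN y hy).2.resolve_left hy'
      have hxy : x ≠ y := by rintro rfl; exact hy' hxu
      exact hC x y hxu hx' (hN x hx).1 hyv hy' (Finset.mem_erase.1 hy).1 (hB x hx y hy hxy)

include huv in
omit [Fintype V] in
lemma Pf_mem {e : V → Module.End K N} {i : ℕ} [Fintype V] {x : Finset V → N}
    (hx : x ∈ Ch G (eps e u v) univ ∅ i) : Pf u v x ∈ Ch (ctr G u v) e (univ.erase v) ∅ i := by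
  have hne : u ≠ v := huv.ne
  have hval : ∀ σ, v ∉ σ → Pf u v x σ = x σ + (if u ∈ σ then x (insert v (σ.erase u)) else 0) := by
    intro σ hv
    rw [Pf, Pi.add_apply, res, if_neg hv, co]
    split_ifs with hu
    · rw [lk, if_neg (fun h => hv (Finset.mem_of_mem_erase h))]
    · rfl
  have hval' : ∀ σ, v ∈ σ → Pf u v x σ = 0 := by
    intro σ hv
    rw [Pf, Pi.add_apply, res, if_pos hv, co]
    split_ifs with hu
    · rw [lk, if_pos (Finset.mem_erase.2 ⟨hne.symm, hv⟩), add_zero]
    · rw [add_zero]
  refine ⟨fun σ w hw => by simp at hw, fun σ w hw => ?_, fun σ hσ => ?_⟩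
  · by_cases hv : v ∈ σ
    · rw [hval' σ hv, map_zero]
    · rw [hval σ hv, map_add]
      have hwv : w ≠ v := by rintro rfl; exact hv hw
      have h1 : e w (x σ) = 0 := by
        have := hx.2.1 σ w hw
        rwa [eps_ne e u v hwv] at this
      rw [h1, zero_add]
      split_ifs with hu
      · by_cases hwu : w = u
        · subst hwu
          have := hx.2.1 (insert v (σ.erase w)) v (mem_insert_self _ _)
          rwa [eps_v] at this
        · have := hx.2.1 (insert v (σ.erase u)) w
            (mem_insert_of_mem (Finset.mem_erase.2 ⟨hwu, hw⟩))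
          rwa [eps_ne e u v hwv] at this
      · simp
  · have hv : v ∉ σ := fun h => hσ (hval' σ h)
    rw [hval σ hv] at hσ
    have hsub : σ ⊆ univ.erase v := by
      intro w hw
      exact Finset.mem_erase.2 ⟨by rintro rfl; exact hv hw, mem_univ _⟩
    by_cases h0 : x σ = 0
    · rw [h0, zero_add] at hσ
      split_ifs at hσ with hu
      · have := hx.2.2 _ hσ
        refine ⟨hsub, cl_ctr_of' huv hu hv this.2.1, ?_⟩
        rw [← this.2.2, card_swap huv hu hv]
      · exact absurd rfl hσ
    · have := hx.2.2 _ h0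
      exact ⟨hsub, cl_ctr_of hv this.2.1, this.2.2⟩

/-- lift of chains -/
def Lf (G : SimpleGraph V) (u v : V) (g : Finset V → N) : Finset V → N := fun σ =>
  if v ∈ σ then (if u ∉ σ ∧ Cl G σ ∧ ¬ Cl G (insert u (σ.erase v)) then
    g (insert u (σ.erase v)) else 0) else (if Cl G σ then g σ else 0)

include huv in
omit [Fintype V] in
lemma Lf_mem [Fintype V] {e : V → Module.End K N} {i : ℕ} {g : Finset V → N}
    (hg : g ∈ Ch (ctr G u v) e (univ.erase v) ∅ i) : Lf G u v g ∈ Ch G (eps e u v) univ ∅ i := by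
  have hne : u ≠ v := huv.ne
  refine ⟨fun σ w hw => by simp at hw, fun σ w hw => ?_, fun σ hσ => ?_⟩
  · rw [Lf]
    split_ifs with h1 h2 h3
    · by_cases hwv : w = v
      · subst hwv
        rw [eps_v]
        exact hg.2.1 _ u (mem_insert_self _ _)
      · rw [eps_ne e u v hwv]
        exact hg.2.1 _ w (mem_insert_of_mem (Finset.mem_erase.2 ⟨hwv, hw⟩))
    · simp
    · have hwv : w ≠ v := by rintro rfl; exact h1 hw
      rw [eps_ne e u v hwv]
      exact hg.2.1 _ w hw
    · simp
  · rw [Lf] at hσ
    split_ifs at hσ with h1 h2 h3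
    · have := hg.2.2 _ hσ
      refine ⟨Finset.subset_univ _, h2.2.1, ?_⟩
      rw [← this.2.2]
      exact (card_swap huv.symm h1 h2.1).symm
    · exact absurd rfl hσ
    · have := hg.2.2 _ hσ
      exact ⟨Finset.subset_univ _, h3, this.2.2⟩
    · exact absurd rfl hσ

include huv hC in
omit [Fintype V] in
lemma Pf_Lf [Fintype V] {e : V → Module.End K N} {i : ℕ} {g : Finset V → N}
    (hg : g ∈ Ch (ctr G u v) e (univ.erase v) ∅ i) : Pf u v (Lf G u v g) = g := by
  have hne : u ≠ v := huv.ne
  funext σ
  by_cases hv : v ∈ σ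
  · have h0 : g σ = 0 := by
      by_contra h
      have := (hg.2.2 σ h).1 hv
      exact Finset.notMem_erase v _ this
    rw [h0, Pf, Pi.add_apply, res, if_pos hv, co]
    split_ifs with hu
    · rw [lk, if_pos (Finset.mem_erase.2 ⟨hne.symm, hv⟩), add_zero]
    · rw [add_zero]
  · rw [Pf, Pi.add_apply, res, if_neg hv, co]
    have h1 : Lf G u v g σ = if Cl G σ then g σ else 0 := by rw [Lf, if_neg hv]
    rw [h1]
    by_cases hu : u ∈ σ
    · rw [if_pos hu, lk, if_neg (fun h => hv (Finset.mem_of_mem_erase h)), Lf,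
        if_pos (mem_insert_self _ _)]
      have h2 : insert u ((insert v (σ.erase u)).erase v) = σ := by
        rw [Finset.erase_insert (fun h => hv (Finset.mem_of_mem_erase h)), Finset.insert_erase hu]
      rw [h2]
      have h3 : u ∉ insert v (σ.erase u) := by
        rw [mem_insert]; push Not; exact ⟨hne, Finset.notMem_erase _ _⟩
      by_cases h0 : g σ = 0
      · rw [h0]; split_ifs <;> simp
      · rcases cl_ctr_cases huv hC hu (hg.2.2 σ h0).2.1 with h4 | h4
        · rw [if_pos h4, if_neg (by tauto), add_zero]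
        · by_cases h5 : Cl G σ
          · rw [if_pos h5, if_neg (by tauto), add_zero]
          · rw [if_neg h5, if_pos ⟨h3, h4, h5⟩, zero_add]
    · rw [if_neg hu, add_zero]
      by_cases h0 : g σ = 0
      · rw [h0]; split_ifs <;> rfl
      · have h4 : Cl G σ := by
          intro a ha b hb hab
          obtain ⟨_, _, _, h5⟩ := (hg.2.2 σ h0).2.1 a ha b hb hab
          rcases h5 with h5 | h5 | h5
          · exact h5
          · exact absurd (h5.1 ▸ ha) hu
          · exact absurd (h5.1 ▸ hb) hu
        rw [if_pos h4]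

include huv in
omit [Fintype V] in
lemma ker_Pf [CharP K 2] [Fintype V] {e : V → Module.End K N} {i : ℕ} {x : Finset V → N}
    (hx : x ∈ Ch G (eps e u v) univ ∅ i) (hb : bd (K := K) x = 0) (hP : Pf u v x = 0) :
    ∃ y ∈ Ch G (eps e u v) univ ∅ (i + 1), bd (K := K) y = x := by
  have hne : u ≠ v := huv.ne
  set κ : Finset V → N := lk u (res v x) with hκ
  have κu : ∀ ρ, u ∈ ρ → κ ρ = 0 := by
    intro ρ hρ; rw [hκ, lk, if_pos hρ]
  have κv : ∀ ρ, v ∈ ρ → κ ρ = 0 := by
    intro ρ hρ
    rw [hκ, lk]
    split_ifs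
    · rfl
    · rw [res, if_pos (mem_insert_of_mem hρ)]
  have hPσ : ∀ σ, res v x σ + co u (lk v x) σ = 0 := fun σ => congrFun hP σ
  have F1 : res v x = co u κ := by
    have h1 := res_add_co u (res v x)
    have h2 : res u (res v x) = 0 := by
      funext σ
      rw [res]
      split_ifs with hu
      · rfl
      · have := hPσ σ
        rw [co, if_neg hu, add_zero] at this
        exact this
    rw [h2, zero_add] at h1
    exact h1.symm
  have F2 : res u (lk v x) = κ := by
    funext ρ
    by_cases hu : u ∈ ρ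
    · rw [κu ρ hu, res, if_pos hu]
    · have e1 : lk u (res v x) ρ = res v x (insert u ρ) := by rw [lk, if_neg hu]
      rw [res, if_neg hu, hκ, e1]
      have h1 := hPσ (insert u ρ)
      rw [co, if_pos (mem_insert_self _ _), Finset.erase_insert hu] at h1
      have h2 : res v x (insert u ρ) + res v x (insert u ρ) = 0 := add_self2 K _
      have h3 : lk v x ρ = res v x (insert u ρ) := by
        have h4 : res v x (insert u ρ) + lk v x ρ =
          res v x (insert u ρ) + res v x (insert u ρ) := by rw [h1, h2]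
        exact add_left_cancel h4
      exact h3
  set μ : Finset V → N := lk u (lk v x) with hμ
  have μu : ∀ ρ, u ∈ ρ → μ ρ = 0 := by
    intro ρ hρ; rw [hμ, lk, if_pos hρ]
  have μv : ∀ ρ, v ∈ ρ → μ ρ = 0 := by
    intro ρ hρ
    rw [hμ, lk]
    split_ifs
    · rfl
    · rw [lk, if_pos (mem_insert_of_mem hρ)]
  have hxdec : x = co u κ + (co v κ + co v (co u μ)) := by
    have h1 := res_add_co v x
    have h2 := res_add_co u (lk v x)
    rw [F2] at h2
    rw [← co_add, h2, ← F1]
    exact h1.symm
  have hcoκv : ∀ ρ, v ∈ ρ → co u κ ρ = 0 := by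
    intro ρ hρ
    rw [co]
    split_ifs
    · exact κv _ (Finset.mem_erase.2 ⟨hne.symm, hρ⟩)
    · rfl
  have hbl : bd (K := K) (co v (co u κ)) = co u κ + (co v κ + co v (co u (bd (K := K) κ))) := by
    rw [bd_co v _ hcoκv, bd_co u κ κu, co_add]
  set ν : Finset V → N := μ + bd (K := K) κ with hν
  have bdκ_van : ∀ (w : V), (∀ ρ, w ∈ ρ → κ ρ = 0) → ∀ ρ, w ∈ ρ → bd (K := K) κ ρ = 0 := by
    intro w hw ρ hρ
    rw [bd_apply]
    apply Finset.sum_eq_zero
    intro a _
    split_ifs
    · rfl
    · exact hw _ (mem_insert_of_mem hρ)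
  have νu : ∀ ρ, u ∈ ρ → ν ρ = 0 := by
    intro ρ hρ; rw [hν, Pi.add_apply, μu ρ hρ, bdκ_van u κu ρ hρ, add_zero]
  have νv : ∀ ρ, v ∈ ρ → ν ρ = 0 := by
    intro ρ hρ; rw [hν, Pi.add_apply, μv ρ hρ, bdκ_van v κv ρ hρ, add_zero]
  have hsum : x + bd (K := K) (co v (co u κ)) = co v (co u ν) := by
    rw [hbl, hν, co_add, co_add]
    have a1 : co u κ + co u κ = 0 := add_self2 K _
    have a2 : co v κ + co v κ = 0 := add_self2 K _
    calc x + (co u κ + (co v κ + co v (co u (bd (K := K) κ))))
        = co u κ + (co v κ + co v (co u μ)) +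
          (co u κ + (co v κ + co v (co u (bd (K := K) κ)))) := by rw [← hxdec]
      _ = (co u κ + co u κ) + (co v κ + co v κ) +
          (co v (co u μ) + co v (co u (bd (K := K) κ))) := by abel
      _ = _ := by rw [a1, a2, zero_add, zero_add]
  have hcyc : bd (K := K) (co v (co u ν)) = 0 := by
    rw [← hsum, map_add, hb, bd_bd, add_zero]
  have hcoνv : ∀ ρ, v ∈ ρ → co u ν ρ = 0 := by
    intro ρ hρ
    rw [co]
    split_ifs
    · exact νv _ (Finset.mem_erase.2 ⟨hne.symm, hρ⟩)
    · rfl
  have hν0 : ν = 0 := by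
    funext ρ
    by_cases hu : u ∈ ρ
    · exact νu ρ hu
    · by_cases hv : v ∈ ρ
      · exact νv ρ hv
      · rw [bd_co v _ hcoνv, bd_co u ν νu] at hcyc
        have h1 := congrFun hcyc (insert u ρ)
        have hv' : v ∉ insert u ρ := by
          rw [mem_insert]; push Not; exact ⟨hne.symm, hv⟩
        rw [Pi.add_apply] at h1
        have h2 : co u ν (insert u ρ) = ν ρ := by
          rw [co, if_pos (mem_insert_self _ _), Finset.erase_insert hu]
        have h3 : co v (ν + co u (bd (K := K) ν)) (insert u ρ) = 0 := by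
          rw [co, if_neg hv']
        rw [h2, h3, add_zero] at h1
        exact h1
  refine ⟨co v (co u κ), ?_, ?_⟩
  · have hval : ∀ σ, co v (co u κ) σ = if v ∈ σ ∧ u ∈ σ then x (σ.erase v) else 0 := by
      intro σ
      rw [co]
      by_cases hv : v ∈ σ
      · rw [if_pos hv, co]
        by_cases hu : u ∈ σ
        · rw [if_pos (Finset.mem_erase.2 ⟨hne, hu⟩), if_pos ⟨hv, hu⟩, hκ, lk,
            if_neg (Finset.notMem_erase _ _), Finset.insert_erase (Finset.mem_erase.2 ⟨hne, hu⟩),
            res, if_neg (Finset.notMem_erase _ _)]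
        · rw [if_neg (fun h => hu (Finset.mem_of_mem_erase h)), if_neg (fun h => hu h.2)]
      · rw [if_neg hv, if_neg (fun h => hv h.1)]
    have hval2 : ∀ σ : Finset V, v ∈ σ → u ∈ σ → x (σ.erase v) = x (σ.erase u) := by
      intro σ hv hu
      have h1 := congrFun F2 ((σ.erase u).erase v)
      have hu1 : u ∉ (σ.erase u).erase v := fun h => Finset.notMem_erase u σ
        (Finset.mem_of_mem_erase h)
      rw [res, if_neg hu1, lk, if_neg (Finset.notMem_erase _ _),
        Finset.insert_erase (Finset.mem_erase.2 ⟨hne.symm, hv⟩), hκ, lk, if_neg hu1,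
        Finset.erase_right_comm, Finset.insert_erase (Finset.mem_erase.2 ⟨hne, hu⟩), res,
        if_neg (Finset.notMem_erase _ _)] at h1
      exact h1.symm
    refine ⟨fun σ w hw => by simp at hw, fun σ w hw => ?_, fun σ hσ => ?_⟩
    · rw [hval]
      split_ifs with h
      · by_cases hwv : w = v
        · subst hwv
          rw [eps_v]
          have := hx.2.1 (σ.erase w) u (Finset.mem_erase.2 ⟨hne, h.2⟩)
          rwa [eps_ne e u w hne] at this
        · exact hx.2.1 (σ.erase v) w (Finset.mem_erase.2 ⟨hwv, hw⟩)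
      · simp
    · rw [hval] at hσ
      split_ifs at hσ with h
      · have h1 := hx.2.2 _ hσ
        have h2 := hx.2.2 (σ.erase u) (by rw [← hval2 σ h.1 h.2]; exact hσ)
        refine ⟨Finset.subset_univ _, ?_, ?_⟩
        · intro a ha b hb hab
          by_cases hav : a = v
          · by_cases hbu : b = u
            · rw [hav, hbu]; exact huv.symm
            · have hau : a ≠ u := by rw [hav]; exact hne.symm
              exact h2.2.1 a (Finset.mem_erase.2 ⟨hau, ha⟩) b (Finset.mem_erase.2 ⟨hbu, hb⟩) hab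
          · by_cases hbv : b = v
            · by_cases hau : a = u
              · rw [hbv, hau]; exact huv
              · have hbu : b ≠ u := by rw [hbv]; exact hne.symm
                exact h2.2.1 a (Finset.mem_erase.2 ⟨hau, ha⟩) b (Finset.mem_erase.2 ⟨hbu, hb⟩) hab
            · exact h1.2.1 a (Finset.mem_erase.2 ⟨hav, ha⟩) b (Finset.mem_erase.2 ⟨hbv, hb⟩) hab
        · rw [← h1.2.2, Finset.card_erase_add_one h.1]
      · exact absurd rfl hσ
  · rw [hν0] at hsum
    have h1 : co v (co u (0 : Finset V → N)) = 0 := by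
      funext σ
      simp [co]
    rw [h1] at hsum
    have h2 : x + x = 0 := add_self2 K _
    have h3 : x + bd (K := K) (co v (co u κ)) = x + x := by rw [hsum, h2]
    exact add_left_cancel h3

include huv hC in
omit [Fintype V] in
/-- the first exactness statement -/
theorem C1 [CharP K 2] [Fintype V] {e : V → Module.End K N} {i : ℕ}
    (h : Ex (ctr G u v) e (univ.erase v) ∅ i) : Ex G (eps e u v) univ ∅ i := by
  intro x hx hbx
  obtain ⟨g, hg, hbg⟩ := h _ (Pf_mem huv hx) (by
    rw [bd_Pf, hbx]
    funext σ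
    simp [Pf, res, co, lk])
  have hL := Lf_mem huv hg
  have hx' : x + bd (K := K) (Lf G u v g) ∈ Ch G (eps e u v) univ ∅ i := add_mem hx (bd_mem hL)
  have hPadd : ∀ a b : Finset V → N, Pf u v (a + b) = Pf u v a + Pf u v b := by
    intro a b
    have h1 : res v (a + b) = res v a + res v b := by
      funext σ; simp only [res, Pi.add_apply]; split_ifs <;> simp
    rw [Pf, Pf, Pf, lk_add, co_add, h1]
    abel
  have hP : Pf u v (x + bd (K := K) (Lf G u v g)) = 0 := by
    rw [hPadd, ← bd_Pf, Pf_Lf huv hC hg, hbg]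
    exact add_self2 K _
  obtain ⟨y, hy, hby⟩ := ker_Pf huv hx' (by rw [map_add, hbx, bd_bd, add_zero]) hP
  refine ⟨y + Lf G u v g, add_mem hy hL, ?_⟩
  rw [map_add, hby, add_assoc]
  have : bd (K := K) (Lf G u v g) + bd (K := K) (Lf G u v g) = 0 := add_self2 K _
  rw [this, add_zero]

end contr

end

end H162.CD
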