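import Pool.Agent.H162.CD.Contract

namespace H162.CD

open Finset Classical Module

noncomputable section

attribute [-instance] Subtype.instDecidableEq

variable {V : Type*} [Fintype V]
variable {K : Type*} [Field K]
variable {M : Type*} [AddCommGroup M] [Module K M]

/-- the family on `M × M` -/
def dbl (e : V → Module.End K M) (u v : V) : V → Module.End K (M × M) := fun w =>
  LinearMap.prod ((eps e u v w) ∘ₗ (LinearMap.fst K M M))
    ((eps e u v w) ∘ₗ (LinearMap.snd K M M) + (if w = u then LinearMap.fst K M M else 0))

omit [Fintype V] in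
lemma dbl_u (e : V → Module.End K M) (u v : V) (huv : u ≠ v) (p : M × M) :
    dbl e u v u p = (e u p.1, e u p.2 + p.1) := by
  have : ¬ (u = v) := huv
  simp [dbl, eps, this]

omit [Fintype V] in
lemma dbl_ne (e : V → Module.End K M) (u v : V) {w : V} (h : w ≠ u) (p : M × M) :
    dbl e u v w p = (eps e u v w p.1, eps e u v w p.2) := by
  simp [dbl, h]

section

variable {G : SimpleGraph V} {u v : V} (huv : G.Adj u v)

include huv in
omit [Fintype V] in
lemma eps_rep {e : V → Module.End K M} (h : IsRep (ctr G u v) e) : IsRep G (eps e u v) := by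
  have hne := huv.ne
  refine ⟨fun w x => ?_, fun w w' hw x => ?_⟩
  · by_cases hwv : w = v
    · subst hwv; rw [eps_v]; exact h.sq _ _
    · rw [eps_ne e u v hwv]; exact h.sq _ _
  · have hww : w ≠ w' := hw.ne
    by_cases hwv : w = v
    · subst hwv
      rw [eps_v, eps_ne e u w hww.symm]
      by_cases hu : w' = u
      · subst hu; rfl
      · exact h.comm _ _ ⟨fun h => hu h.symm, hne, hww.symm, Or.inr (Or.inl ⟨rfl, hw⟩)⟩ x
    · by_cases hwv' : w' = v
      · subst hwv'
        rw [eps_v, eps_ne e u w' hww]
        by_cases hu : w = u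
        · subst hu; rfl
        · exact h.comm _ _ ⟨hu, hww, hne, Or.inr (Or.inr ⟨rfl, hw.symm⟩)⟩ x
      · rw [eps_ne e u v hwv, eps_ne e u v hwv']
        exact h.comm _ _ ⟨hww, hwv, hwv', Or.inl hw⟩ x

include huv in
omit [Fintype V] in
lemma dbl_rep [CharP K 2] {e : V → Module.End K M} (h : IsRep (ctr G u v) e) :
    IsRep G (dbl e u v) := by
  have hne := huv.ne
  have hE := eps_rep huv h
  have hval : ∀ w (p : M × M), dbl e u v w p =
      (eps e u v w p.1, eps e u v w p.2 + if w = u then p.1 else 0) := by
    intro w p
    by_cases hw : w = u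
    · simp [dbl, hw]
    · simp [dbl, hw]
  refine ⟨fun w p => ?_, fun w w' hw p => ?_⟩
  · rw [hval, hval]
    refine Prod.ext (hE.sq w _) ?_
    simp only [map_add, hE.sq]
    split_ifs
    · rw [zero_add]; exact add_self2 K _
    · simp
  · rw [hval, hval, hval, hval]
    refine Prod.ext (hE.comm w w' hw _) ?_
    simp only [map_add]
    rw [hE.comm w w' hw]
    by_cases h1 : w = u
    · have h2 : ¬ (w' = u) := by rintro rfl; exact hw.ne h1
      simp [h1, h2]
    · by_cases h2 : w' = u
      · simp [h1, h2]
      · simp [h1, h2]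

include huv in
omit [Fintype V] in
lemma dbl_bal [CharP K 2] [FiniteDimensional K M] {e : V → Module.End K M}
    (h : IsRep (ctr G u v) e) (hB : Bal (ctr G u v) e) : Bal G (dbl e u v) := by
  have hne := huv.ne
  apply bal_of_finrank (dbl_rep huv h)
  intro σ hσ
  rw [Module.finrank_prod]
  by_cases hu : u ∈ σ
  · by_cases hv : v ∈ σ
    · -- both
      have hρ : Cl (ctr G u v) (σ.erase v) :=
        cl_ctr_of (Finset.notMem_erase _ _) (hσ.mono (Finset.erase_subset _ _))
      have hd := finrank_SS_eq h hB _ hρ
      let φ : SS (dbl e u v) σ ≃ₗ[K] SS e (σ.erase v) :=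
        { toFun := fun p => ⟨p.1.2, by
            intro w hw
            rw [Finset.mem_erase] at hw
            by_cases hwu : w = u
            · subst hwu
              have := p.2 v hv
              rw [dbl_ne e w v hw.1.symm, eps_v] at this
              exact congrArg Prod.snd this
            · have := p.2 w hw.2
              rw [dbl_ne e u v hwu, eps_ne e u v hw.1] at this
              exact congrArg Prod.snd this⟩
          map_add' := fun _ _ => rfl
          map_smul' := fun _ _ => rfl
          invFun := fun b => ⟨(0, b.1), by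
            intro w hw
            by_cases hwu : w = u
            · subst hwu
              rw [dbl_u e w v hne]
              have := b.2 w (Finset.mem_erase.2 ⟨hne, hu⟩)
              simp [this]
            · rw [dbl_ne e u v hwu]
              by_cases hwv : w = v
              · subst hwv
                rw [eps_v]
                have := b.2 u (Finset.mem_erase.2 ⟨hne, hu⟩)
                simp [this]
              · rw [eps_ne e u v hwv]
                have := b.2 w (Finset.mem_erase.2 ⟨hwv, hw⟩)
                simp [this]⟩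
          left_inv := fun p => by
            apply Subtype.ext
            refine Prod.ext ?_ rfl
            have h1 := p.2 v hv
            rw [dbl_ne e u v hne.symm, eps_v] at h1
            have h2 := congrArg Prod.snd h1
            have h3 := p.2 u hu
            rw [dbl_u e u v hne] at h3
            have h4 := congrArg Prod.snd h3
            dsimp only at h2 h4
            rw [h2] at h4
            simpa using h4.symm
          right_inv := fun b => rfl }
      rw [φ.finrank_eq]
      have hc := Finset.card_erase_add_one hv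
      rw [← hc, pow_succ, mul_assoc, mul_comm 2 (finrank K _), ← mul_assoc, ← hd]
      omega
    · have hρ : Cl (ctr G u v) σ := cl_ctr_of hv hσ
      have hρ' : Cl (ctr G u v) (σ.erase u) := hρ.mono (Finset.erase_subset _ _)
      have hd := finrank_SS_eq h hB _ hρ'
      let φ : SS (dbl e u v) σ ≃ₗ[K] SS e (σ.erase u) :=
        { toFun := fun p => ⟨p.1.2, by
            intro w hw
            rw [Finset.mem_erase] at hw
            have hwv : w ≠ v := by rintro rfl; exact hv hw.2
            have := p.2 w hw.2
            rw [dbl_ne e u v hw.1, eps_ne e u v hwv] at this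
            exact congrArg Prod.snd this⟩
          map_add' := fun _ _ => rfl
          map_smul' := fun _ _ => rfl
          invFun := fun b => ⟨(e u b.1, b.1), by
            intro w hw
            by_cases hwu : w = u
            · subst hwu
              rw [dbl_u e w v hne]
              refine Prod.ext (h.sq _ _) ?_
              exact add_self2 K _
            · have hwv : w ≠ v := by rintro rfl; exact hv hw
              rw [dbl_ne e u v hwu, eps_ne e u v hwv]
              have h1 := b.2 w (Finset.mem_erase.2 ⟨hwu, hw⟩)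
              refine Prod.ext ?_ h1
              dsimp only
              rw [h.comm w u (hρ w hw u hu hwu), h1, map_zero]
              rfl⟩
          left_inv := fun p => by
            apply Subtype.ext
            refine Prod.ext ?_ rfl
            have h3 := p.2 u hu
            rw [dbl_u e u v hne] at h3
            have h4 := congrArg Prod.snd h3
            dsimp only at h4 ⊢
            have h5 : e u p.1.2 + p.1.1 = p.1.1 + p.1.1 := by
              rw [add_self2 K]; exact h4
            exact add_right_cancel h5
          right_inv := fun b => rfl }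
      rw [φ.finrank_eq]
      have hc := Finset.card_erase_add_one hu
      rw [← hc, pow_succ, mul_assoc, mul_comm 2 (finrank K _), ← mul_assoc, ← hd]
      omega
  · let φ : SS (dbl e u v) σ ≃ₗ[K] SS (eps e u v) σ × SS (eps e u v) σ :=
      { toFun := fun p => (⟨p.1.1, by
            intro w hw
            have hwu : w ≠ u := by rintro rfl; exact hu hw
            have := p.2 w hw
            rw [dbl_ne e u v hwu] at this
            exact congrArg Prod.fst this⟩, ⟨p.1.2, by
            intro w hw
            have hwu : w ≠ u := by rintro rfl; exact hu hw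
            have := p.2 w hw
            rw [dbl_ne e u v hwu] at this
            exact congrArg Prod.snd this⟩)
        map_add' := fun _ _ => rfl
        map_smul' := fun _ _ => rfl
        invFun := fun b => ⟨(b.1.1, b.2.1), by
          intro w hw
          have hwu : w ≠ u := by rintro rfl; exact hu hw
          rw [dbl_ne e u v hwu]
          exact Prod.ext (b.1.2 w hw) (b.2.2 w hw)⟩
        left_inv := fun p => rfl
        right_inv := fun b => rfl }
    rw [φ.finrank_eq, Module.finrank_prod]
    have key : finrank K M = 2 ^ σ.card * finrank K (SS (eps e u v) σ) := by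
      by_cases hv : v ∈ σ
      · have hcl : Cl (ctr G u v) (insert u (σ.erase v)) := by
          have hu' : u ∈ insert u (σ.erase v) := mem_insert_self _ _
          have hv' : v ∉ insert u (σ.erase v) := by
            rw [mem_insert]; push Not; exact ⟨hne.symm, Finset.notMem_erase _ _⟩
          apply cl_ctr_of' huv hu' hv'
          rw [Finset.erase_insert (fun h => hu (Finset.mem_of_mem_erase h)),
            Finset.insert_erase hv]
          exact hσ
        have h1 : SS (eps e u v) σ = SS e (insert u (σ.erase v)) := by
          ext x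
          rw [mem_SS, mem_SS]
          constructor
          · intro h2 w hw
            rw [mem_insert] at hw
            rcases hw with rfl | hw
            · have := h2 v hv
              rwa [eps_v] at this
            · have := h2 w (Finset.mem_of_mem_erase hw)
              rwa [eps_ne e u v (Finset.mem_erase.1 hw).1] at this
          · intro h2 w hw
            by_cases hwv : w = v
            · subst hwv; rw [eps_v]; exact h2 u (mem_insert_self _ _)
            · rw [eps_ne e u v hwv]
              exact h2 w (mem_insert_of_mem (Finset.mem_erase.2 ⟨hwv, hw⟩))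
        rw [h1, finrank_SS_eq h hB _ hcl]
        congr 2
        exact card_swap huv.symm hv hu
      · have h1 : SS (eps e u v) σ = SS e σ := by
          ext x
          rw [mem_SS, mem_SS]
          refine forall₂_congr (fun w hw => ?_)
          rw [eps_ne e u v (by rintro rfl; exact hv hw)]
        rw [h1]
        exact finrank_SS_eq h hB _ (cl_ctr_of hv hσ)
    rw [mul_add, ← key]

include huv in
omit [Fintype V] in
theorem dbl_Ex [CharP K 2] [Fintype V] {e : V → Module.End K M}
    (hB : Bal (ctr G u v) e) {i : ℕ}
    (h1 : Ex G (eps e u v) univ ∅ i)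
    (h2 : Ex (G.deleteEdges {s(u, v)}) (eps e u v) univ ∅ i) :
    Ex G (dbl e u v) univ ∅ i := by
  have hne := huv.ne
  intro x hx hbx
  have ha : (fun σ => (x σ).1) ∈ Ch (G.deleteEdges {s(u, v)}) (eps e u v) univ ∅ i := by
    refine ⟨fun σ w hw => by simp at hw, fun σ w hw => ?_, fun σ hσ => ?_⟩
    · have h3 := hx.2.1 σ w hw
      by_cases hwu : w = u
      · subst hwu
        rw [dbl_u e w v hne] at h3
        rw [eps_ne e w v hne]
        exact congrArg Prod.fst h3
      · rw [dbl_ne e u v hwu] at h3
        exact congrArg Prod.fst h3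
    · have hxσ : x σ ≠ 0 := by
        intro h0; apply hσ; dsimp only; rw [h0]; rfl
      have h3 := hx.2.2 σ hxσ
      refine ⟨h3.1, (cl_del hne).2 ⟨h3.2.1, ?_⟩, h3.2.2⟩
      rintro ⟨hu, hv⟩
      apply hσ
      have h4 := hx.2.1 σ v hv
      rw [dbl_ne e u v hne.symm, eps_v] at h4
      have h5 : e u (x σ).2 = 0 := congrArg Prod.snd h4
      have h6 := hx.2.1 σ u hu
      rw [dbl_u e u v hne] at h6
      have h7 : e u (x σ).2 + (x σ).1 = 0 := congrArg Prod.snd h6
      rw [h5, zero_add] at h7
      exact h7
  have hba : bd (K := K) (fun σ => (x σ).1) = 0 := by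
    funext ρ
    have h3 := congrArg Prod.fst (congrFun hbx ρ)
    rw [bd_apply] at h3 ⊢
    rw [Prod.fst_sum] at h3
    refine Eq.trans ?_ h3
    refine Finset.sum_congr rfl (fun w _ => ?_)
    split_ifs <;> rfl
  obtain ⟨a, ham, hab⟩ := h2 _ ha hba
  have key : ∀ σ, ∃ y, (∀ w ∈ σ, w ≠ u → eps e u v w y = 0) ∧ (u ∈ σ → e u y = a σ) ∧
      (a σ = 0 → y = 0) := by
    intro σ
    by_cases h0 : a σ = 0
    · exact ⟨0, fun w _ _ => by simp, fun _ => by rw [h0, map_zero], fun _ => rfl⟩
    · by_cases hu : u ∈ σ
      · have h3 := ham.2.2 σ h0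
        have h4 := (cl_del hne).1 h3.2.1
        have hv : v ∉ σ := fun hv => h4.2 ⟨hu, hv⟩
        have hcl : Cl (ctr G u v) (insert u (σ.erase u)) := by
          rw [Finset.insert_erase hu]
          exact cl_ctr_of hv h4.1
        have hee : ∀ w ∈ σ, e w (a σ) = 0 := by
          intro w hw
          have := ham.2.1 σ w hw
          rwa [eps_ne e u v (by rintro rfl; exact hv hw)] at this
        obtain ⟨y, hy, hyx⟩ := hB (σ.erase u) u (Finset.notMem_erase _ _) hcl (a σ)
          (fun w hw => hee w (Finset.mem_of_mem_erase hw)) (hee u hu)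
        refine ⟨y, fun w hw hwu => ?_, fun _ => hyx, fun h => absurd h h0⟩
        rw [eps_ne e u v (by rintro rfl; exact hv hw)]
        exact hy w (Finset.mem_erase.2 ⟨hwu, hw⟩)
      · exact ⟨0, fun w _ _ => by simp, fun h => absurd h hu, fun _ => rfl⟩
  choose β hβ1 hβ2 hβ3 using key
  let X : Finset V → M × M := fun σ => (a σ, β σ)
  have hX : X ∈ Ch G (dbl e u v) univ ∅ (i + 1) := by
    refine ⟨fun σ w hw => by simp at hw, fun σ w hw => ?_, fun σ hσ => ?_⟩
    · by_cases hwu : w = u
      · subst hwu
        rw [dbl_u e w v hne]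
        have h3 := ham.2.1 σ w hw
        rw [eps_ne e w v hne] at h3
        refine Prod.ext h3 ?_
        show e w (β σ) + a σ = 0
        rw [hβ2 σ hw]
        exact add_self2 K _
      · rw [dbl_ne e u v hwu]
        exact Prod.ext (ham.2.1 σ w hw) (hβ1 σ w hw hwu)
    · have h3 : a σ ≠ 0 := by
        intro h0
        apply hσ
        exact Prod.ext h0 (hβ3 σ h0)
      have h4 := ham.2.2 σ h3
      exact ⟨h4.1, ((cl_del hne).1 h4.2.1).1, h4.2.2⟩
  have hx2 : x + bd (K := K) X ∈ Ch G (dbl e u v) univ ∅ i := add_mem hx (bd_mem hX)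
  have hfst : ∀ σ, ((x + bd (K := K) X) σ).1 = 0 := by
    intro σ
    have h3 : (bd (K := K) X σ).1 = bd (K := K) a σ := by
      rw [bd_apply, bd_apply, Prod.fst_sum]
      refine Finset.sum_congr rfl (fun w _ => ?_)
      split_ifs <;> rfl
    rw [Pi.add_apply, Prod.fst_add, h3, hab]
    exact add_self2 K _
  have hb2 : bd (K := K) (x + bd (K := K) X) = 0 := by rw [map_add, hbx, bd_bd, add_zero]
  have hbm : (fun σ => ((x + bd (K := K) X) σ).2) ∈ Ch G (eps e u v) univ ∅ i := by
    refine ⟨fun σ w hw => by simp at hw, fun σ w hw => ?_, fun σ hσ => ?_⟩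
    · have h3 := hx2.2.1 σ w hw
      by_cases hwu : w = u
      · subst hwu
        rw [dbl_u e w v hne, hfst] at h3
        rw [eps_ne e w v hne]
        have := congrArg Prod.snd h3
        simpa using this
      · rw [dbl_ne e u v hwu] at h3
        exact congrArg Prod.snd h3
    · exact hx2.2.2 σ (by intro h0; apply hσ; dsimp only; rw [h0]; rfl)
  have hbb : bd (K := K) (fun σ => ((x + bd (K := K) X) σ).2) = 0 := by
    funext ρ
    have h3 := congrArg Prod.snd (congrFun hb2 ρ)
    rw [bd_apply] at h3 ⊢
    rw [Prod.snd_sum] at h3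
    refine Eq.trans ?_ h3
    refine Finset.sum_congr rfl (fun w _ => ?_)
    split_ifs <;> rfl
  obtain ⟨d, hd, hdb⟩ := h1 _ hbm hbb
  let Y : Finset V → M × M := fun σ => (0, d σ)
  have hY : Y ∈ Ch G (dbl e u v) univ ∅ (i + 1) := by
    refine ⟨fun σ w hw => by simp at hw, fun σ w hw => ?_, fun σ hσ => ?_⟩
    · have h3 := hd.2.1 σ w hw
      by_cases hwu : w = u
      · subst hwu
        rw [eps_ne e w v hne] at h3
        rw [dbl_u e w v hne]
        simp [Y, h3]
      · rw [dbl_ne e u v hwu]
        simp [Y, h3]
    · exact hd.2.2 σ (by intro h0; apply hσ; simp [Y, h0])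
  refine ⟨X + Y, add_mem hX hY, ?_⟩
  have hbY : bd (K := K) Y = x + bd (K := K) X := by
    funext ρ
    refine Prod.ext ?_ ?_
    · rw [hfst, bd_apply, Prod.fst_sum]
      apply Finset.sum_eq_zero
      intro w _
      split_ifs <;> rfl
    · have h3 := congrFun hdb ρ
      rw [← h3, bd_apply, bd_apply, Prod.snd_sum]
      refine Finset.sum_congr rfl (fun w _ => ?_)
      split_ifs <;> rfl
  rw [map_add, hbY, ← add_assoc, add_comm (bd (K := K) X) x, add_assoc]
  have : bd (K := K) X + bd (K := K) X = 0 := add_self2 K _
  rw [this, add_zero]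

include huv in
/-- If the contraction of the edge `uv` (lying in no induced 4-cycle) and the link of the edge are
acyclic for some balanced family, then so is `G`. -/
theorem TA_contract [CharP K 2] [Infinite K]
    (hC : ∀ x y, G.Adj u x → ¬ G.Adj v x → x ≠ v → G.Adj v y → ¬ G.Adj u y → y ≠ u →
      ¬ G.Adj x y)
    (h1 : TA K (GI (ctr G u v) (univ.erase v)))
    (h2 : TA K (GI G (nb G (nb G univ u) v))) : TA K G := by
  have hne := huv.ne
  set A := nb G (nb G univ u) v with hA
  have hAmem : ∀ a, a ∈ A ↔ G.Adj u a ∧ G.Adj v a := by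
    intro a; rw [hA, mem_nb, mem_nb]; simp
  have hAu : u ∉ A := by rw [hAmem]; exact fun h => G.loopless.irrefl _ h.1
  have hAv : v ∉ A := by rw [hAmem]; exact fun h => G.loopless.irrefl _ h.2
  have hadj : ∀ x ∈ A, ∀ y ∈ A, (ctr G u v).Adj x y ↔ G.Adj x y := by
    intro x hx y hy
    constructor
    · rintro ⟨_, _, _, h | h | h⟩
      · exact h
      · exact absurd (h.1 ▸ hx) hAu
      · exact absurd (h.1 ▸ hy) hAu
    · intro h
      exact ⟨h.ne, by rintro rfl; exact hAv hx, by rintro rfl; exact hAv hy, Or.inl h⟩
  have hGI : GI (ctr G u v) A = GI G A := by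
    ext x y
    rw [GI_adj, GI_adj]
    exact hadj _ x.2 _ y.2
  obtain ⟨n, hn, e, a1, a2, a3⟩ := common (K := K) (ctr G u v)
    {(univ.erase v, ∅), (A, {u})} (by
      intro p hp
      rw [Finset.mem_insert, Finset.mem_singleton] at hp
      rcases hp with rfl | rfl
      · exact ⟨cl_empty _, by rw [Lk_empty]; exact Finset.subset_univ _, h1⟩
      · refine ⟨cl_singleton _ u, ?_, by rw [hGI]; exact h2⟩
        intro a ha
        rw [mem_Lk]
        intro t ht
        rw [Finset.mem_singleton] at ht
        subst ht
        have := (hAmem a).1 ha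
        exact ⟨this.1.ne.symm, this.2.ne.symm, hne, Or.inl this.1.symm⟩)
  have b1 : ∀ i, Ex (ctr G u v) e (univ.erase v) ∅ i := a3 (univ.erase v, ∅) (by simp)
  have b2 : ∀ i, Ex (ctr G u v) e A {u} i := a3 (A, {u}) (by simp)
  have hCh : ∀ i, Ch G (eps e u v) A {v, u} i = Ch (ctr G u v) e A {u} i := by
    intro i
    ext x
    have hcl : ∀ σ : Finset V, σ ⊆ A → (Cl G σ ↔ Cl (ctr G u v) σ) := by
      intro σ hσ
      constructor
      · intro h a ha b hb hab
        exact (hadj a (hσ ha) b (hσ hb)).2 (h a ha b hb hab)
      · intro h a ha b hb hab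
        exact (hadj a (hσ ha) b (hσ hb)).1 (h a ha b hb hab)
    constructor
    · rintro ⟨c1, c2, c3⟩
      refine ⟨fun σ w hw => ?_, fun σ w hw => ?_, fun σ hσ => ?_⟩
      · rw [Finset.mem_singleton] at hw
        subst hw
        have := c1 σ v (by simp)
        rwa [eps_v] at this
      · by_cases h0 : x σ = 0
        · rw [h0, map_zero]
        · have := c2 σ w hw
          rwa [eps_ne e u v (by rintro rfl; exact hAv ((c3 σ h0).1 hw))] at this
      · have := c3 σ hσ
        exact ⟨this.1, (hcl σ this.1).1 this.2.1, this.2.2⟩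
    · rintro ⟨c1, c2, c3⟩
      have hu0 : ∀ σ, e u (x σ) = 0 := fun σ => c1 σ u (by simp)
      refine ⟨fun σ w hw => ?_, fun σ w hw => ?_, fun σ hσ => ?_⟩
      · rw [mem_insert, Finset.mem_singleton] at hw
        rcases hw with rfl | rfl
        · rw [eps_v]; exact hu0 σ
        · rw [eps_ne e _ v hne]; exact hu0 σ
      · by_cases h0 : x σ = 0
        · rw [h0, map_zero]
        · rw [eps_ne e u v (by rintro rfl; exact hAv ((c3 σ h0).1 hw))]
          exact c2 σ w hw
      · have := c3 σ hσ
        exact ⟨this.1, (hcl σ this.1).2 this.2.1, this.2.2⟩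
  have b3 : ∀ i, Ex G (eps e u v) A {v, u} i := by
    intro i
    unfold Ex
    rw [hCh, hCh]
    exact b2 i
  have b4 : ∀ i, Ex G (eps e u v) univ ∅ i := fun i => C1 huv hC (b1 i)
  have b5 : ∀ i, Ex (G.deleteEdges {s(u, v)}) (eps e u v) univ ∅ i := by
    intro i
    cases i with
    | zero => exact ED_zero huv (b4 0)
    | succ i => exact ED huv (b4 (i + 1)) (b3 i)
  have : Nonempty (Fin n) := ⟨⟨0, hn⟩⟩
  obtain ⟨m, hm, E, d1, d2, d3⟩ := toFin (dbl_rep huv a1) (dbl_bal huv a1 a2)
  exact ⟨m, hm, E, d1, d2, fun i => d3 _ _ _ (dbl_Ex huv a2 (b4 i) (b5 i))⟩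

end

end

end H162.CD
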