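import Pool.Agent.H162.CD.PD

namespace H162.CD

open Finset Classical Module

noncomputable section

attribute [-instance] Subtype.instDecidableEq

variable {V : Type*} [Fintype V]
variable {K : Type*} [Field K] [CharP K 2]
variable {N : Type*} [AddCommGroup N] [Module K N]

/-- sum of the kernels -/
def QQ (e : V → Module.End K N) (τ : Finset V) : Submodule K N := ⨆ v ∈ τ, LinearMap.ker (e v)

omit [Fintype V] [CharP K 2] in
lemma mem_QQ {e : V → Module.End K N} {τ : Finset V} {a : N} :
    a ∈ QQ e τ ↔ ∃ μ : V → N, (∀ v, e v (μ v) = 0) ∧ ∑ v ∈ τ, μ v = a := by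
  rw [QQ, Submodule.mem_iSup_finset_iff_exists_sum]
  constructor
  · rintro ⟨μ, hμ⟩
    exact ⟨fun v => (μ v : N), fun v => (μ v).2, hμ⟩
  · rintro ⟨μ, h1, h2⟩
    exact ⟨fun v => ⟨μ v, h1 v⟩, h2⟩

theorem MEx {G : SimpleGraph V} {n m j : ℕ} (hS : F2Sphere G n) {e : V → Module.End K N}
    (he : IsRep G e) (hB : Bal G e) (hU : ∀ i, m < i → Ex G e univ ∅ i) (hj : j + m < n)
    (mm : Finset V → N) (hsup : ∀ τ, mm τ ≠ 0 → Cl G τ ∧ τ.card = j)
    (hmm : ∀ τ, Cl G τ → τ.card = j + 1 → ∑ v ∈ τ, mm (τ.erase v) ∈ QQ e τ) :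
    ∃ m' : Finset V → N, ∀ τ, Cl G τ → τ.card = j → mm τ + ∑ v ∈ τ, m' (τ.erase v) ∈ QQ e τ := by
  let x : Finset V → Finset V → N := fun σ τ => if σ = ∅ then mm τ else 0
  have hx : x ∈ DD G e 0 j := by
    refine ⟨fun σ τ h => ?_, fun σ τ => ?_⟩
    · simp only [x] at h
      split_ifs at h with h1
      · subst h1
        have := hsup τ h
        exact ⟨Finset.empty_subset _, this.1, Finset.card_empty, this.2⟩
      · exact absurd rfl h
    · simp only [x]
      split_ifs with h1
      · subst h1; rw [SS_empty]; trivial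
      · exact zero_mem _
  have hμ : ∀ τ, ∃ μ : V → N, (∀ v, e v (μ v) = 0) ∧ (Cl G τ → τ.card = j + 1 →
      ∑ v ∈ τ, μ v = ∑ v ∈ τ, mm (τ.erase v)) := by
    intro τ
    by_cases h : Cl G τ ∧ τ.card = j + 1
    · obtain ⟨μ, h1, h2⟩ := mem_QQ.1 (hmm τ h.1 h.2)
      exact ⟨μ, h1, fun _ _ => h2⟩
    · exact ⟨0, fun v => by simp, fun h1 h2 => absurd ⟨h1, h2⟩ h⟩
  choose μ hμ1 hμ2 using hμ
  let x1 : Finset V → Finset V → N := fun σ τ => ∑ v, if v ∈ τ ∧ σ = {v} ∧ Cl G τ ∧
    τ.card = j + 1 then μ τ v else 0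
  have hx1v : ∀ v τ, x1 {v} τ = if v ∈ τ ∧ Cl G τ ∧ τ.card = j + 1 then μ τ v else 0 := by
    intro v τ
    simp only [x1]
    rw [Finset.sum_eq_single v]
    · by_cases h : v ∈ τ ∧ Cl G τ ∧ τ.card = j + 1
      · rw [if_pos h, if_pos ⟨h.1, rfl, h.2⟩]
      · rw [if_neg h, if_neg (by tauto)]
    · intro w _ hw
      rw [if_neg]
      rintro ⟨_, h, _⟩
      exact hw (Finset.singleton_injective h).symm
    · intro h; exact absurd (mem_univ v) h
  have hx1 : x1 ∈ DD G e 1 (j + 1) := by
    refine ⟨fun σ τ h => ?_, fun σ τ => ?_⟩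
    · simp only [x1] at h
      obtain ⟨v, _, hv⟩ := Finset.exists_ne_zero_of_sum_ne_zero h
      split_ifs at hv with h1
      · rw [h1.2.1]
        exact ⟨Finset.singleton_subset_iff.2 h1.1, h1.2.2.1, Finset.card_singleton _, h1.2.2.2⟩
      · exact absurd rfl hv
    · simp only [x1]
      apply Submodule.sum_mem
      intro v _
      split_ifs with h1
      · rw [h1.2.1]
        intro w hw
        rw [Finset.mem_singleton] at hw
        subst hw
        exact hμ1 τ w
      · exact zero_mem _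
  have hdl : dlh G N x = ptv V N x1 := by
    funext σ τ
    by_cases hσ : σ = ∅
    · subst hσ
      rw [dlh_apply, ptv_apply]
      by_cases hτ : Cl G τ ∧ τ.card = j + 1
      · have h1 : ∀ v : V, (if (Cl G τ ∧ ∅ ⊆ τ) ∧ v ∈ τ ∧ v ∉ (∅ : Finset V) then
            x ∅ (τ.erase v) else 0) = if v ∈ τ then mm (τ.erase v) else 0 := by
          intro v
          by_cases hv : v ∈ τ
          · rw [if_pos ⟨⟨hτ.1, Finset.empty_subset _⟩, hv, Finset.notMem_empty _⟩, if_pos hv]
            simp [x]
          · rw [if_neg (by tauto), if_neg hv]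
        have h2 : ∀ v : V, (if v ∈ τ ∧ v ∉ (∅ : Finset V) then x1 (insert v ∅) τ else 0) =
            if v ∈ τ then μ τ v else 0 := by
          intro v
          by_cases hv : v ∈ τ
          · rw [if_pos ⟨hv, Finset.notMem_empty _⟩, if_pos hv]
            rw [show insert v (∅ : Finset V) = {v} from rfl, hx1v, if_pos ⟨hv, hτ⟩]
          · rw [if_neg (by tauto), if_neg hv]
        rw [Finset.sum_congr rfl (fun v _ => h1 v), Finset.sum_congr rfl (fun v _ => h2 v),
          ← Finset.sum_filter, ← Finset.sum_filter, Finset.filter_mem_eq_inter,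
          Finset.univ_inter]
        exact (hμ2 τ hτ.1 hτ.2).symm
      · rw [Finset.sum_eq_zero, Finset.sum_eq_zero]
        · intro v _
          split_ifs with h
          · rw [show insert v (∅ : Finset V) = {v} from rfl, hx1v, if_neg (by tauto)]
          · rfl
        · intro v _
          split_ifs with h
          · simp only [x, if_true]
            by_contra hne
            have := hsup _ hne
            rw [Finset.card_erase_of_mem h.2.1] at this
            have h3 : 0 < τ.card := Finset.card_pos.2 ⟨v, h.2.1⟩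
            exact hτ ⟨h.1.1, by omega⟩
          · rfl
    · rw [dlh_apply, ptv_apply, Finset.sum_eq_zero, Finset.sum_eq_zero]
      · intro v _
        split_ifs with h
        · by_contra hne
          have h3 := (hx1.1 _ _ hne).2.2.1
          rw [Finset.card_insert_of_notMem h.2] at h3
          exact hσ (Finset.card_eq_zero.1 (by omega))
        · rfl
      · intro v _
        split_ifs with h
        · simp only [x, if_neg hσ]
        · rfl
  have h2 : ∀ x : Finset V → Finset V → N, x + x = 0 := by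
    intro x; funext σ τ; exact add_self2 K _
  obtain ⟨w, hw, y, hy, hdec⟩ := staircase h2 (DD G e) (dlh G N) (ptv V N) n j m
    (dlh_dlh K G) (ptv_ptv K) (dl_pt_comm G) (fun p q x hx => dlh_mem p q x hx)
    (fun p q x hx => ptv_mem p q x hx) (fun p q x hx hb => col_exact he hB p q x hx hb)
    (fun p q x hq hx hb => row_exact hS p q x hq hx hb)
    (fun p x hp hx hz => top_hyp hS hU p x hp hx hz (by omega)) hj x hx ⟨x1, hx1, hdl⟩
  refine ⟨fun κ => w ∅ κ, fun τ hτ hc => ?_⟩
  have h3 := congrFun (congrFun hdec ∅) τ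
  rw [Pi.add_apply, Pi.add_apply, dlh_apply, ptv_apply] at h3
  have h4 : (∑ v : V, if (Cl G τ ∧ ∅ ⊆ τ) ∧ v ∈ τ ∧ v ∉ (∅ : Finset V) then
      w ∅ (τ.erase v) else 0) = ∑ v ∈ τ, w ∅ (τ.erase v) := by
    rw [← Finset.sum_filter]
    congr 1
    ext v
    simp [hτ]
  have h5 : (∑ v : V, if v ∈ τ ∧ v ∉ (∅ : Finset V) then y (insert v ∅) τ else 0) =
      ∑ v ∈ τ, y {v} τ := by
    rw [← Finset.sum_filter]
    have : (univ : Finset V).filter (fun v => v ∈ τ ∧ v ∉ (∅ : Finset V)) = τ := by
      ext v; simp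
    rw [this]
    rfl
  rw [h4, h5] at h3
  have h6 : x ∅ τ = mm τ := by simp [x]
  rw [h6] at h3
  dsimp only
  rw [h3, add_right_comm, add_self2 K, zero_add, mem_QQ]
  exact ⟨fun v => y {v} τ, fun v => hy.2 {v} τ v (Finset.mem_singleton_self v), rfl⟩

/-- the dual family -/
def dual (e : V → Module.End K N) : V → Module.End K (Module.Dual K N) := fun v => (e v).dualMap

omit [Fintype V] [CharP K 2] in
lemma dual_apply (e : V → Module.End K N) (v : V) (y : Module.Dual K N) (a : N) :
    dual e v y a = y (e v a) := rfl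

/-- Poincaré duality: vanishing above the middle gives vanishing below the middle for the dual
family. -/
theorem PDual {G : SimpleGraph V} {n m j : ℕ} (hS : F2Sphere G n) {e : V → Module.End K N}
    (he : IsRep G e) (hB : Bal G e) (hU : ∀ i, m < i → Ex G e univ ∅ i) (hj : j + m < n) :
    Ex G (dual e) univ ∅ j := by
  intro y hy hby
  -- `y τ` kills `QQ e τ`
  have hyQ : ∀ τ, ∀ a ∈ QQ e τ, y τ a = 0 := by
    intro τ a ha
    obtain ⟨μ, h1, rfl⟩ := mem_QQ.1 ha
    rw [map_sum]
    apply Finset.sum_eq_zero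
    intro v hv
    obtain ⟨b, _, hb⟩ := hB ∅ v (Finset.notMem_empty _) (cl_singleton G v) (μ v)
      (by rw [SS_empty]; trivial) (h1 v)
    rw [← hb]
    have := hy.2.1 τ v hv
    exact LinearMap.congr_fun this b
  let f : (Finset V → N) →ₗ[K] (∀ τ : Finset V, N ⧸ QQ e τ) :=
    LinearMap.pi (fun τ => if Cl G τ ∧ τ.card = j + 1 then
      (QQ e τ).mkQ ∘ₗ (∑ v ∈ τ, LinearMap.proj (τ.erase v)) else 0)
  let φ : (Finset V → N) →ₗ[K] K := ∑ τ : Finset V, (y τ) ∘ₗ (LinearMap.proj τ)
  have hφ : ∀ a, φ a = ∑ τ, y τ (a τ) := by intro a; simp [φ]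
  have hker : LinearMap.ker f ≤ LinearMap.ker φ := by
    intro a ha
    rw [LinearMap.mem_ker] at ha ⊢
    let mm : Finset V → N := fun τ => if Cl G τ ∧ τ.card = j then a τ else 0
    obtain ⟨m', hm'⟩ := MEx hS he hB hU hj mm (fun τ hτ => by
      by_contra hne; exact hτ (if_neg hne)) (fun τ hτ hc => by
      have h1 := congrFun ha τ
      simp only [f, LinearMap.pi_apply] at h1
      rw [if_pos ⟨hτ, hc⟩, LinearMap.comp_apply, Pi.zero_apply, Submodule.mkQ_apply,
        Submodule.Quotient.mk_eq_zero] at h1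
      have h2 : (∑ v ∈ τ, (LinearMap.proj (τ.erase v) : (Finset V → N) →ₗ[K] N)) a =
          ∑ v ∈ τ, mm (τ.erase v) := by
        rw [LinearMap.sum_apply]
        refine Finset.sum_congr rfl (fun v hv => ?_)
        have h3 : Cl G (τ.erase v) ∧ (τ.erase v).card = j :=
          ⟨hτ.mono (Finset.erase_subset _ _), by rw [Finset.card_erase_of_mem hv, hc]; rfl⟩
        simp only [mm, if_pos h3, LinearMap.proj_apply]
      rw [← h2]; exact h1)
    rw [hφ]
    have h1 : ∀ τ, y τ (a τ) = ∑ v, (if v ∈ τ then y τ (m' (τ.erase v)) else 0) := by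
      intro τ
      by_cases h0 : y τ = 0
      · rw [h0]; simp
      · have h2 := hy.2.2 τ h0
        have h3 := hyQ τ _ (hm' τ h2.2.1 h2.2.2)
        rw [map_add] at h3
        have h4 : mm τ = a τ := if_pos ⟨h2.2.1, h2.2.2⟩
        rw [h4] at h3
        have h5 : y τ (a τ) = y τ (∑ v ∈ τ, m' (τ.erase v)) := by
          have h6 : y τ (a τ) + y τ (∑ v ∈ τ, m' (τ.erase v)) =
            y τ (∑ v ∈ τ, m' (τ.erase v)) + y τ (∑ v ∈ τ, m' (τ.erase v)) := by
            rw [h3]; exact (add_self2 K _).symm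
          exact add_right_cancel h6
        rw [h5, map_sum, ← Finset.sum_filter, Finset.filter_mem_eq_inter, Finset.univ_inter]
    rw [Finset.sum_congr rfl (fun τ _ => h1 τ), ← sum_ins (fun τ κ => y τ (m' κ))]
    apply Finset.sum_eq_zero
    intro κ _
    have h2 := LinearMap.congr_fun (congrFun hby κ) (m' κ)
    rw [bd_apply, LinearMap.sum_apply] at h2
    refine Eq.trans ?_ h2
    refine Finset.sum_congr rfl (fun v _ => ?_)
    split_ifs <;> rfl
  obtain ⟨ψ, hψ⟩ := factor f φ hker
  let w : Finset V → Module.Dual K N := fun τ => if Cl G τ ∧ τ.card = j + 1 then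
    ψ ∘ₗ (LinearMap.single K (fun τ : Finset V => N ⧸ QQ e τ) τ) ∘ₗ (QQ e τ).mkQ else 0
  refine ⟨w, ⟨fun σ v hv => by simp at hv, fun τ v hv => ?_, fun τ hτ => ?_⟩, ?_⟩
  · simp only [w]
    split_ifs with h
    · apply LinearMap.ext
      intro a
      rw [dual_apply, LinearMap.comp_apply, LinearMap.comp_apply, Submodule.mkQ_apply]
      have : e v a ∈ QQ e τ := by
        have h1 : e v a ∈ LinearMap.ker (e v) := by rw [LinearMap.mem_ker]; exact he.sq v a
        exact (le_iSup₂_of_le (f := fun v (_ : v ∈ τ) => LinearMap.ker (e v)) v hv le_rfl) h1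
      rw [(Submodule.Quotient.mk_eq_zero _).2 this]
      simp
    · simp
  · by_contra hne
    apply hτ
    simp only [w]
    rw [if_neg]
    intro h
    exact hne ⟨Finset.subset_univ _, h.1, h.2⟩
  · funext τ
    apply LinearMap.ext
    intro a
    have h1 : y τ a = φ (Pi.single τ a) := by
      rw [hφ, Finset.sum_eq_single τ]
      · rw [Pi.single_eq_same]
      · intro κ _ hκ
        rw [Pi.single_eq_of_ne hκ, map_zero]
      · intro h; exact absurd (Finset.mem_univ _) h
    have h2 : ψ (f (Pi.single τ a)) =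
        ∑ κ, w κ (∑ v ∈ κ, (Pi.single τ a : Finset V → N) (κ.erase v)) := by
      have h3 : f (Pi.single τ a) = ∑ κ, Pi.single κ (f (Pi.single τ a) κ) := by
        rw [Finset.univ_sum_single]
      rw [h3, map_sum]
      refine Finset.sum_congr rfl (fun κ _ => ?_)
      simp only [w, f, LinearMap.pi_apply]
      split_ifs with hκ
      · rw [LinearMap.comp_apply, LinearMap.comp_apply, LinearMap.comp_apply,
          LinearMap.sum_apply]
        rfl
      · simp
    have h4 : ∀ κ, w κ (∑ v ∈ κ, (Pi.single τ a : Finset V → N) (κ.erase v)) =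
        ∑ v, (if v ∈ κ then w κ ((Pi.single τ a : Finset V → N) (κ.erase v)) else 0) := by
      intro κ
      rw [map_sum, ← Finset.sum_filter, Finset.filter_mem_eq_inter, Finset.univ_inter]
    rw [h1, ← hψ, LinearMap.comp_apply, h2, Finset.sum_congr rfl (fun κ _ => h4 κ),
      ← sum_ins (fun κ ρ => w κ ((Pi.single τ a : Finset V → N) ρ)),
      Finset.sum_eq_single τ]
    · rw [bd_apply, LinearMap.sum_apply]
      refine Finset.sum_congr rfl (fun v _ => ?_)
      rw [Pi.single_eq_same]
      split_ifs <;> rfl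
    · intro κ _ hκ
      apply Finset.sum_eq_zero
      intro v _
      rw [Pi.single_eq_of_ne hκ, map_zero]
      split_ifs <;> rfl
    · intro h; exact absurd (Finset.mem_univ _) h

end

end H162.CD
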