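import Pool.Agent.H162.CD.Perturb2

/-! Euler characteristic (helper162). -/

namespace H162.CD

open Finset Classical Module

noncomputable section

variable {V : Type*} [Fintype V]
variable {K : Type*} [Field K]
variable {N : Type*} [AddCommGroup N] [Module K N]

lemma finrank_Ch_rat [FiniteDimensional K N] {G : SimpleGraph V}
    {e : V → Module.End K N} (he : IsRep G e) (hB : Bal G e) (i : ℕ) :
    (finrank K (Ch G e univ ∅ i) : ℚ) =
      ∑ σ ∈ (univ : Finset (Finset V)).filter (fun σ => Cl G σ ∧ σ.card = i),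
        (finrank K N : ℚ) * (1 / 2 : ℚ) ^ σ.card := by
  have h1 : finrank K (Ch G e univ ∅ i) =
      ∑ σ ∈ (univ : Finset (Finset V)).filter (fun σ => Cl G σ ∧ σ.card = i),
        finrank K (SS e σ) := by
    rw [finrank_Ch]
    have h3 : ∀ x : Finset V, x ∈ (univ : Finset (Finset V)).filter
        (fun σ => Cl G σ ∧ σ.card = i) ↔ x ⊆ univ ∧ Cl G x ∧ x.card = i := by
      intro x; simp
    rw [Finset.sum_subtype _ h3 (fun σ => finrank K (SS e σ))]
    refine Finset.sum_congr rfl (fun σ _ => ?_)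
    rw [Finset.empty_union]
  rw [h1, Nat.cast_sum]
  refine Finset.sum_congr rfl (fun σ hσ => ?_)
  rw [Finset.mem_filter] at hσ
  have h2 := finrank_SS_eq he hB σ hσ.2.1
  rw [h2]
  push_cast
  rw [mul_comm ((2 : ℚ) ^ σ.card), mul_assoc, ← mul_pow]
  norm_num

theorem euler_nonneg [CharP K 2] [FiniteDimensional K N] [Nontrivial N] {G : SimpleGraph V}
    {e : V → Module.End K N} (he : IsRep G e) (hB : Bal G e) (m : ℕ)
    (h : ∀ i, i ≠ m → Ex G e univ ∅ i) :
    0 ≤ (-1 : ℚ) ^ m * ∑ σ ∈ (univ : Finset (Finset V)).filter (fun σ => Cl G σ),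
      (-1 / 2 : ℚ) ^ σ.card := by
  set a : ℕ → ℚ := fun i => (finrank K (Ch G e univ ∅ i) : ℚ) with ha
  set z : ℕ → ℚ := fun i => (finrank K (Zc G e univ ∅ i) : ℚ) with hz
  have hz0 : a 0 = z 0 := by
    simp only [ha, hz]
    have : Zc G e univ ∅ 0 = Ch G e univ ∅ 0 := by
      rw [Zc, inf_eq_left]
      intro x hx
      rw [LinearMap.mem_ker]
      exact bd_zero_of_mem_zero hx
    rw [this]
  have hstep : ∀ i, i ≠ m → a (i + 1) = z i + z (i + 1) := by
    intro i hi
    simp only [ha, hz]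
    exact_mod_cast finrank_Z_eq (h i hi)
  have hm : a (m + 1) ≤ z m + z (m + 1) := by
    simp only [ha, hz]
    exact_mod_cast finrank_Z_le G e univ ∅ m
  have hlow : ∀ L, L ≤ m → ∑ i ∈ Finset.range (L + 1), (-1 : ℚ) ^ i * a i = (-1) ^ L * z L := by
    intro L
    induction L with
    | zero => intro _; simp [hz0]
    | succ L ih =>
      intro hL
      rw [Finset.sum_range_succ, ih (by omega), hstep L (by omega), pow_succ]
      ring
  have hhigh : ∀ L, ∑ i ∈ Finset.range (m + 1 + L + 1), (-1 : ℚ) ^ i * a i =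
      (-1) ^ (m + 1 + L) * z (m + 1 + L) + (-1) ^ m * (z m + z (m + 1) - a (m + 1)) := by
    intro L
    induction L with
    | zero =>
      rw [add_zero, Finset.sum_range_succ, hlow m le_rfl, pow_succ]
      ring
    | succ L ih =>
      rw [← add_assoc, Finset.sum_range_succ, ih, hstep (m + 1 + L) (by omega), pow_succ]
      ring
  set L := Fintype.card V with hL
  have hzL : z (m + 1 + L) = 0 := by
    have : (a (m + 1 + L)) = 0 := by
      simp only [ha]
      rw [finrank_Ch_rat he hB]
      apply Finset.sum_eq_zero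
      intro σ hσ
      rw [Finset.mem_filter] at hσ
      have := Finset.card_le_univ σ
      omega
    have h2 : z (m + 1 + L) ≤ a (m + 1 + L) := by
      simp only [ha, hz]
      exact_mod_cast Submodule.finrank_mono (inf_le_left)
    have h3 : 0 ≤ z (m + 1 + L) := by simp only [hz]; positivity
    linarith
  have hS := hhigh L
  rw [hzL, mul_zero, zero_add] at hS
  have hS2 : ∑ i ∈ Finset.range (m + 1 + L + 1), (-1 : ℚ) ^ i * a i =
      (finrank K N : ℚ) * ∑ σ ∈ (univ : Finset (Finset V)).filter (fun σ => Cl G σ),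
      (-1 / 2 : ℚ) ^ σ.card := by
    rw [← Finset.sum_fiberwise_of_maps_to (s := (univ : Finset (Finset V)).filter (fun σ => Cl G σ))
      (t := Finset.range (m + 1 + L + 1)) (g := fun σ => σ.card)]
    · rw [Finset.mul_sum]
      refine Finset.sum_congr rfl (fun i _ => ?_)
      simp only [ha]
      rw [finrank_Ch_rat he hB, Finset.mul_sum, Finset.mul_sum, Finset.filter_filter]
      refine Finset.sum_congr rfl (fun σ hσ => ?_)
      rw [Finset.mem_filter] at hσ
      rw [← hσ.2.2]
      rw [show (-1 / 2 : ℚ) = (-1) * (1 / 2) by norm_num, mul_pow]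
      ring
    · intro σ _
      rw [Finset.mem_range]
      have := Finset.card_le_univ σ
      omega
  rw [hS2] at hS
  have hN : (0 : ℚ) < finrank K N := by exact_mod_cast Module.finrank_pos
  have h4 : (finrank K N : ℚ) * ((-1 : ℚ) ^ m *
      ∑ σ ∈ (univ : Finset (Finset V)).filter (fun σ => Cl G σ), (-1 / 2 : ℚ) ^ σ.card) =
      z m + z (m + 1) - a (m + 1) := by
    have : (finrank K N : ℚ) * ((-1 : ℚ) ^ m *
      ∑ σ ∈ (univ : Finset (Finset V)).filter (fun σ => Cl G σ), (-1 / 2 : ℚ) ^ σ.card) =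
      (-1 : ℚ) ^ m * ((finrank K N : ℚ) *
      ∑ σ ∈ (univ : Finset (Finset V)).filter (fun σ => Cl G σ), (-1 / 2 : ℚ) ^ σ.card) := by
      ring
    rw [this, hS, ← mul_assoc, ← pow_add, ← two_mul, pow_mul]
    norm_num
  have h5 : 0 ≤ (finrank K N : ℚ) * ((-1 : ℚ) ^ m *
      ∑ σ ∈ (univ : Finset (Finset V)).filter (fun σ => Cl G σ), (-1 / 2 : ℚ) ^ σ.card) := by
    rw [h4]; linarith
  exact nonneg_of_mul_nonneg_right h5 hN

end

end H162.CD
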