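import Pool.Agent.H162.CD.Perturb2

namespace H162.CD

open Finset Classical Module

noncomputable section

variable {V : Type*} [Fintype V]
variable {K : Type*} [Field K]
variable {N : Type*} [AddCommGroup N] [Module K N]

/-! ### transport along linear equivalences -/

section transport

variable {N' : Type*} [AddCommGroup N'] [Module K N']

/-- conjugate family -/
def cj (φ : N ≃ₗ[K] N') (e : V → Module.End K N) : V → Module.End K N' :=
  fun v => φ.toLinearMap ∘ₗ (e v) ∘ₗ φ.symm.toLinearMap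

omit [Fintype V] in
lemma cj_apply (φ : N ≃ₗ[K] N') (e : V → Module.End K N) (v : V) (x : N') :
    cj φ e v x = φ (e v (φ.symm x)) := rfl

omit [Fintype V] in
lemma cj_rep {G : SimpleGraph V} {e : V → Module.End K N} (φ : N ≃ₗ[K] N') (h : IsRep G e) :
    IsRep G (cj φ e) := by
  refine ⟨fun v x => ?_, fun u v huv x => ?_⟩
  · simp only [cj_apply, LinearEquiv.symm_apply_apply]
    rw [h.sq, map_zero]
  · simp only [cj_apply, LinearEquiv.symm_apply_apply]
    rw [h.comm u v huv]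

omit [Fintype V] in
lemma mem_SS_cj {e : V → Module.End K N} (φ : N ≃ₗ[K] N') {σ : Finset V} {x : N'} :
    x ∈ SS (cj φ e) σ ↔ φ.symm x ∈ SS e σ := by
  rw [mem_SS, mem_SS]
  refine forall₂_congr (fun v _ => ?_)
  rw [cj_apply]
  exact φ.map_eq_zero_iff

omit [Fintype V] in
lemma cj_bal {G : SimpleGraph V} {e : V → Module.End K N} (φ : N ≃ₗ[K] N') (h : Bal G e) :
    Bal G (cj φ e) := by
  intro σ v hv hcl x hx hvx
  rw [cj_apply] at hvx
  obtain ⟨y, hy, hyx⟩ := h σ v hv hcl (φ.symm x) ((mem_SS_cj φ).1 hx) (φ.map_eq_zero_iff.1 hvx)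
  refine ⟨φ y, (mem_SS_cj φ).2 (by simpa using hy), ?_⟩
  rw [cj_apply, LinearEquiv.symm_apply_apply, hyx, LinearEquiv.apply_symm_apply]

omit [Fintype V] in
lemma mem_Ch_cj {G : SimpleGraph V} {e : V → Module.End K N} (φ : N ≃ₗ[K] N')
    {A τ : Finset V} {i : ℕ} {x : Finset V → N'} :
    x ∈ Ch G (cj φ e) A τ i ↔ (fun σ => φ.symm (x σ)) ∈ Ch G e A τ i := by
  constructor
  · rintro ⟨h1, h2, h3⟩
    refine ⟨fun σ v hv => ?_, fun σ v hv => ?_, fun σ hσ => h3 σ ?_⟩
    · have := h1 σ v hv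
      rw [cj_apply] at this
      exact φ.map_eq_zero_iff.1 this
    · have := h2 σ v hv
      rw [cj_apply] at this
      exact φ.map_eq_zero_iff.1 this
    · intro h0
      apply hσ
      dsimp only
      rw [h0, map_zero]
  · rintro ⟨h1, h2, h3⟩
    refine ⟨fun σ v hv => ?_, fun σ v hv => ?_, fun σ hσ => h3 σ ?_⟩
    · rw [cj_apply]; have := h1 σ v hv; rw [this, map_zero]
    · rw [cj_apply]; have := h2 σ v hv; rw [this, map_zero]
    · intro h0
      apply hσ
      exact φ.symm.map_eq_zero_iff.1 h0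

lemma bd_symm (φ : N ≃ₗ[K] N') (x : Finset V → N') :
    bd (K := K) (fun σ => φ.symm (x σ)) = fun σ => φ.symm (bd (K := K) x σ) := by
  funext σ
  rw [bd_apply, bd_apply, map_sum]
  refine Finset.sum_congr rfl (fun v _ => ?_)
  split_ifs <;> simp

lemma cj_Ex {G : SimpleGraph V} {e : V → Module.End K N} (φ : N ≃ₗ[K] N')
    {A τ : Finset V} {i : ℕ} (h : Ex G e A τ i) : Ex G (cj φ e) A τ i := by
  intro x hx hbx
  obtain ⟨y, hy, hby⟩ := h _ ((mem_Ch_cj φ).1 hx) (by
    rw [bd_symm, hbx]; funext σ; simp)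
  refine ⟨fun σ => φ (y σ), ?_, ?_⟩
  · rw [mem_Ch_cj]
    simpa using hy
  · have h1 := bd_symm φ (fun σ => φ (y σ))
    simp only [LinearEquiv.symm_apply_apply] at h1
    rw [hby] at h1
    funext σ
    have h2 := congrFun h1 σ
    exact φ.symm.injective h2.symm

end transport

/-! ### pointwise families -/

section pointwise

variable {J : Type*}

def pw (J : Type*) (e : V → Module.End K N) : V → Module.End K (J → N) :=
  fun v => LinearMap.pi (fun j => (e v) ∘ₗ (LinearMap.proj j))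

omit [Fintype V] in
lemma pw_apply (e : V → Module.End K N) (v : V) (x : J → N) (j : J) :
    pw J e v x j = e v (x j) := rfl

omit [Fintype V] in
lemma pw_rep {G : SimpleGraph V} {e : V → Module.End K N} (h : IsRep G e) :
    IsRep G (pw J e) := by
  refine ⟨fun v x => ?_, fun u v huv x => ?_⟩
  · funext j; simp only [pw_apply, h.sq, Pi.zero_apply]
  · funext j; simp only [pw_apply]; rw [h.comm u v huv]

omit [Fintype V] in
lemma mem_SS_pw {e : V → Module.End K N} {σ : Finset V} {x : J → N} :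
    x ∈ SS (pw J e) σ ↔ ∀ j, x j ∈ SS e σ := by
  constructor
  · intro h j v hv
    exact congrFun (h v hv) j
  · intro h v hv
    funext j
    exact h j v hv

omit [Fintype V] in
lemma pw_bal {G : SimpleGraph V} {e : V → Module.End K N} (h : Bal G e) :
    Bal G (pw J e) := by
  intro σ v hv hcl x hx hvx
  rw [mem_SS_pw] at hx
  choose y hy hyx using fun j => h σ v hv hcl (x j) (hx j) (congrFun hvx j)
  exact ⟨y, mem_SS_pw.2 hy, funext hyx⟩

lemma pw_Ex {G : SimpleGraph V} {e : V → Module.End K N} {A τ : Finset V} {i : ℕ}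
    (h : Ex G e A τ i) : Ex G (pw J e) A τ i := by
  intro x hx hbx
  have hx1 : ∀ j, (fun σ => x σ j) ∈ Ch G e A τ i := by
    intro j
    obtain ⟨h1, h2, h3⟩ := hx
    refine ⟨fun σ v hv => congrFun (h1 σ v hv) j, fun σ v hv => congrFun (h2 σ v hv) j,
      fun σ hσ => h3 σ ?_⟩
    intro h0
    apply hσ
    dsimp only
    rw [h0]; rfl
  have hx2 : ∀ j, bd (K := K) (fun σ => x σ j) = 0 := by
    intro j
    funext σ
    have := congrFun (congrFun hbx σ) j
    rw [bd_apply] at this ⊢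
    rw [Finset.sum_apply] at this
    refine Eq.trans ?_ this
    refine Finset.sum_congr rfl (fun v _ => ?_)
    split_ifs <;> rfl
  choose y hy hyx using fun j => h _ (hx1 j) (hx2 j)
  refine ⟨fun σ j => y j σ, ⟨fun σ v hv => ?_, fun σ v hv => ?_, fun σ hσ => ?_⟩, ?_⟩
  · funext j; exact (hy j).1 σ v hv
  · funext j; exact (hy j).2.1 σ v hv
  · obtain ⟨j, hj⟩ := Function.ne_iff.1 hσ
    exact (hy j).2.2 σ hj
  · funext σ j
    have := congrFun (hyx j) σ
    rw [← this, bd_apply, bd_apply, Finset.sum_apply]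
    refine Finset.sum_congr rfl (fun v _ => ?_)
    split_ifs <;> rfl

end pointwise

/-! ### commuting pairs -/

/-- swapping two function arguments -/
def swapE (K : Type*) [Field K] (I J : Type*) : (I → J → K) ≃ₗ[K] (J → I → K) where
  toFun x := fun j i => x i j
  map_add' _ _ := rfl
  map_smul' _ _ := rfl
  invFun x := fun i j => x j i
  left_inv _ := rfl
  right_inv _ := rfl

omit [Fintype V] in
lemma commute_pair {I J : Type*} [Fintype I] [Fintype J] (e1 : V → Module.End K (I → K))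
    (e2 : V → Module.End K (J → K)) (u v : V) (x : J → I → K) :
    pw J e1 u (cj (swapE K I J) (pw I e2) v x) = cj (swapE K I J) (pw I e2) v (pw J e1 u x) := by
  have hM : ∀ (y : J → K) (j : J), e2 v y j = ∑ j', LinearMap.toMatrix' (e2 v) j j' * y j' := by
    intro y j
    have := LinearMap.toMatrix'_mulVec (e2 v) y
    rw [← this]
    rfl
  have h2 : ∀ (z : J → I → K) (j : J), cj (swapE K I J) (pw I e2) v z j =
      ∑ j', LinearMap.toMatrix' (e2 v) j j' • z j' := by
    intro z j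
    funext i
    rw [Finset.sum_apply]
    show e2 v (fun j => z j i) j = _
    rw [hM]
    rfl
  funext j
  rw [pw_apply, h2, h2, map_sum]
  refine Finset.sum_congr rfl (fun j' _ => ?_)
  rw [map_smul, pw_apply]

/-- Two balanced families can be combined. -/
theorem combine2 [CharP K 2] [Infinite K] {G : SimpleGraph V} {n1 n2 : ℕ}
    {e1 : V → Module.End K (Fin n1 → K)} {e2 : V → Module.End K (Fin n2 → K)}
    (hn1 : 0 < n1) (hn2 : 0 < n2)
    (h1 : IsRep G e1) (h2 : IsRep G e2) (hB1 : Bal G e1) (hB2 : Bal G e2) :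
    ∃ n : ℕ, 0 < n ∧ ∃ e : V → Module.End K (Fin n → K), IsRep G e ∧ Bal G e ∧
      (∀ A τ i, Cl G τ → A ⊆ Lk G τ → Ex G e1 A τ i → Ex G e A τ i) ∧
      (∀ A τ i, Cl G τ → A ⊆ Lk G τ → Ex G e2 A τ i → Ex G e A τ i) := by
  let E1 : V → Module.End K (Fin n2 → Fin n1 → K) := pw (Fin n2) e1
  let E2 : V → Module.End K (Fin n2 → Fin n1 → K) :=
    cj (swapE K (Fin n1) (Fin n2)) (pw (Fin n1) e2)
  have r1 : IsRep G E1 := pw_rep h1
  have r2 : IsRep G E2 := cj_rep _ (pw_rep h2)
  have b1 : Bal G E1 := pw_bal hB1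
  have b2 : Bal G E2 := cj_bal _ (pw_bal hB2)
  obtain ⟨B, hB, hb⟩ := pert2 r1 r2 (fun u v x => commute_pair e1 e2 u v x) b1 b2
  obtain ⟨s, hs⟩ := hB.exists_notMem
  obtain ⟨c1, c2, c3⟩ := hb s hs
  have r3 := es_rep r1 r2 (fun u v x => commute_pair e1 e2 u v x) s
  let φ : (Fin n2 → Fin n1 → K) ≃ₗ[K] (Fin (n2 * n1) → K) :=
    (LinearEquiv.curry K K (Fin n2) (Fin n1)).symm.trans
      (LinearEquiv.funCongrLeft K K finProdFinEquiv.symm)
  refine ⟨n2 * n1, Nat.mul_pos hn2 hn1, cj φ (es E1 E2 s), cj_rep _ r3, cj_bal _ c1, ?_, ?_⟩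
  · intro A τ i hτ hA hE
    exact cj_Ex _ (c2 A τ i hτ hA (pw_Ex hE))
  · intro A τ i hτ hA hE
    exact cj_Ex _ (c3 A τ i hτ hA (cj_Ex _ (pw_Ex hE)))

end

end H162.CD
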