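import Pool.Agent.H162.CD.Ext

namespace H162.CD

open Finset Classical Module

noncomputable section

attribute [-instance] Subtype.instDecidableEq

variable {V : Type*} [Fintype V]
variable {K : Type*} [Field K]
variable {M : Type*} [AddCommGroup M] [Module K M]

/-- induced subgraph -/
def GI (G : SimpleGraph V) (A : Finset V) : SimpleGraph {x // x ∈ A} :=
  G.comap (fun x : {x // x ∈ A} => x.1)

omit [Fintype V] in
lemma GI_adj {G : SimpleGraph V} {A : Finset V} {x y : {x // x ∈ A}} :
    (GI G A).Adj x y ↔ G.Adj x.1 y.1 := Iff.rfl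

/-- extension of a family on `A` by exterior operators -/
def extE (A : Finset V) (eA : {x // x ∈ A} → Module.End K M) :
    V → Module.End K (Finset V → M) := fun v =>
  LinearMap.pi (fun S => if h : v ∈ A then (eA ⟨v, h⟩) ∘ₗ (LinearMap.proj S) else
    (if v ∈ S then LinearMap.proj (S.erase v) else 0))

omit [Fintype V] in
lemma extE_mem {A : Finset V} {eA : {x // x ∈ A} → Module.End K M} {v : V} (h : v ∈ A)
    (f : Finset V → M) (S : Finset V) : extE A eA v f S = eA ⟨v, h⟩ (f S) := by
  simp [extE, h]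

omit [Fintype V] in
lemma extE_not_mem {A : Finset V} {eA : {x // x ∈ A} → Module.End K M} {v : V} (h : v ∉ A)
    (f : Finset V → M) (S : Finset V) :
    extE A eA v f S = if v ∈ S then f (S.erase v) else 0 := by
  by_cases hS : v ∈ S
  · simp [extE, h, hS]
  · simp [extE, h, hS]

omit [Fintype V] in
lemma extE_rep {G : SimpleGraph V} {A : Finset V} {eA : {x // x ∈ A} → Module.End K M}
    (h : IsRep (GI G A) eA) : IsRep G (extE A eA) := by
  refine ⟨fun v f => ?_, fun u v huv f => ?_⟩
  · funext S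
    by_cases hv : v ∈ A
    · rw [extE_mem hv, extE_mem hv, h.sq]; rfl
    · rw [extE_not_mem hv]
      split_ifs
      · rw [extE_not_mem hv, if_neg (Finset.notMem_erase _ _)]; rfl
      · rfl
  · funext S
    by_cases hu : u ∈ A
    · by_cases hv : v ∈ A
      · rw [extE_mem hu, extE_mem hv, extE_mem hv, extE_mem hu]
        exact h.comm _ _ (GI_adj.2 huv) _
      · rw [extE_mem hu, extE_not_mem hv, extE_not_mem hv]
        split_ifs
        · rw [extE_mem hu]
        · rw [map_zero]
    · by_cases hv : v ∈ A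
      · rw [extE_mem hv, extE_not_mem hu, extE_not_mem hu]
        split_ifs
        · rw [extE_mem hv]
        · rw [map_zero]
      · rw [extE_not_mem hu, extE_not_mem hv]
        have huv' : u ≠ v := huv.ne
        by_cases hSu : u ∈ S
        · rw [if_pos hSu, extE_not_mem hv]
          by_cases hSv : v ∈ S
          · rw [if_pos hSv, extE_not_mem hu, if_pos (Finset.mem_erase.2 ⟨huv'.symm, hSv⟩),
              if_pos (Finset.mem_erase.2 ⟨huv', hSu⟩), Finset.erase_right_comm]
          · rw [if_neg hSv, if_neg (fun h => hSv (Finset.mem_of_mem_erase h))]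
        · rw [if_neg hSu, extE_not_mem hv]
          by_cases hSv : v ∈ S
          · rw [if_pos hSv, extE_not_mem hu, if_neg (fun h => hSu (Finset.mem_of_mem_erase h))]
          · rw [if_neg hSv]

omit [Fintype V] in
lemma mem_SS_extE {A : Finset V} {eA : {x // x ∈ A} → Module.End K M} {σ : Finset V}
    {f : Finset V → M} : f ∈ SS (extE A eA) σ ↔
      (∀ S, f S ∈ SS eA (σ.subtype (· ∈ A))) ∧ ∀ w ∈ σ, w ∉ A → ∀ S, w ∉ S → f S = 0 := by
  constructor
  · intro h
    refine ⟨fun S v hv => ?_, fun w hw hwA S hS => ?_⟩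
    · have h1 := congrFun (h v.1 (Finset.mem_subtype.1 hv)) S
      rw [extE_mem v.2] at h1
      exact h1
    · have h1 := congrFun (h w hw) (insert w S)
      rw [extE_not_mem hwA, if_pos (mem_insert_self _ _), Finset.erase_insert hS] at h1
      exact h1
  · rintro ⟨h1, h2⟩ v hv
    funext S
    by_cases hvA : v ∈ A
    · rw [extE_mem hvA]
      exact h1 S ⟨v, hvA⟩ (Finset.mem_subtype.2 hv)
    · rw [extE_not_mem hvA]
      split_ifs
      · exact h2 v hv hvA _ (Finset.notMem_erase _ _)
      · rfl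

omit [Fintype V] in
lemma extE_bal {G : SimpleGraph V} {A : Finset V} {eA : {x // x ∈ A} → Module.End K M}
    (h : Bal (GI G A) eA) : Bal G (extE A eA) := by
  intro σ v hv hcl f hf hvf
  rw [mem_SS_extE] at hf
  obtain ⟨hf1, hf2⟩ := hf
  by_cases hvA : v ∈ A
  · have hcl' : Cl (GI G A) (insert ⟨v, hvA⟩ (σ.subtype (· ∈ A))) := by
      intro a ha b hb hab
      rw [GI_adj]
      have aux : ∀ c : {x // x ∈ A}, c ∈ insert (⟨v, hvA⟩ : {x // x ∈ A}) (σ.subtype (· ∈ A)) →
          c.1 ∈ insert v σ := by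
        intro c hc
        rw [mem_insert] at hc ⊢
        rcases hc with rfl | hc
        · exact Or.inl rfl
        · exact Or.inr (Finset.mem_subtype.1 hc)
      exact hcl _ (aux a ha) _ (aux b hb) (fun h => hab (Subtype.ext h))
    have hv' : (⟨v, hvA⟩ : {x // x ∈ A}) ∉ σ.subtype (· ∈ A) := by
      rw [Finset.mem_subtype]; exact hv
    have key : ∀ S, ∃ y ∈ SS eA (σ.subtype (· ∈ A)), eA ⟨v, hvA⟩ y = f S ∧ (f S = 0 → y = 0) := by
      intro S
      by_cases h0 : f S = 0
      · exact ⟨0, zero_mem _, by rw [map_zero, h0], fun _ => rfl⟩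
      · obtain ⟨y, hy, hyx⟩ := h _ _ hv' hcl' (f S) (hf1 S) (by
          have := congrFun hvf S
          rwa [extE_mem hvA] at this)
        exact ⟨y, hy, hyx, fun h => absurd h h0⟩
    choose g hg1 hg2 hg3 using key
    refine ⟨g, mem_SS_extE.2 ⟨hg1, fun w hw hwA S hS => hg3 S (hf2 w hw hwA S hS)⟩, ?_⟩
    funext S
    rw [extE_mem hvA, hg2]
  · have hf3 : ∀ S, v ∉ S → f S = 0 := by
      intro S hS
      have h1 := congrFun hvf (insert v S)
      rw [extE_not_mem hvA, if_pos (mem_insert_self _ _), Finset.erase_insert hS] at h1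
      exact h1
    refine ⟨fun S => if v ∈ S then 0 else f (insert v S), mem_SS_extE.2 ⟨fun S => ?_,
      fun w hw hwA S hS => ?_⟩, ?_⟩
    · split_ifs
      · exact zero_mem _
      · exact hf1 _
    · split_ifs
      · rfl
      · apply hf2 w hw hwA
        rw [mem_insert]
        rintro (rfl | h')
        · exact hv hw
        · exact hS h'
    · funext S
      rw [extE_not_mem hvA]
      by_cases hS : v ∈ S
      · rw [if_pos hS, if_neg (Finset.notMem_erase _ _), Finset.insert_erase hS]
      · rw [if_neg hS, hf3 S hS]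

/-- restriction of a chain to the induced subgraph, at the index `S` -/
def rsC (A : Finset V) (x : Finset V → Finset V → M) (S : Finset V) :
    Finset {x // x ∈ A} → M := fun ρ => x (ρ.map (Function.Embedding.subtype _)) S

lemma bd_rsC (A : Finset V) (x : Finset V → Finset V → M) (hx : ∀ σ, x σ ≠ 0 → σ ⊆ A)
    (S : Finset V) :
    bd (K := K) (rsC A x S) = rsC A (bd (K := K) x) S := by
  funext ρ
  rw [bd_apply, rsC, bd_apply, Finset.sum_apply]
  have h1 : ∑ v : V, (if v ∈ ρ.map (Function.Embedding.subtype (· ∈ A)) then (0 : Finset V → M)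
      else x (insert v (ρ.map (Function.Embedding.subtype (· ∈ A))))) S =
      ∑ v ∈ A, (if v ∈ ρ.map (Function.Embedding.subtype (· ∈ A)) then (0 : Finset V → M)
      else x (insert v (ρ.map (Function.Embedding.subtype (· ∈ A))))) S := by
    symm
    apply Finset.sum_subset (Finset.subset_univ _)
    intro v _ hv
    split_ifs
    · rfl
    · have : x (insert v (ρ.map (Function.Embedding.subtype (· ∈ A)))) = 0 := by
        by_contra hne
        exact hv (hx _ hne (mem_insert_self _ _))
      rw [this]; rfl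
  rw [h1, ← Finset.sum_attach A, Finset.univ_eq_attach]
  refine Finset.sum_congr rfl (fun v _ => ?_)
  have h2 : v.1 ∈ ρ.map (Function.Embedding.subtype (· ∈ A)) ↔ v ∈ ρ := by
    rw [Finset.mem_map]
    constructor
    · rintro ⟨a, ha, hav⟩
      have : a = v := Subtype.ext hav
      rwa [← this]
    · intro h; exact ⟨v, h, rfl⟩
  by_cases hv : v ∈ ρ
  · rw [if_pos hv, if_pos (h2.2 hv)]; rfl
  · rw [if_neg hv, if_neg (fun h => hv (h2.1 h)), rsC, Finset.map_insert]
    rfl

omit [Fintype V] in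
lemma cl_map {G : SimpleGraph V} {A : Finset V} {ρ : Finset {x // x ∈ A}} :
    Cl G (ρ.map (Function.Embedding.subtype (· ∈ A))) ↔ Cl (GI G A) ρ := by
  constructor
  · intro h a ha b hb hab
    exact h a.1 (Finset.mem_map.2 ⟨a, ha, rfl⟩) b.1 (Finset.mem_map.2 ⟨b, hb, rfl⟩)
      (fun h => hab (Subtype.ext h))
  · intro h a ha b hb hab
    obtain ⟨a', ha', rfl⟩ := Finset.mem_map.1 ha
    obtain ⟨b', hb', rfl⟩ := Finset.mem_map.1 hb
    exact h a' ha' b' hb' (fun h => hab (by rw [h]))

lemma extE_Ex {G : SimpleGraph V} {A : Finset V} {eA : {x // x ∈ A} → Module.End K M}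
    {i : ℕ} (h : Ex (GI G A) eA univ ∅ i) (τ : Finset V) (hτ : ∀ t ∈ τ, t ∉ A) :
    Ex G (extE A eA) A τ i := by
  intro x hx hbx
  have hxA : ∀ σ, x σ ≠ 0 → σ ⊆ A := fun σ hσ => (hx.2.2 σ hσ).1
  have hxτ : ∀ S, ¬ τ ⊆ S → ∀ σ, x σ S = 0 := by
    intro S hS σ
    obtain ⟨t, ht, htS⟩ := Finset.not_subset.1 hS
    exact (mem_SS_extE.1 (fun v hv => hx.1 σ v hv)).2 t ht (hτ t ht) S htS
  have hc : ∀ S, rsC A x S ∈ Ch (GI G A) eA univ ∅ i := by
    intro S
    refine ⟨fun ρ v hv => by simp at hv, fun ρ v hv => ?_, fun ρ hρ => ?_⟩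
    · have h1 := congrFun (hx.2.1 (ρ.map (Function.Embedding.subtype (· ∈ A))) v.1
        (Finset.mem_map.2 ⟨v, hv, rfl⟩)) S
      rw [extE_mem v.2] at h1
      exact h1
    · have h1 := hx.2.2 (ρ.map (Function.Embedding.subtype (· ∈ A))) (by
        intro h0; apply hρ; rw [rsC, h0]; rfl)
      refine ⟨Finset.subset_univ _, cl_map.1 h1.2.1, ?_⟩
      rw [← h1.2.2, Finset.card_map]
  have hb : ∀ S, bd (K := K) (rsC A x S) = 0 := by
    intro S
    rw [bd_rsC A x hxA, hbx]
    rfl
  have key : ∀ S, ∃ y ∈ Ch (GI G A) eA univ ∅ (i + 1), bd (K := K) y = rsC A x S ∧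
      (¬ τ ⊆ S → y = 0) := by
    intro S
    by_cases hS : τ ⊆ S
    · obtain ⟨y, hy, hyx⟩ := h _ (hc S) (hb S)
      exact ⟨y, hy, hyx, fun h => absurd hS h⟩
    · refine ⟨0, zero_mem _, ?_, fun _ => rfl⟩
      rw [map_zero]
      funext ρ
      exact (hxτ S hS _).symm
  choose y hy1 hy2 hy3 using key
  let Y : Finset V → Finset V → M := fun σ S => if σ ⊆ A then y S (σ.subtype (· ∈ A)) else 0
  have hYA : ∀ σ, Y σ ≠ 0 → σ ⊆ A := by
    intro σ hσ
    by_contra hne
    apply hσ
    funext S
    simp only [Y, if_neg hne]; rfl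
  have hYrs : ∀ S, rsC A Y S = y S := by
    intro S
    funext ρ
    have h1 : ρ.map (Function.Embedding.subtype (· ∈ A)) ⊆ A := by
      intro a ha
      obtain ⟨a', _, rfl⟩ := Finset.mem_map.1 ha
      exact a'.2
    simp only [rsC, Y]
    rw [if_pos h1]
    congr 1
    ext a
    rw [Finset.mem_subtype, Finset.mem_map]
    constructor
    · rintro ⟨b, hb, hba⟩
      have : b = a := Subtype.ext hba
      rwa [← this]
    · intro ha; exact ⟨a, ha, rfl⟩
  have hsub : ∀ σ : Finset V, σ ⊆ A →
      (σ.subtype (· ∈ A)).map (Function.Embedding.subtype (· ∈ A)) = σ := by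
    intro σ hσ
    rw [Finset.subtype_map]
    exact Finset.filter_true_of_mem hσ
  refine ⟨Y, ⟨fun σ v hv => ?_, fun σ v hv => ?_, fun σ hσ => ?_⟩, ?_⟩
  · funext S
    rw [extE_not_mem (hτ v hv)]
    split_ifs with hvS
    · simp only [Y]
      rw [hy3 _ (fun h => Finset.notMem_erase v S (h hv))]
      split_ifs <;> rfl
    · rfl
  · funext S
    by_cases hσ : σ ⊆ A
    · rw [extE_mem (hσ hv)]
      simp only [Y, if_pos hσ]
      exact (hy1 S).2.1 _ _ (Finset.mem_subtype.2 hv)
    · have : Y σ = 0 := by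
        by_contra h; exact hσ (hYA σ h)
      rw [this, map_zero]
  · obtain ⟨S, hS⟩ := Function.ne_iff.1 hσ
    have h1 := hYA σ hσ
    simp only [Y, if_pos h1] at hS
    have h2 := (hy1 S).2.2 _ hS
    refine ⟨h1, ?_, ?_⟩
    · rw [← hsub σ h1, cl_map]; exact h2.2.1
    · rw [← hsub σ h1, Finset.card_map]; exact h2.2.2
  · funext σ S
    by_cases hσ : σ ⊆ A
    · have h1 := congrFun (bd_rsC (K := K) A Y hYA S) (σ.subtype (· ∈ A))
      rw [hYrs, hy2] at h1
      simp only [rsC] at h1
      rw [hsub σ hσ] at h1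
      exact h1.symm
    · have hx0 : x σ = 0 := by by_contra h; exact hσ (hxA σ h)
      rw [hx0, bd_apply]
      rw [Finset.sum_apply]
      apply Finset.sum_eq_zero
      intro v _
      split_ifs
      · rfl
      · have : Y (insert v σ) = 0 := by
          by_contra h; exact hσ ((subset_insert _ _).trans (hYA _ h))
        rw [this]; rfl

end

end H162.CD
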