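import Pool.Agent.H162.CD.Bridge

/-! The final form (helper162). -/

namespace H162.CD

open Finset Classical Module H162.CDS

attribute [-instance] Subtype.instDecidableEq

lemma cl_iff {V : Type} {G : SimpleGraph V} {σ : Finset V} :
    Cl G σ ↔ G.IsClique (σ : Set V) := by
  constructor
  · intro h a ha b hb hab
    exact h a ha b hb hab
  · intro h a ha b hb hab
    exact h ha hb hab

lemma lk_iff {V : Type} [Fintype V] {G : SimpleGraph V} {σ : Finset V} (x : V) :
    x ∈ Lk G σ ↔ x ∈ link G σ := by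
  rw [mem_Lk]
  exact forall₂_congr (fun t _ => G.adj_comm x t)

lemma isChain_iff {V : Type} [Fintype V] {G : SimpleGraph V} {σ : Finset V} {i : ℕ}
    {z : Finset V → ZMod 2} :
    CD.IsChain G (Lk G σ) i z ↔ CDS.IsChain G (link G σ) i z := by
  refine forall₂_congr (fun ρ _ => ?_)
  rw [cl_iff]
  have : ρ ⊆ Lk G σ ↔ (ρ : Set V) ⊆ link G σ := by
    constructor
    · intro h x hx; exact (lk_iff x).1 (h hx)
    · intro h x hx; exact (lk_iff x).2 (h hx)
  rw [this]

lemma bdry_boundary {V : Type} [Fintype V] [DecidableEq V] (z : Finset V → ZMod 2) :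
    bdry z = boundary z := by
  funext ρ
  rw [bdry, boundary]
  refine Finset.sum_congr ?_ (fun v _ => ?_)
  · ext v; simp
  · congr 1
    ext w; simp

theorem sphere_of {V : Type} [Fintype V] [DecidableEq V] {G : SimpleGraph V} {n : ℕ}
    (h : IsFlagSphere G n) : F2Sphere G n := by
  refine ⟨fun σ hσ => h.dim σ (cl_iff.1 hσ), fun σ hσ i hi z hz hbz => ?_, fun σ hσ => ?_⟩
  · obtain ⟨y, hy, hyz⟩ := h.acyclic σ (cl_iff.1 hσ) i hi z (isChain_iff.1 hz)
      (by rw [← bdry_boundary]; exact hbz)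
    exact ⟨y, isChain_iff.2 hy, by rw [bdry_boundary]; exact hyz⟩
  · obtain ⟨z, ⟨h1, h2, h3⟩, h4⟩ := h.top σ (cl_iff.1 hσ)
    refine ⟨z, ⟨h1, isChain_iff.2 h2, by rw [bdry_boundary]; exact h3⟩, ?_⟩
    rintro y ⟨g1, g2, g3⟩
    exact h4 y ⟨g1, isChain_iff.1 g2, by rw [← bdry_boundary]; exact g3⟩

theorem charneyDavis_reducible {V : Type} [Fintype V] [DecidableEq V] (G : SimpleGraph V)
    [DecidableRel G.Adj] (m : ℕ) (hS : IsFlagSphere G (2 * m))
    (hL : ∀ σ : Finset V, G.IsClique (σ : Set V) → Odd σ.card →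
      Reducible (G.induce (link G σ))) :
    0 ≤ (-1 : ℚ) ^ m * ∑ i ∈ range (2 * m + 1),
      (-1 / 2 : ℚ) ^ i * ((G.cliqueFinset i).card : ℚ) := by
  have h := charneyDavis (AlgebraicClosure (ZMod 2)) (sphere_of hS) (fun τ hτ ho =>
    TA_of_induce (K := AlgebraicClosure (ZMod 2)) lk_iff
      (reducible_TA (hL τ (cl_iff.1 hτ) ho)))
  have h2 : ∑ i ∈ range (2 * m + 1), (-1 / 2 : ℚ) ^ i * ((G.cliqueFinset i).card : ℚ) =
      ∑ σ ∈ (univ : Finset (Finset V)).filter (fun σ : Finset V => Cl G σ),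
        (-1 / 2 : ℚ) ^ (Finset.card σ) := by
    rw [← Finset.sum_fiberwise_of_maps_to
      (s := (univ : Finset (Finset V)).filter (fun σ : Finset V => Cl G σ))
      (t := range (2 * m + 1)) (g := fun σ : Finset V => Finset.card σ)]
    · refine Finset.sum_congr rfl (fun i _ => ?_)
      rw [Finset.filter_filter, mul_comm, ← nsmul_eq_mul, ← Finset.sum_const]
      refine Finset.sum_congr ?_ (fun σ hσ => ?_)
      · ext σ
        simp only [SimpleGraph.mem_cliqueFinset_iff, SimpleGraph.isNClique_iff, mem_filter,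
          mem_univ, true_and, cl_iff]
      · rw [mem_filter] at hσ
        rw [hσ.2.2]
    · intro σ hσ
      rw [mem_filter] at hσ
      rw [mem_range]
      have := hS.dim σ (cl_iff.1 hσ.2)
      omega
  rw [h2]
  exact h

end H162.CD
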