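import Pool.Agent.H162.CD.Dual
import Pool.Agent.H162.CD.Euler

/-! The Charney-Davis inequality when the odd links are `T`-acyclic (helper162). -/

namespace H162.CD

open Finset Classical Module

noncomputable section

attribute [-instance] Subtype.instDecidableEq

variable {V : Type*} [Fintype V]
variable {K : Type*} [Field K]

section pairing

variable {ι : Type*} [Fintype ι]

/-- the trace pairing -/
def pairing (K : Type*) [Field K] (ι : Type*) [Fintype ι] :
    (ι → ι → K) →ₗ[K] Module.Dual K (ι → ι → K) where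
  toFun y :=
    { toFun := fun x => ∑ j, ∑ i, x j i * y i j
      map_add' := by
        intro a b
        simp only [Pi.add_apply, add_mul, Finset.sum_add_distrib]
      map_smul' := by
        intro c a
        simp only [Pi.smul_apply, smul_eq_mul, RingHom.id_apply, Finset.mul_sum, mul_assoc] }
  map_add' := by
    intro a b
    ext x
    simp only [LinearMap.coe_comp, LinearMap.coe_mk, AddHom.coe_mk, Function.comp_apply,
      Pi.add_apply, mul_add, Finset.sum_add_distrib, LinearMap.add_apply]
  map_smul' := by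
    intro c a
    ext x
    simp only [LinearMap.coe_comp, LinearMap.coe_mk, AddHom.coe_mk, Function.comp_apply,
      Pi.smul_apply, smul_eq_mul, RingHom.id_apply, LinearMap.smul_apply, Finset.mul_sum]
    refine Finset.sum_congr rfl (fun j _ => Finset.sum_congr rfl (fun i _ => ?_))
    ring

lemma pairing_apply (x y : ι → ι → K) :
    pairing K ι y x = ∑ j, ∑ i, x j i * y i j := rfl

lemma pairing_comm (x y : ι → ι → K) : pairing K ι y x = pairing K ι x y := by
  rw [pairing_apply, pairing_apply, Finset.sum_comm]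
  refine Finset.sum_congr rfl (fun j _ => Finset.sum_congr rfl (fun i _ => ?_))
  ring

lemma pairing_inj : Function.Injective (pairing K ι) := by
  rw [← LinearMap.ker_eq_bot, LinearMap.ker_eq_bot']
  intro y hy
  funext i j
  have h := congrArg (fun f => f (Pi.single j (Pi.single i 1))) hy
  simp only [LinearMap.zero_apply] at h
  rw [pairing_apply] at h
  rw [Finset.sum_eq_single j, Finset.sum_eq_single i] at h
  · simpa using h
  · intro b _ hb
    simp [Pi.single_eq_of_ne hb]
  · intro h; exact absurd (mem_univ _) h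
  · intro b _ hb
    apply Finset.sum_eq_zero
    intro i' _
    rw [Pi.single_eq_of_ne hb]
    simp
  · intro h; exact absurd (mem_univ _) h

/-- the identification with the dual -/
def pairingE (K : Type*) [Field K] (ι : Type*) [Fintype ι] :
    (ι → ι → K) ≃ₗ[K] Module.Dual K (ι → ι → K) :=
  LinearEquiv.ofInjectiveOfFinrankEq (pairing K ι) pairing_inj
    (by rw [Subspace.dual_finrank_eq])

lemma pairingE_apply (x y : ι → ι → K) : pairingE K ι y x = pairing K ι y x := rfl

/-- transposed family -/
def tr (e : V → Module.End K (ι → K)) : V → Module.End K (ι → K) :=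
  fun v => Matrix.toLin' (LinearMap.toMatrix' (e v)).transpose

lemma toMatrix_sq {G : SimpleGraph V} {e : V → Module.End K (ι → K)} (h : IsRep G e) (v : V) :
    LinearMap.toMatrix' (e v) * LinearMap.toMatrix' (e v) = 0 := by
  rw [← LinearMap.toMatrix'_mul]
  have : e v * e v = 0 := by
    ext1 x
    exact LinearMap.ext (fun y => h.sq v _)
  rw [this, map_zero]

lemma toMatrix_comm {G : SimpleGraph V} {e : V → Module.End K (ι → K)} (h : IsRep G e) (u v : V)
    (huv : G.Adj u v) :
    LinearMap.toMatrix' (e u) * LinearMap.toMatrix' (e v) =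
      LinearMap.toMatrix' (e v) * LinearMap.toMatrix' (e u) := by
  rw [← LinearMap.toMatrix'_mul, ← LinearMap.toMatrix'_mul]
  have : e u * e v = e v * e u := LinearMap.ext (fun y => h.comm u v huv y)
  rw [this]

lemma tr_rep {G : SimpleGraph V} {e : V → Module.End K (ι → K)} (h : IsRep G e) :
    IsRep G (tr e) := by
  refine ⟨fun v x => ?_, fun u v huv x => ?_⟩
  · rw [tr, Matrix.toLin'_apply, Matrix.toLin'_apply, Matrix.mulVec_mulVec,
      ← Matrix.transpose_mul, toMatrix_sq h]
    simp
  · rw [tr, tr, Matrix.toLin'_apply, Matrix.toLin'_apply, Matrix.toLin'_apply,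
      Matrix.toLin'_apply, Matrix.mulVec_mulVec, Matrix.mulVec_mulVec,
      ← Matrix.transpose_mul, ← Matrix.transpose_mul, toMatrix_comm h u v huv]

/-- right multiplication -/
def RM (e : V → Module.End K (ι → K)) : V → Module.End K (ι → ι → K) :=
  cj (swapE K ι ι) (pw ι (tr e))

lemma pairing_adj (e : V → Module.End K (ι → K)) (v : V) (x y : ι → ι → K) :
    pairing K ι y (pw ι e v x) = pairing K ι (RM e v y) x := by
  rw [pairing_apply, pairing_apply]
  have h1 : ∀ j i, pw ι e v x j i = ∑ k, LinearMap.toMatrix' (e v) i k * x j k := by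
    intro j i
    rw [pw_apply]
    have := congrFun (LinearMap.toMatrix'_mulVec (e v) (x j)) i
    rw [← this]
    rfl
  have h2 : ∀ k j, RM e v y k j = ∑ i, LinearMap.toMatrix' (e v) i k * y i j := by
    intro k j
    rw [RM, cj_apply]
    change (tr e v (fun i => y i j)) k = _
    rw [tr, Matrix.toLin'_apply]
    rfl
  refine Finset.sum_congr rfl (fun j _ => ?_)
  simp only [h1, h2, Finset.sum_mul, Finset.mul_sum]
  rw [Finset.sum_comm]
  refine Finset.sum_congr rfl (fun i _ => Finset.sum_congr rfl (fun k _ => ?_))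
  ring

lemma pairing_adj' (e : V → Module.End K (ι → K)) (v : V) (x y : ι → ι → K) :
    pairing K ι y (RM e v x) = pairing K ι (pw ι e v y) x := by
  rw [pairing_comm, ← pairing_adj, pairing_comm]

lemma dual_es (e : V → Module.End K (ι → K)) {s : K} (hs : s ≠ 0) :
    (fun v => s • es (pw ι e) (RM e) s⁻¹ v) =
      cj (pairingE K ι).symm (dual (es (pw ι e) (RM e) s)) := by
  funext v
  apply LinearMap.ext
  intro y
  rw [cj_apply, LinearEquiv.symm_symm]
  rw [LinearEquiv.eq_symm_apply]
  apply LinearMap.ext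
  intro x
  rw [dual_apply, pairingE_apply, pairingE_apply, es_apply, map_add, map_smul,
    pairing_adj, pairing_adj', LinearMap.smul_apply, es_apply, smul_add, smul_smul,
    mul_inv_cancel₀ hs, one_smul, map_add, map_smul, LinearMap.add_apply, LinearMap.smul_apply,
    add_comm]

end pairing

/-- The Charney-Davis inequality for a flag `F₂`-homology sphere all of whose odd links are
`T`-acyclic. -/
theorem charneyDavis (K : Type*) [Field K] [CharP K 2] [Infinite K] {G : SimpleGraph V} {m : ℕ}
    (hS : F2Sphere G (2 * m))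
    (hL : ∀ τ, Cl G τ → Odd τ.card → TA K (GI G (Lk G τ))) :
    0 ≤ (-1 : ℚ) ^ m * ∑ σ ∈ (univ : Finset (Finset V)).filter (fun σ => Cl G σ),
      (-1 / 2 : ℚ) ^ σ.card := by
  obtain ⟨a, ha, e0, r0, B0, X0⟩ := common (K := K) G
    (((univ : Finset (Finset V)).filter (fun τ => Cl G τ ∧ Odd τ.card)).image
      (fun τ => (Lk G τ, τ))) (by
      intro p hp
      rw [Finset.mem_image] at hp
      obtain ⟨τ, hτ, rfl⟩ := hp
      rw [Finset.mem_filter] at hτ
      exact ⟨hτ.2.1, subset_rfl, hL τ hτ.2.1 hτ.2.2⟩)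
  have X1 : ∀ τ, Cl G τ → Odd τ.card → ∀ i, Ex G e0 (Lk G τ) τ i := by
    intro τ hτ ho i
    exact X0 (Lk G τ, τ) (Finset.mem_image.2 ⟨τ, Finset.mem_filter.2 ⟨mem_univ _, hτ, ho⟩, rfl⟩) i
  have hne : Nonempty (Fin a) := ⟨⟨0, ha⟩⟩
  have r1 : IsRep G (pw (Fin a) e0) := pw_rep r0
  have r2 : IsRep G (RM e0) := cj_rep _ (pw_rep (tr_rep r0))
  have hc : ∀ u v x, pw (Fin a) e0 u (RM e0 v x) = RM e0 v (pw (Fin a) e0 u x) :=
    fun u v x => commute_pair e0 (tr e0) u v x
  obtain ⟨B, hBf, hB⟩ := pert1 r1 r2 hc (pw_bal B0)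
  obtain ⟨s, hs⟩ := ((hBf.union (hBf.image (fun t => t⁻¹))).union
    (Set.finite_singleton (0 : K))).infinite_compl.nonempty
  rw [Set.mem_compl_iff, Set.mem_union, Set.mem_union, not_or, not_or] at hs
  obtain ⟨⟨hs1, hs2⟩, hs3⟩ := hs
  have hs0 : s ≠ 0 := by simpa using hs3
  have hs4 : s⁻¹ ∉ B := by
    intro h
    exact hs2 ⟨s⁻¹, h, inv_inv s⟩
  have key : ∀ t ∉ B, ∀ i, m < i → Ex G (es (pw (Fin a) e0) (RM e0) t) univ ∅ i := by
    intro t ht i hi
    have hodd : ∀ τ, Cl G τ → Odd (2 * m - τ.card) → ∀ i, (2 * m - τ.card) / 2 < i →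
        Ex G (es (pw (Fin a) e0) (RM e0) t) (Lk G τ) τ i := by
      intro τ hτ ho i _
      apply (hB t ht).2 _ _ _ hτ subset_rfl
      apply pw_Ex
      apply X1 τ hτ
      have hle := hS.dim τ hτ
      rcases Nat.even_or_odd τ.card with h | h
      · exfalso
        obtain ⟨k, hk⟩ := h
        obtain ⟨l, hl⟩ := ho
        omega
      · exact h
    apply upper G _ (2 * m) hS.dim hodd (2 * m) ∅ (cl_empty G) (by simp) univ
      (by rw [Lk_empty]) i
    omega
  have rs : ∀ t, IsRep G (es (pw (Fin a) e0) (RM e0) t) := fun t => es_rep r1 r2 hc t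
  have hlow : ∀ j, j < m → Ex G (es (pw (Fin a) e0) (RM e0) s⁻¹) univ ∅ j := by
    intro j hj
    have h1 := PDual hS (rs s) (hB s hs1).1 (key s hs1) (show j + m < 2 * m by omega)
    have h2 := cj_Ex (pairingE K (Fin a)).symm h1
    rw [← dual_es e0 hs0, Ex_smul hs0] at h2
    exact h2
  apply euler_nonneg (rs s⁻¹) (hB s⁻¹ hs4).1 m
  intro i hi
  rcases lt_or_gt_of_ne hi with h | h
  · exact hlow i h
  · exact key s⁻¹ hs4 i h

end

end H162.CD
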