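import Pool.Agent.H162.CD.Stair

namespace H162.CD

open Finset Classical Module

noncomputable section

attribute [-instance] Subtype.instDecidableEq

variable {V : Type*} [Fintype V]

lemma row_one {W : Type*} [AddCommGroup W] [Module (ZMod 2) W] {G : SimpleGraph V}
    {σ : Finset V} (hσ : Cl G σ) (q : ℕ) (hq : σ.card ≤ q) (x : Finset V → W)
    (hx : ∀ τ, x τ ≠ 0 → σ ⊆ τ ∧ Cl G τ ∧ τ.card = q)
    (hz : ∀ z, IsChain G (Lk G σ) (q - σ.card) z → bdry z = 0 →
      pr2 (fun ρ => if ρ ⊆ Lk G σ then x (σ ∪ ρ) else 0) z = 0) :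
    ∃ y : Finset V → W, (∀ τ, y τ ≠ 0 → σ ⊆ τ ∧ Cl G τ ∧ τ.card = q - 1) ∧
      ∀ τ, (∑ v, if (Cl G τ ∧ σ ⊆ τ) ∧ v ∈ τ ∧ v ∉ σ then y (τ.erase v) else 0) = x τ := by
  set c : Finset V → W := fun ρ => if ρ ⊆ Lk G σ then x (σ ∪ ρ) else 0 with hc
  rcases Nat.eq_zero_or_pos (q - σ.card) with h0 | h0
  · -- `q = |σ|`
    have hqe : q = σ.card := by omega
    have h1 : pr2 c (Pi.single ∅ 1) = 0 := by
      apply hz
      · intro ρ hρ
        have : ρ = ∅ := by
          by_contra hne
          exact hρ (Pi.single_eq_of_ne hne _)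
        rw [this]
        exact ⟨Finset.empty_subset _, cl_empty G, by simp [h0]⟩
      · rw [bdry_eq, bd_single]; simp
    rw [pr2_single] at h1
    have h2 : x σ = 0 := by
      simp only [hc] at h1
      rw [if_pos (Finset.empty_subset _), Finset.union_empty] at h1
      exact h1
    have hx0 : ∀ τ, x τ = 0 := by
      intro τ
      by_contra hne
      obtain ⟨a1, a2, a3⟩ := hx τ hne
      have : σ = τ := Finset.eq_of_subset_of_card_le a1 (by omega)
      rw [← this] at hne
      exact hne h2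
    refine ⟨0, fun τ h => absurd rfl h, fun τ => ?_⟩
    rw [hx0 τ]
    apply Finset.sum_eq_zero
    intro v _
    split_ifs <;> rfl
  · obtain ⟨k, hk⟩ : ∃ k, q - σ.card = k + 1 := ⟨q - σ.card - 1, by omega⟩
    rw [hk] at hz
    obtain ⟨c', hc1, hc2⟩ := row_factor c hz
    have hsup : ∀ τ, σ ⊆ τ → c' (τ \ σ) ≠ 0 → Cl G τ ∧ τ.card = q - 1 := by
      intro τ hστ hne
      obtain ⟨a1, a2, a3⟩ := hc1 _ hne
      have h5 : σ ∪ (τ \ σ) = τ := Finset.union_sdiff_of_subset hστ
      refine ⟨?_, ?_⟩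
      · rw [← h5]; exact cl_union_Lk hσ a1 (Finset.Subset.refl _) a2
      · have := Finset.card_sdiff_add_card_eq_card hστ
        omega
    refine ⟨fun τ => if σ ⊆ τ then c' (τ \ σ) else 0, fun τ hτ => ?_, fun τ => ?_⟩
    · by_cases hs : σ ⊆ τ
      · dsimp only at hτ
        rw [if_pos hs] at hτ
        exact ⟨hs, hsup τ hs hτ⟩
      · exact absurd (if_neg hs) hτ
    · by_cases hτ : (Cl G τ ∧ σ ⊆ τ) ∧ τ.card = q
      · obtain ⟨⟨t1, t2⟩, t3⟩ := hτ
        have hρL : τ \ σ ⊆ Lk G σ := by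
          intro w hw
          rw [Finset.mem_sdiff] at hw
          rw [mem_Lk]
          intro t ht
          exact t1 w hw.1 t (t2 ht) (by rintro rfl; exact hw.2 ht)
        have h5 : σ ∪ (τ \ σ) = τ := Finset.union_sdiff_of_subset t2
        have hcard := Finset.card_sdiff_add_card_eq_card t2
        have h6 := hc2 (τ \ σ) hρL (t1.mono Finset.sdiff_subset) (by omega)
        have h7 : c (τ \ σ) = x τ := by
          simp only [hc]
          rw [if_pos hρL, h5]
        rw [← h7, h6, ← Finset.sum_filter]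
        have h8 : (univ : Finset V).filter (fun v => (Cl G τ ∧ σ ⊆ τ) ∧ v ∈ τ ∧ v ∉ σ) =
            τ \ σ := by
          ext v
          simp only [Finset.mem_filter, Finset.mem_univ, true_and, Finset.mem_sdiff]
          exact ⟨fun h => h.2, fun h => ⟨⟨t1, t2⟩, h⟩⟩
        rw [h8]
        refine Finset.sum_congr rfl (fun v hv => ?_)
        rw [Finset.mem_sdiff] at hv
        have h9 : σ ⊆ τ.erase v := by
          intro a ha
          exact Finset.mem_erase.2 ⟨by rintro rfl; exact hv.2 ha, t2 ha⟩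
        dsimp only
        rw [if_pos h9, Finset.erase_sdiff_comm]
      · have hx0 : x τ = 0 := by
          by_contra hne
          obtain ⟨a1, a2, a3⟩ := hx τ hne
          exact hτ ⟨⟨a2, a1⟩, a3⟩
        rw [hx0]
        apply Finset.sum_eq_zero
        intro v _
        dsimp only
        split_ifs with h1 h2
        · by_contra hne
          have := (hsup _ h2 hne).2
          rw [Finset.card_erase_of_mem h1.2.1] at this
          apply hτ
          refine ⟨h1.1, ?_⟩
          have : 0 < τ.card := Finset.card_pos.2 ⟨v, h1.2.1⟩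
          omega
        · rfl
        · rfl

universe u

variable {K : Type*} [Field K] [CharP K 2]
variable {N : Type u} [AddCommGroup N] [Module K N]

/-- rows: general form -/
lemma row_gen {G : SimpleGraph V} {e : V → Module.End K N} (p q : ℕ)
    (x : Finset V → Finset V → N) (hx : x ∈ DD G e p q)
    (hz : ∀ σ, Cl G σ → σ.card = p → p ≤ q → ∀ (W : Type u) [AddCommGroup W] [Module (ZMod 2) W]
      (c : Finset V → W), (∀ τ, x σ τ = 0 → c τ = 0) → 
      (∀ τ, (∑ v, if (Cl G τ ∧ σ ⊆ τ) ∧ v ∈ τ ∧ v ∉ σ then x σ (τ.erase v) else 0) = 0 → 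
        (∑ v, if (Cl G τ ∧ σ ⊆ τ) ∧ v ∈ τ ∧ v ∉ σ then c (τ.erase v) else 0) = 0) →
      ((∑ τ, x σ τ) = 0 → (∑ τ, c τ) = 0) →
      ∀ z, IsChain G (Lk G σ) (q - σ.card) z → bdry z = 0 →
      pr2 (fun ρ => if ρ ⊆ Lk G σ then c (σ ∪ ρ) else 0) z = 0) :
    ∃ y ∈ DD G e p (q - 1), dlh G N y = x := by
  obtain ⟨h1, h2⟩ := hx
  have key : ∀ σ, ∃ y : Finset V → N, (∀ τ, y τ ≠ 0 → σ ⊆ τ ∧ Cl G τ ∧ σ.card = p ∧
      τ.card = q - 1) ∧ (∀ τ, y τ ∈ SS e σ) ∧
      ∀ τ, (∑ v, if (Cl G τ ∧ σ ⊆ τ) ∧ v ∈ τ ∧ v ∉ σ then y (τ.erase v) else 0) = x σ τ := by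
    intro σ
    by_cases hσ : ∀ τ, x σ τ = 0
    · refine ⟨0, fun τ h => absurd rfl h, fun τ => zero_mem _, fun τ => ?_⟩
      rw [hσ τ]
      apply Finset.sum_eq_zero
      intro v _
      split_ifs <;> rfl
    · push Not at hσ
      obtain ⟨τ0, hτ0⟩ := hσ
      obtain ⟨b1, b2, b3, b4⟩ := h1 σ τ0 hτ0
      have hcl : Cl G σ := b2.mono b1
      have hpq : p ≤ q := by rw [← b3, ← b4]; exact Finset.card_le_card b1
      letI : Module (ZMod 2) (SS e σ) := AddCommGroup.zmodModule (fun w => by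
        rw [two_nsmul]; exact add_self2 K w)
      let c : Finset V → SS e σ := fun τ => ⟨x σ τ, h2 σ τ⟩
      have hcz : ∀ τ, x σ τ = 0 → c τ = 0 := fun τ h => Subtype.ext h
      obtain ⟨y, hy1, hy2⟩ := row_one hcl q (by rw [b3]; exact hpq) c
        (fun τ hτ => by
          have := h1 σ τ (fun h => hτ (hcz τ h))
          exact ⟨this.1, this.2.1, this.2.2.2⟩)
        (hz σ hcl b3 hpq (SS e σ) c hcz (fun τ hτ => by
          apply Subtype.ext
          rw [Submodule.coe_zero]
          refine Eq.trans ?_ hτ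
          rw [AddSubmonoidClass.coe_finset_sum]
          refine Finset.sum_congr rfl (fun v _ => ?_)
          split_ifs <;> rfl) (fun hs => by
          apply Subtype.ext
          rw [Submodule.coe_zero]
          refine Eq.trans ?_ hs
          rw [AddSubmonoidClass.coe_finset_sum]))
      refine ⟨fun τ => (y τ : N), fun τ hτ => ?_, fun τ => (y τ).2, fun τ => ?_⟩
      · have := hy1 τ (fun h => hτ (by show (y τ : N) = 0; rw [h]; rfl))
        exact ⟨this.1, this.2.1, b3, this.2.2⟩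
      · have h3 := congrArg (fun w : SS e σ => (w : N)) (hy2 τ)
        refine Eq.trans ?_ h3
        rw [AddSubmonoidClass.coe_finset_sum]
        refine Finset.sum_congr rfl (fun v _ => ?_)
        split_ifs <;> rfl
  choose y hy1 hy2 hy3 using key
  refine ⟨y, ⟨hy1, hy2⟩, ?_⟩
  funext σ τ
  rw [dlh_apply]
  exact hy3 σ τ

/-- rows are exact below the top -/
lemma row_exact {G : SimpleGraph V} {n : ℕ} (hS : F2Sphere G n) {e : V → Module.End K N}
    (p q : ℕ) (x : Finset V → Finset V → N) (hq : q < n) (hx : x ∈ DD G e p q)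
    (hb : dlh G N x = 0) : ∃ y ∈ DD G e p (q - 1), dlh G N y = x := by
  apply row_gen p q x hx
  intro σ hσ hp hpq W _ _ c hc1 hc2 _
  apply RowEx hS hσ (by omega)
  intro ρ r1 r2 r3
  have hd : Disjoint σ ρ := by
    rw [Finset.disjoint_left]
    intro w hw hwρ
    exact not_mem_of_mem_Lk (r1 hwρ) hw
  have h3 := hc2 (σ ∪ ρ) (by
    have := congrFun (congrFun hb σ) (σ ∪ ρ)
    rw [dlh_apply] at this
    exact this)
  refine Eq.trans ?_ h3
  conv_rhs => rw [← Finset.sum_filter]
  have h8 : (univ : Finset V).filter (fun v => (Cl G (σ ∪ ρ) ∧ σ ⊆ σ ∪ ρ) ∧ v ∈ σ ∪ ρ ∧ v ∉ σ) =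
      ρ := by
    ext v
    simp only [Finset.mem_filter, Finset.mem_univ, true_and, Finset.mem_union]
    constructor
    · rintro ⟨_, h, h'⟩
      exact h.resolve_left h'
    · intro h
      exact ⟨⟨cl_union_Lk hσ r1 (Finset.Subset.refl _) r2, Finset.subset_union_left⟩, Or.inr h,
        fun h' => (Finset.disjoint_left.1 hd h') h⟩
  rw [h8]
  refine Finset.sum_congr rfl (fun v hv => ?_)
  have hvσ : v ∉ σ := fun h' => (Finset.disjoint_left.1 hd h') hv
  rw [if_pos ((Finset.erase_subset _ _).trans r1)]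
  congr 1
  ext w
  simp only [Finset.mem_union, Finset.mem_erase]
  constructor
  · rintro (h | h)
    · exact ⟨by rintro rfl; exact hvσ h, Or.inl h⟩
    · exact ⟨h.1, Or.inr h.2⟩
  · rintro ⟨h, h' | h'⟩
    · exact Or.inl h'
    · exact Or.inr ⟨h, h'⟩

/-- exactness at the top of a row -/
lemma row_top {G : SimpleGraph V} {n : ℕ} (hS : F2Sphere G n) {e : V → Module.End K N}
    (p : ℕ) (x : Finset V → Finset V → N) (hx : x ∈ DD G e p n)
    (hb : ∀ σ, ∑ τ, x σ τ = 0) : ∃ y ∈ DD G e p (n - 1), dlh G N y = x := by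
  apply row_gen p n x hx
  intro σ hσ hp hpq W _ _ c hc1 _ hc3 z hz hbz
  rcases top_cycle hS hσ hz hbz with h0 | h0
  · rw [h0, map_zero]
  · rw [h0, pr2_apply]
    have h1 := hc3 (hb σ)
    -- compare the two sums
    have h2 : ∑ τ, c τ = ∑ ρ ∈ (univ : Finset (Finset V)).filter (fun ρ => ρ ⊆ Lk G σ ∧
        Cl G ρ ∧ ρ.card = n - σ.card), c (σ ∪ ρ) := by
      symm
      apply Finset.sum_bij_ne_zero (fun ρ _ _ => σ ∪ ρ)
      · intro ρ _ _; exact Finset.mem_univ _
      · intro ρ hρ _ ρ' hρ' _ heq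
        rw [Finset.mem_filter] at hρ hρ'
        have d1 : ρ = (σ ∪ ρ) \ σ := by
          ext w
          rw [Finset.mem_sdiff, Finset.mem_union]
          constructor
          · intro h; exact ⟨Or.inr h, not_mem_of_mem_Lk (hρ.2.1 h)⟩
          · rintro ⟨h, h'⟩; exact h.resolve_left h'
        have d2 : ρ' = (σ ∪ ρ') \ σ := by
          ext w
          rw [Finset.mem_sdiff, Finset.mem_union]
          constructor
          · intro h; exact ⟨Or.inr h, not_mem_of_mem_Lk (hρ'.2.1 h)⟩
          · rintro ⟨h, h'⟩; exact h.resolve_left h'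
        rw [d1, d2, heq]
      · intro τ _ hτ
        have hxτ : x σ τ ≠ 0 := fun h => hτ (hc1 τ h)
        obtain ⟨a1, a2, a3, a4⟩ := hx.1 σ τ hxτ
        have h5 : σ ∪ (τ \ σ) = τ := Finset.union_sdiff_of_subset a1
        refine ⟨τ \ σ, ?_, ?_, h5⟩
        · rw [Finset.mem_filter]
          refine ⟨Finset.mem_univ _, ?_, a2.mono Finset.sdiff_subset, ?_⟩
          · intro w hw
            rw [Finset.mem_sdiff] at hw
            rw [mem_Lk]
            intro t ht
            exact a2 w hw.1 t (a1 ht) (by rintro rfl; exact hw.2 ht)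
          · have := Finset.card_sdiff_add_card_eq_card a1
            omega
        · rw [h5]; exact hτ
      · intro ρ _ _; rfl
    rw [h2] at h1
    refine Eq.trans ?_ h1
    rw [Finset.sum_filter]
    refine Finset.sum_congr rfl (fun ρ _ => ?_)
    by_cases hρ : ρ ⊆ Lk G σ ∧ Cl G ρ ∧ ρ.card = n - σ.card
    · rw [if_pos hρ, if_pos hρ, if_pos hρ.1, one_smul]
    · rw [if_neg hρ, if_neg hρ, zero_smul]

/-- total sum over the facets -/
def eps' (x : Finset V → Finset V → N) : Finset V → N := fun σ => ∑ τ, x σ τ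

lemma eps_mem {G : SimpleGraph V} {e : V → Module.End K N} {p q : ℕ}
    {x : Finset V → Finset V → N} (hx : x ∈ DD G e p q) : eps' x ∈ Ch G e univ ∅ p := by
  refine ⟨fun σ v hv => by simp at hv, fun σ v hv => ?_, fun σ hσ => ?_⟩
  · rw [eps', map_sum]
    apply Finset.sum_eq_zero
    intro τ _
    exact hx.2 σ τ v hv
  · rw [eps'] at hσ
    obtain ⟨τ, _, hτ⟩ := Finset.exists_ne_zero_of_sum_ne_zero hσ
    have := hx.1 σ τ hτ
    exact ⟨Finset.subset_univ _, this.2.1.mono this.1, this.2.2.1⟩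

lemma bd_eps {G : SimpleGraph V} {e : V → Module.End K N} {p q : ℕ}
    {x : Finset V → Finset V → N} (hx : x ∈ DD G e p q) :
    bd (K := K) (eps' x) = eps' (ptv V N x) := by
  funext σ
  rw [bd_apply, eps']
  have h1 : ∀ v : V, (if v ∈ σ then (0 : N) else eps' x (insert v σ)) =
      ∑ τ, (if v ∈ τ ∧ v ∉ σ then x (insert v σ) τ else 0) := by
    intro v
    by_cases hv : v ∈ σ
    · rw [if_pos hv]
      symm
      apply Finset.sum_eq_zero
      intro τ _
      rw [if_neg (by tauto)]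
    · rw [if_neg hv, eps']
      refine Finset.sum_congr rfl (fun τ _ => ?_)
      by_cases hvτ : v ∈ τ
      · rw [if_pos ⟨hvτ, hv⟩]
      · rw [if_neg (by tauto)]
        by_contra hne
        exact hvτ ((hx.1 _ _ hne).1 (mem_insert_self _ _))
  rw [Finset.sum_congr rfl (fun v _ => h1 v), Finset.sum_comm]
  rfl

lemma eps_dlh {G : SimpleGraph V} {n : ℕ} (hS : F2Sphere G n) (hn : 0 < n)
    {e : V → Module.End K N} {p : ℕ}
    {z : Finset V → Finset V → N} (hz : z ∈ DD G e p (n - 1)) : eps' (dlh G N z) = 0 := by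
  funext σ
  rw [eps']
  have h1 : ∀ τ : Finset V, dlh G N z σ τ =
      ∑ v, (if v ∈ τ then (if Cl G τ then z σ (τ.erase v) else 0) else 0) := by
    intro τ
    rw [dlh_apply]
    refine Finset.sum_congr rfl (fun v _ => ?_)
    by_cases h : (Cl G τ ∧ σ ⊆ τ) ∧ v ∈ τ ∧ v ∉ σ
    · rw [if_pos h, if_pos h.2.1, if_pos h.1.1]
    · rw [if_neg h]
      by_cases hv : v ∈ τ
      · rw [if_pos hv]
        split_ifs with hcl
        · by_contra hne
          have h2 := (hz.1 _ _ (fun h' => hne h'.symm)).1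
          apply h
          refine ⟨⟨hcl, h2.trans (Finset.erase_subset _ _)⟩, hv, fun hvσ => ?_⟩
          exact Finset.notMem_erase v τ (h2 hvσ)
        · rfl
      · rw [if_neg hv]
  rw [Finset.sum_congr rfl (fun τ _ => h1 τ),
    ← sum_ins (fun τ κ => if Cl G τ then z σ κ else 0)]
  apply Finset.sum_eq_zero
  intro κ _
  by_cases h0 : z σ κ = 0
  · apply Finset.sum_eq_zero
    intro v _
    rw [h0]
    split_ifs <;> rfl
  · obtain ⟨a1, a2, a3, a4⟩ := hz.1 σ κ h0
    obtain ⟨a, b, hab, hL⟩ := two_facets hS a2 (by omega)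
    have hterm : ∀ v : V, (if v ∈ κ then (0 : N) else if Cl G (insert v κ) then z σ κ else 0) =
        (if v = a then z σ κ else 0) + (if v = b then z σ κ else 0) := by
      intro v
      have hiff : (v ∉ κ ∧ Cl G (insert v κ)) ↔ v ∈ ({a, b} : Finset V) := by
        rw [← hL, mem_Lk]
        constructor
        · rintro ⟨h2, h3⟩ t ht
          exact h3 v (mem_insert_self _ _) t (mem_insert_of_mem ht) (by rintro rfl; exact h2 ht)
        · intro h
          exact ⟨fun hv => G.loopless.irrefl _ (h v hv), a2.insert h⟩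
      rw [mem_insert, Finset.mem_singleton] at hiff
      by_cases hva : v = a
      · have h1 := hiff.2 (Or.inl hva)
        have h2 : v ≠ b := by rw [hva]; exact hab
        rw [if_neg h1.1, if_pos h1.2, if_pos hva, if_neg h2, add_zero]
      · by_cases hvb : v = b
        · have h1 := hiff.2 (Or.inr hvb)
          rw [if_neg h1.1, if_pos h1.2, if_neg hva, if_pos hvb, zero_add]
        · rw [if_neg hva, if_neg hvb, add_zero]
          split_ifs with h3 h4
          · rfl
          · rcases hiff.1 ⟨h3, h4⟩ with h | h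
            · exact absurd h hva
            · exact absurd h hvb
          · rfl
    rw [Finset.sum_congr rfl (fun v _ => hterm v), Finset.sum_add_distrib]
    simp only [Finset.sum_ite_eq', Finset.mem_univ, if_true]
    exact add_self2 K _

/-- every clique is contained in a facet -/
lemma exists_facet {G : SimpleGraph V} {n : ℕ} (hS : F2Sphere G n) {σ : Finset V}
    (hσ : Cl G σ) : ∃ τ, σ ⊆ τ ∧ Cl G τ ∧ τ.card = n := by
  obtain ⟨z, ⟨hz0, hz1, _⟩, _⟩ := hS.top σ hσ
  obtain ⟨ρ, hρ⟩ := Function.ne_iff.1 hz0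
  obtain ⟨h1, h2, h3⟩ := hz1 ρ hρ
  have hd : Disjoint σ ρ := by
    rw [Finset.disjoint_left]
    intro w hw hwρ
    exact not_mem_of_mem_Lk (h1 hwρ) hw
  refine ⟨σ ∪ ρ, Finset.subset_union_left, cl_union_Lk hσ h1 (Finset.Subset.refl _) h2, ?_⟩
  have := hS.dim σ hσ
  rw [Finset.card_union_of_disjoint hd]
  omega

/-- the top hypothesis of the staircase -/
lemma top_hyp {G : SimpleGraph V} {n m : ℕ} (hS : F2Sphere G n) {e : V → Module.End K N}
    (hU : ∀ i, m < i → Ex G e univ ∅ i) (p : ℕ) (x : Finset V → Finset V → N)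
    (hp : m < p) (hx : x ∈ DD G e p n)
    (hz : ∃ z ∈ DD G e (p - 1) (n - 1), ptv V N x = dlh G N z) (hn : 0 < n) :
    ∃ x' ∈ DD G e (p + 1) n, ∃ w ∈ DD G e p (n - 1), x = ptv V N x' + dlh G N w := by
  obtain ⟨z, hz1, hz2⟩ := hz
  have h1 : bd (K := K) (eps' x) = 0 := by
    rw [bd_eps hx, hz2, eps_dlh hS hn hz1]
  obtain ⟨c, hc, hcx⟩ := hU p hp _ (eps_mem hx) h1
  have hF : ∀ σ, ∃ τ, Cl G σ → σ ⊆ τ ∧ Cl G τ ∧ τ.card = n := by
    intro σ
    by_cases h : Cl G σ
    · obtain ⟨τ, hτ⟩ := exists_facet hS h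
      exact ⟨τ, fun _ => hτ⟩
    · exact ⟨∅, fun h' => absurd h' h⟩
  choose F hF using hF
  let x' : Finset V → Finset V → N := fun σ τ => if τ = F σ then c σ else 0
  have hx' : x' ∈ DD G e (p + 1) n := by
    refine ⟨fun σ τ h => ?_, fun σ τ => ?_⟩
    · by_cases h2 : τ = F σ
      · simp only [x', if_pos h2] at h
        have h3 := hc.2.2 σ h
        have h4 := hF σ h3.2.1
        rw [h2]
        exact ⟨h4.1, h4.2.1, h3.2.2, h4.2.2⟩
      · exact absurd (if_neg h2) h
    · simp only [x']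
      split_ifs
      · exact fun v hv => hc.2.1 σ v hv
      · exact zero_mem _
  have he' : eps' x' = c := by
    funext σ
    simp only [eps', x']
    simp
  have hy : x + ptv V N x' ∈ DD G e p n := add_mem hx (ptv_mem _ _ _ hx')
  have hys : ∀ σ, ∑ τ, (x + ptv V N x') σ τ = 0 := by
    intro σ
    have h5 : eps' (ptv V N x') = eps' x := by
      rw [← bd_eps hx', he', hcx]
    have h6 : ∑ τ, (x + ptv V N x') σ τ = eps' x σ + eps' (ptv V N x') σ := by
      rw [eps', eps', ← Finset.sum_add_distrib]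
      rfl
    rw [h6, h5]
    exact add_self2 K _
  obtain ⟨w, hw, hwe⟩ := row_top hS p _ hy hys
  refine ⟨x', hx', w, hw, ?_⟩
  rw [hwe, ← add_assoc, add_comm (ptv V N x') x, add_assoc]
  have : ptv V N x' + ptv V N x' = 0 := by
    funext σ τ; exact add_self2 K _
  rw [this, add_zero]

end

end H162.CD
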