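import Pool.Agent.H162.CD.Upper

namespace H162.CD

open Finset Classical Module

noncomputable section

variable {V : Type*} [Fintype V]
variable {K : Type*} [Field K]
variable {N : Type*} [AddCommGroup N] [Module K N]

lemma ker_semicont {P Q : Type*} [AddCommGroup P] [Module K P] [AddCommGroup Q] [Module K Q]
    [FiniteDimensional K P] (A0 A1 : P →ₗ[K] Q) :
    {s : K | finrank K (LinearMap.ker A0) < finrank K (LinearMap.ker (A0 + s • A1))}.Finite := by
  obtain ⟨W, hW⟩ := Submodule.exists_isCompl (LinearMap.ker A0)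
  have hinj : LinearMap.ker (A0.domRestrict W) = ⊥ := by
    rw [LinearMap.ker_eq_bot']
    intro x hx
    have h1 : (x : P) ∈ LinearMap.ker A0 := by
      rw [LinearMap.mem_ker]; simpa using hx
    have h2 := hW.disjoint.le_bot ⟨h1, x.2⟩
    rw [Submodule.mem_bot] at h2
    exact Subtype.ext h2
  obtain ⟨B, hB⟩ := LinearMap.exists_leftInverse_of_injective _ hinj
  let M : Module.End K W := B ∘ₗ (A1.domRestrict W)
  have hfin := Module.End.finite_hasEigenvalue M
  apply (hfin.image (fun μ => -μ⁻¹)).subset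
  intro s hs
  rw [Set.mem_ofPred_eq] at hs
  have hs0 : s ≠ 0 := by
    rintro rfl
    rw [zero_smul, add_zero] at hs
    exact lt_irrefl _ hs
  refine ⟨-s⁻¹, ?_, by simp⟩
  by_contra hev
  apply absurd hs
  push Not
  have hdis : Disjoint (LinearMap.ker (A0 + s • A1)) W := by
    rw [Submodule.disjoint_def]
    intro x hx hxW
    rw [LinearMap.mem_ker, LinearMap.add_apply, LinearMap.smul_apply] at hx
    have h1 : B (A0 x) + s • B (A1 x) = 0 := by
      rw [← map_smul, ← map_add, hx, map_zero]
    have h2 : B (A0 x) = ⟨x, hxW⟩ := by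
      have := LinearMap.congr_fun hB ⟨x, hxW⟩
      simpa using this
    have h3 : M ⟨x, hxW⟩ = B (A1 x) := by simp [M]
    by_contra hx0
    apply hev
    show M.HasEigenvalue (-s⁻¹)
    refine Module.End.hasEigenvalue_of_hasEigenvector (x := ⟨x, hxW⟩) ⟨?_, ?_⟩
    · rw [Module.End.mem_eigenspace_iff, h3]
      rw [h2] at h1
      have h4 : s • B (A1 x) = -(⟨x, hxW⟩ : W) := by
        rw [eq_neg_iff_add_eq_zero, add_comm]; exact h1
      have h5 := congrArg (fun y => s⁻¹ • y) h4
      simp only [smul_smul, inv_mul_cancel₀ hs0, one_smul] at h5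
      rw [h5, smul_neg, neg_smul]
    · intro h
      apply hx0
      have := congrArg Subtype.val h
      simpa using this
  have h6 := Submodule.finrank_add_finrank_le_of_disjoint hdis
  have h7 := Submodule.finrank_add_eq_of_isCompl hW
  omega

/-- The perturbed family. -/
def es (e1 e2 : V → Module.End K N) (s : K) : V → Module.End K N := fun v => e1 v + s • e2 v

omit [Fintype V] in
lemma es_apply (e1 e2 : V → Module.End K N) (s : K) (v : V) (x : N) :
    es e1 e2 s v x = e1 v x + s • e2 v x := rfl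

omit [Fintype V] in
lemma es_rep [CharP K 2] {G : SimpleGraph V} {e1 e2 : V → Module.End K N} (h1 : IsRep G e1)
    (h2 : IsRep G e2) (hc : ∀ u v x, e1 u (e2 v x) = e2 v (e1 u x)) (s : K) :
    IsRep G (es e1 e2 s) := by
  refine ⟨fun v x => ?_, fun u v huv x => ?_⟩
  · simp only [es_apply, map_add, map_smul]
    rw [h1.sq, h2.sq, hc]
    simp only [smul_zero, add_zero, zero_add]
    exact add_self2 K _
  · simp only [es_apply, map_add, map_smul]
    rw [h1.comm u v huv, h2.comm u v huv, hc u v, ← hc v u]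
    simp only [smul_add]
    abel

/-- the constraint map for `SS` -/
def cSS (e : V → Module.End K N) (σ : Finset V) : N →ₗ[K] (V → N) :=
  LinearMap.pi (fun v => if v ∈ σ then e v else 0)

omit [Fintype V] in
lemma ker_cSS (e : V → Module.End K N) (σ : Finset V) : LinearMap.ker (cSS e σ) = SS e σ := by
  ext x
  rw [LinearMap.mem_ker, mem_SS]
  constructor
  · intro h v hv
    have := congrFun h v
    simpa [cSS, hv] using this
  · intro h
    funext v
    by_cases hv : v ∈ σ
    · simp [cSS, hv, h v hv]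
    · simp [cSS, hv]

omit [Fintype V] in
lemma cSS_es (e1 e2 : V → Module.End K N) (s : K) (σ : Finset V) :
    cSS (es e1 e2 s) σ = cSS e1 σ + s • cSS e2 σ := by
  ext x v
  by_cases hv : v ∈ σ
  · simp [cSS, hv, es]
  · simp [cSS, hv]

lemma SS_semicont [FiniteDimensional K N] (e1 e2 : V → Module.End K N) :
    ∃ B : Set K, B.Finite ∧ ∀ s ∉ B, ∀ σ : Finset V,
      finrank K (SS (es e1 e2 s) σ) ≤ finrank K (SS e1 σ) := by
  refine ⟨⋃ σ : Finset V, {s : K | finrank K (LinearMap.ker (cSS e1 σ)) <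
    finrank K (LinearMap.ker (cSS e1 σ + s • cSS e2 σ))},
    Set.finite_iUnion (fun σ => ker_semicont _ _), ?_⟩
  intro s hs σ
  rw [Set.mem_iUnion] at hs
  push Not at hs
  have := hs σ
  rw [Set.mem_ofPred_eq, not_lt, ← cSS_es, ker_cSS, ker_cSS] at this
  exact this

/-- cycles -/
def Zc (G : SimpleGraph V) (e : V → Module.End K N) (A τ : Finset V) (i : ℕ) :
    Submodule K (Finset V → N) := Ch G e A τ i ⊓ LinearMap.ker (bd (K := K) (N := N))

/-- constraint map for cycles: operator part -/
def cZ1 (e : V → Module.End K N) (τ : Finset V) :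
    (Finset V → N) →ₗ[K] (Finset V → V → N) :=
  LinearMap.pi (fun σ => LinearMap.pi (fun v => if v ∈ τ ∨ v ∈ σ then
    (e v) ∘ₗ (LinearMap.proj σ) else 0))

def cZ2 (G : SimpleGraph V) (A : Finset V) (i : ℕ) :
    (Finset V → N) →ₗ[K] (Finset V → N) :=
  LinearMap.pi (fun σ => if σ ⊆ A ∧ Cl G σ ∧ σ.card = i then 0 else LinearMap.proj σ)

lemma ker_cZ (G : SimpleGraph V) (e : V → Module.End K N) (A τ : Finset V) (i : ℕ) :
    LinearMap.ker ((cZ1 e τ).prod ((cZ2 G A i).prod (bd (K := K) (N := N)))) =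
      Zc G e A τ i := by
  ext x
  rw [LinearMap.mem_ker, Zc, Submodule.mem_inf, LinearMap.mem_ker]
  constructor
  · intro h
    have h1 : cZ1 e τ x = 0 := congrArg Prod.fst h
    have h2 : cZ2 G A i x = 0 := congrArg (fun p => p.2.1) h
    have h3 : bd (K := K) x = 0 := congrArg (fun p => p.2.2) h
    refine ⟨⟨fun σ v hv => ?_, fun σ v hv => ?_, fun σ hσ => ?_⟩, h3⟩
    · have := congrFun (congrFun h1 σ) v
      simpa [cZ1, hv] using this
    · have := congrFun (congrFun h1 σ) v
      simpa [cZ1, hv] using this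
    · by_contra hne
      have := congrFun h2 σ
      rw [cZ2, LinearMap.pi_apply, if_neg hne] at this
      exact hσ (by simpa using this)
  · rintro ⟨⟨h1, h2, h3⟩, h4⟩
    refine Prod.ext ?_ (Prod.ext ?_ h4)
    · show cZ1 e τ x = 0
      funext σ v
      by_cases hv : v ∈ τ ∨ v ∈ σ
      · have : e v (x σ) = 0 := by
          rcases hv with hv | hv
          · exact h1 σ v hv
          · exact h2 σ v hv
        simp [cZ1, hv, this]
      · simp [cZ1, hv]
    · show cZ2 G A i x = 0
      funext σ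
      by_cases hv : σ ⊆ A ∧ Cl G σ ∧ σ.card = i
      · rw [cZ2, LinearMap.pi_apply, if_pos hv]; simp
      · rw [cZ2, LinearMap.pi_apply, if_neg hv]
        simp only [LinearMap.coe_proj, Function.eval, Pi.zero_apply]
        by_contra hne
        exact hv (h3 σ hne)

lemma Zc_semicont [FiniteDimensional K N] (G : SimpleGraph V) (e1 e2 : V → Module.End K N)
    (A τ : Finset V) (i : ℕ) :
    {s : K | finrank K (Zc G e1 A τ i) < finrank K (Zc G (es e1 e2 s) A τ i)}.Finite := by
  have h := ker_semicont ((cZ1 e1 τ).prod ((cZ2 G A i).prod (bd (K := K) (N := N))))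
    ((cZ1 e2 τ).prod ((0 : (Finset V → N) →ₗ[K] (Finset V → N)).prod
      (0 : (Finset V → N) →ₗ[K] (Finset V → N))))
  apply h.subset
  intro s hs
  rw [Set.mem_ofPred_eq] at hs ⊢
  rw [ker_cZ]
  have : ((cZ1 e1 τ).prod ((cZ2 G A i).prod (bd (K := K) (N := N)))) +
      s • ((cZ1 e2 τ).prod ((0 : (Finset V → N) →ₗ[K] (Finset V → N)).prod
      (0 : (Finset V → N) →ₗ[K] (Finset V → N)))) =
      ((cZ1 (es e1 e2 s) τ).prod ((cZ2 G A i).prod (bd (K := K) (N := N)))) := by
    apply LinearMap.ext
    intro x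
    refine Prod.ext ?_ (Prod.ext ?_ ?_)
    · funext σ v
      by_cases hv : v ∈ τ ∨ v ∈ σ
      · simp [cZ1, hv, es]
      · simp [cZ1, hv]
    · simp
    · simp
  rw [this, ker_cZ]
  exact hs

end

end H162.CD
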