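import Pool.Agent.H162.CD.Perturb

namespace H162.CD

open Finset Classical Module

noncomputable section

variable {V : Type*} [Fintype V]
variable {K : Type*} [Field K]
variable {N : Type*} [AddCommGroup N] [Module K N]

omit [Fintype V] in
lemma finrank_ker_step (e : V → Module.End K N) (σ : Finset V) (v : V) :
    finrank K (LinearMap.ker ((e v).domRestrict (SS e σ))) = finrank K (SS e (insert v σ)) := by
  have h : LinearMap.ker ((e v).domRestrict (SS e σ)) =
      (SS e (insert v σ)).comap (SS e σ).subtype := by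
    ext x
    rw [LinearMap.mem_ker, Submodule.mem_comap, mem_SS_insert]
    constructor
    · intro h; exact ⟨by simpa using h, x.2⟩
    · rintro ⟨h, _⟩; simpa using h
  rw [h]
  exact (Submodule.comapSubtypeEquivOfLe (SS_mono (subset_insert v σ))).finrank_eq

omit [Fintype V] in
lemma range_step {G : SimpleGraph V} {e : V → Module.End K N} (he : IsRep G e) {σ : Finset V}
    {v : V} (hv : v ∉ σ) (hcl : Cl G (insert v σ)) :
    LinearMap.range ((e v).domRestrict (SS e σ)) ≤ SS e (insert v σ) := by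
  rintro _ ⟨x, rfl⟩
  rw [mem_SS_insert]
  refine ⟨by simpa using he.sq v x, fun w hw => ?_⟩
  rw [LinearMap.domRestrict_apply, he.comm w v (hcl w (mem_insert_of_mem hw) v
    (mem_insert_self _ _) (by rintro rfl; exact hv hw)), x.2 w hw, map_zero]

omit [Fintype V] in
lemma finrank_step_le [FiniteDimensional K N] {G : SimpleGraph V} {e : V → Module.End K N}
    (he : IsRep G e) {σ : Finset V} {v : V} (hv : v ∉ σ) (hcl : Cl G (insert v σ)) :
    finrank K (SS e σ) ≤ 2 * finrank K (SS e (insert v σ)) := by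
  have h1 := LinearMap.finrank_range_add_finrank_ker ((e v).domRestrict (SS e σ))
  rw [finrank_ker_step] at h1
  have h2 := Submodule.finrank_mono (range_step he hv hcl)
  omega

omit [Fintype V] in
lemma finrank_step_eq [FiniteDimensional K N] {G : SimpleGraph V} {e : V → Module.End K N}
    (he : IsRep G e) (hB : Bal G e) {σ : Finset V} {v : V} (hv : v ∉ σ)
    (hcl : Cl G (insert v σ)) :
    finrank K (SS e σ) = 2 * finrank K (SS e (insert v σ)) := by
  have h1 := LinearMap.finrank_range_add_finrank_ker ((e v).domRestrict (SS e σ))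
  rw [finrank_ker_step] at h1
  have h2 : LinearMap.range ((e v).domRestrict (SS e σ)) = SS e (insert v σ) := by
    apply le_antisymm (range_step he hv hcl)
    intro x hx
    rw [mem_SS_insert] at hx
    obtain ⟨y, hy, hyx⟩ := hB σ v hv hcl x hx.2 hx.1
    exact ⟨⟨y, hy⟩, by simpa using hyx⟩
  rw [h2] at h1
  omega

omit [Fintype V] in
lemma SS_empty (e : V → Module.End K N) : SS e ∅ = ⊤ := by
  rw [eq_top_iff]
  intro x _ v hv
  simp at hv

omit [Fintype V] in
lemma finrank_SS_le [FiniteDimensional K N] {G : SimpleGraph V} {e : V → Module.End K N}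
    (he : IsRep G e) (σ : Finset V) : Cl G σ → finrank K N ≤ 2 ^ σ.card * finrank K (SS e σ) := by
  induction σ using Finset.induction_on with
  | empty => intro _; rw [SS_empty, finrank_top]; simp
  | insert v σ hv ih =>
    intro hcl
    have h1 := ih (hcl.mono (subset_insert _ _))
    have h2 := finrank_step_le he hv hcl
    rw [Finset.card_insert_of_notMem hv, pow_succ, mul_assoc]
    exact h1.trans (Nat.mul_le_mul_left _ h2)

omit [Fintype V] in
lemma finrank_SS_eq [FiniteDimensional K N] {G : SimpleGraph V} {e : V → Module.End K N}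
    (he : IsRep G e) (hB : Bal G e) (σ : Finset V) :
    Cl G σ → finrank K N = 2 ^ σ.card * finrank K (SS e σ) := by
  induction σ using Finset.induction_on with
  | empty => intro _; rw [SS_empty, finrank_top]; simp
  | insert v σ hv ih =>
    intro hcl
    rw [ih (hcl.mono (subset_insert _ _)), finrank_step_eq he hB hv hcl,
      Finset.card_insert_of_notMem hv, pow_succ, mul_assoc]

omit [Fintype V] in
lemma bal_of_finrank [FiniteDimensional K N] {G : SimpleGraph V} {e : V → Module.End K N}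
    (he : IsRep G e) (h : ∀ σ, Cl G σ → finrank K N = 2 ^ σ.card * finrank K (SS e σ)) :
    Bal G e := by
  intro σ v hv hcl x hx hvx
  have h1 := h σ (hcl.mono (subset_insert _ _))
  have h2 := h _ hcl
  rw [h1, Finset.card_insert_of_notMem hv, pow_succ, mul_assoc] at h2
  have h3 : finrank K (SS e σ) = 2 * finrank K (SS e (insert v σ)) :=
    Nat.eq_of_mul_eq_mul_left (by positivity) h2
  have h4 := LinearMap.finrank_range_add_finrank_ker ((e v).domRestrict (SS e σ))
  rw [finrank_ker_step] at h4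
  have h5 : LinearMap.range ((e v).domRestrict (SS e σ)) = SS e (insert v σ) := by
    apply Submodule.eq_of_le_of_finrank_eq (range_step he hv hcl)
    omega
  have h6 : x ∈ SS e (insert v σ) := mem_SS_insert.2 ⟨hvx, hx⟩
  rw [← h5] at h6
  obtain ⟨y, hy⟩ := h6
  exact ⟨y, y.2, by simpa using hy⟩

/-- chains as a product -/
def chEquiv (G : SimpleGraph V) (e : V → Module.End K N) (A τ : Finset V) (i : ℕ) :
    Ch G e A τ i ≃ₗ[K]
      (∀ σ : {σ : Finset V // σ ⊆ A ∧ Cl G σ ∧ σ.card = i}, SS e (τ ∪ σ.1)) where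
  toFun x := fun σ => ⟨x.1 σ.1, by
    intro v hv
    rcases Finset.mem_union.1 hv with h | h
    · exact x.2.1 _ v h
    · exact x.2.2.1 _ v h⟩
  map_add' x y := by funext σ; rfl
  map_smul' c x := by funext σ; rfl
  invFun y := ⟨fun σ => if h : σ ⊆ A ∧ Cl G σ ∧ σ.card = i then (y ⟨σ, h⟩ : N) else 0, by
    refine ⟨fun σ v hv => ?_, fun σ v hv => ?_, fun σ hσ => ?_⟩
    · dsimp only
      split_ifs with h
      · exact (y ⟨σ, h⟩).2 v (Finset.mem_union_left _ hv)
      · simp
    · dsimp only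
      split_ifs with h
      · exact (y ⟨σ, h⟩).2 v (Finset.mem_union_right _ hv)
      · simp
    · dsimp only at hσ
      split_ifs at hσ with h
      · exact h
      · exact absurd rfl hσ⟩
  left_inv x := by
    apply Subtype.ext
    funext σ
    dsimp only
    split_ifs with h
    · rfl
    · by_contra hne
      exact h (x.2.2.2 σ (fun h0 => hne h0.symm))
  right_inv y := by
    funext σ
    apply Subtype.ext
    dsimp only
    rw [dif_pos σ.2]

omit [Fintype V] in
lemma finrank_Ch [Finite V] [FiniteDimensional K N] (G : SimpleGraph V)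
    (e : V → Module.End K N) (A τ : Finset V)
    (i : ℕ) [Fintype {σ : Finset V // σ ⊆ A ∧ Cl G σ ∧ σ.card = i}] :
    finrank K (Ch G e A τ i) =
      ∑ σ : {σ : Finset V // σ ⊆ A ∧ Cl G σ ∧ σ.card = i}, finrank K (SS e (τ ∪ σ.1)) := by
  rw [(chEquiv G e A τ i).finrank_eq, Module.finrank_pi_fintype]

lemma finrank_kerZ (G : SimpleGraph V) (e : V → Module.End K N) (A τ : Finset V)
    (i : ℕ) : finrank K (LinearMap.ker ((bd (K := K) (N := N)).domRestrict (Ch G e A τ i))) =
      finrank K (Zc G e A τ i) := by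
  have h : LinearMap.ker ((bd (K := K) (N := N)).domRestrict (Ch G e A τ i)) =
      (Zc G e A τ i).comap (Ch G e A τ i).subtype := by
    ext x
    rw [LinearMap.mem_ker, Submodule.mem_comap, Zc, Submodule.mem_inf, LinearMap.mem_ker]
    constructor
    · intro h; exact ⟨x.2, by simpa using h⟩
    · rintro ⟨_, h⟩; simpa using h
  rw [h]
  exact (Submodule.comapSubtypeEquivOfLe inf_le_left).finrank_eq

lemma range_Z [CharP K 2] (G : SimpleGraph V) (e : V → Module.End K N) (A τ : Finset V)
    (i : ℕ) : LinearMap.range ((bd (K := K) (N := N)).domRestrict (Ch G e A τ (i + 1))) ≤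
      Zc G e A τ i := by
  rintro _ ⟨x, rfl⟩
  rw [Zc, Submodule.mem_inf, LinearMap.mem_ker]
  exact ⟨by simpa using bd_mem x.2, by simpa using bd_bd _⟩

lemma finrank_Z_le [CharP K 2] [FiniteDimensional K N] (G : SimpleGraph V)
    (e : V → Module.End K N) (A τ : Finset V) (i : ℕ) :
    finrank K (Ch G e A τ (i + 1)) ≤ finrank K (Zc G e A τ i) + finrank K (Zc G e A τ (i + 1)) := by
  have h1 := LinearMap.finrank_range_add_finrank_ker
    ((bd (K := K) (N := N)).domRestrict (Ch G e A τ (i + 1)))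
  rw [finrank_kerZ] at h1
  have h2 := Submodule.finrank_mono (range_Z G e A τ i)
  omega

lemma finrank_Z_eq [CharP K 2] [FiniteDimensional K N] {G : SimpleGraph V}
    {e : V → Module.End K N} {A τ : Finset V} {i : ℕ} (h : Ex G e A τ i) :
    finrank K (Ch G e A τ (i + 1)) = finrank K (Zc G e A τ i) + finrank K (Zc G e A τ (i + 1)) := by
  have h1 := LinearMap.finrank_range_add_finrank_ker
    ((bd (K := K) (N := N)).domRestrict (Ch G e A τ (i + 1)))
  rw [finrank_kerZ] at h1
  have h2 : LinearMap.range ((bd (K := K) (N := N)).domRestrict (Ch G e A τ (i + 1))) =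
      Zc G e A τ i := by
    apply le_antisymm (range_Z G e A τ i)
    intro x hx
    rw [Zc, Submodule.mem_inf, LinearMap.mem_ker] at hx
    obtain ⟨y, hy, hyx⟩ := h x hx.1 hx.2
    exact ⟨⟨y, hy⟩, by simpa using hyx⟩
  rw [h2] at h1
  omega

lemma Ex_of_finrank [CharP K 2] [FiniteDimensional K N] {G : SimpleGraph V}
    {e : V → Module.End K N} {A τ : Finset V} {i : ℕ}
    (h : finrank K (Zc G e A τ i) + finrank K (Zc G e A τ (i + 1)) ≤
      finrank K (Ch G e A τ (i + 1))) : Ex G e A τ i := by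
  have h1 := LinearMap.finrank_range_add_finrank_ker
    ((bd (K := K) (N := N)).domRestrict (Ch G e A τ (i + 1)))
  rw [finrank_kerZ] at h1
  have h2 : LinearMap.range ((bd (K := K) (N := N)).domRestrict (Ch G e A τ (i + 1))) =
      Zc G e A τ i := by
    apply Submodule.eq_of_le_of_finrank_le (range_Z G e A τ i)
    omega
  intro x hx hbx
  have h3 : x ∈ Zc G e A τ i := by
    rw [Zc, Submodule.mem_inf, LinearMap.mem_ker]; exact ⟨hx, hbx⟩
  rw [← h2] at h3
  obtain ⟨y, hy⟩ := h3
  exact ⟨y, y.2, by simpa using hy⟩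

lemma cl_union_Lk {G : SimpleGraph V} {A τ σ : Finset V} (hτ : Cl G τ) (hA : A ⊆ Lk G τ)
    (hσA : σ ⊆ A) (hσ : Cl G σ) : Cl G (τ ∪ σ) := by
  intro u hu v hv huv
  rw [Finset.mem_union] at hu hv
  rcases hu with hu | hu
  · rcases hv with hv | hv
    · exact hτ u hu v hv huv
    · exact (mem_Lk.1 (hA (hσA hv)) u hu).symm
  · rcases hv with hv | hv
    · exact mem_Lk.1 (hA (hσA hu)) v hv
    · exact hσ u hu v hv huv

theorem pert1 [CharP K 2] [FiniteDimensional K N] {G : SimpleGraph V}
    {e1 e2 : V → Module.End K N} (h1 : IsRep G e1)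
    (h2 : IsRep G e2) (hc : ∀ u v x, e1 u (e2 v x) = e2 v (e1 u x)) (hB : Bal G e1) :
    ∃ B : Set K, B.Finite ∧ ∀ s ∉ B, Bal G (es e1 e2 s) ∧
      ∀ A τ i, Cl G τ → A ⊆ Lk G τ → Ex G e1 A τ i → Ex G (es e1 e2 s) A τ i := by
  obtain ⟨B1, hB1, hb1⟩ := SS_semicont e1 e2
  let B2 : Set K := ⋃ A : Finset V, ⋃ τ : Finset V, ⋃ i ∈ Finset.range (Fintype.card V + 2),
    {s : K | finrank K (Zc G e1 A τ i) < finrank K (Zc G (es e1 e2 s) A τ i)}
  have hB2 : B2.Finite := by
    apply Set.finite_iUnion; intro A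
    apply Set.finite_iUnion; intro τ
    apply Set.Finite.biUnion (Finset.finite_toSet _)
    intro i _
    exact Zc_semicont G e1 e2 A τ i
  refine ⟨B1 ∪ B2, hB1.union hB2, ?_⟩
  intro s hs
  rw [Set.mem_union, not_or] at hs
  have hrep := es_rep h1 h2 hc s
  have hSS : ∀ σ, Cl G σ → finrank K (SS (es e1 e2 s) σ) = finrank K (SS e1 σ) := by
    intro σ hσ
    have a1 := hb1 s hs.1 σ
    have a2 := finrank_SS_le hrep σ hσ
    rw [finrank_SS_eq h1 hB σ hσ] at a2
    have a3 := Nat.le_of_mul_le_mul_left a2 (by positivity)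
    omega
  refine ⟨?_, ?_⟩
  · apply bal_of_finrank hrep
    intro σ hσ
    rw [hSS σ hσ]
    exact finrank_SS_eq h1 hB σ hσ
  · intro A τ i hτ hA hEx
    by_cases hi : i + 1 < Fintype.card V + 2
    · apply Ex_of_finrank
      have b : ∀ j, j < Fintype.card V + 2 →
          finrank K (Zc G (es e1 e2 s) A τ j) ≤ finrank K (Zc G e1 A τ j) := by
        intro j hj
        by_contra hlt
        push Not at hlt
        apply hs.2
        simp only [B2, Set.mem_iUnion]
        exact ⟨A, τ, j, Finset.mem_range.2 hj, hlt⟩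
      have c1 := b i (by omega)
      have c2 := b (i + 1) hi
      have c3 := finrank_Z_eq hEx
      have c4 : finrank K (Ch G (es e1 e2 s) A τ (i + 1)) = finrank K (Ch G e1 A τ (i + 1)) := by
        rw [finrank_Ch, finrank_Ch]
        refine Finset.sum_congr rfl (fun σ _ => ?_)
        exact hSS _ (cl_union_Lk hτ hA σ.2.1 σ.2.2.1)
      omega
    · intro x hx _
      refine ⟨0, zero_mem _, ?_⟩
      rw [map_zero]
      funext σ
      by_contra hne
      have := (hx.2.2 σ (fun h => hne h.symm)).2.2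
      have := Finset.card_le_univ σ
      omega

omit [Fintype V] in
lemma Ch_smul {G : SimpleGraph V} {e : V → Module.End K N} {s : K} (hs : s ≠ 0) (A τ : Finset V)
    (i : ℕ) : Ch G (fun v => s • e v) A τ i = Ch G e A τ i := by
  ext x
  constructor
  · rintro ⟨h1, h2, h3⟩
    refine ⟨fun σ v hv => ?_, fun σ v hv => ?_, h3⟩
    · have := h1 σ v hv
      rw [LinearMap.smul_apply] at this
      exact (smul_eq_zero.1 this).resolve_left hs
    · have := h2 σ v hv
      rw [LinearMap.smul_apply] at this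
      exact (smul_eq_zero.1 this).resolve_left hs
  · rintro ⟨h1, h2, h3⟩
    refine ⟨fun σ v hv => ?_, fun σ v hv => ?_, h3⟩
    · rw [LinearMap.smul_apply, h1 σ v hv, smul_zero]
    · rw [LinearMap.smul_apply, h2 σ v hv, smul_zero]

lemma Ex_smul {G : SimpleGraph V} {e : V → Module.End K N} {s : K} (hs : s ≠ 0)
    (A τ : Finset V) (i : ℕ) : Ex G (fun v => s • e v) A τ i ↔ Ex G e A τ i := by
  unfold Ex
  rw [Ch_smul hs, Ch_smul hs]

theorem pert2 [CharP K 2] [FiniteDimensional K N] {G : SimpleGraph V}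
    {e1 e2 : V → Module.End K N} (h1 : IsRep G e1)
    (h2 : IsRep G e2) (hc : ∀ u v x, e1 u (e2 v x) = e2 v (e1 u x)) (hB1 : Bal G e1)
    (hB2 : Bal G e2) :
    ∃ B : Set K, B.Finite ∧ ∀ s ∉ B, Bal G (es e1 e2 s) ∧
      (∀ A τ i, Cl G τ → A ⊆ Lk G τ → Ex G e1 A τ i → Ex G (es e1 e2 s) A τ i) ∧
      (∀ A τ i, Cl G τ → A ⊆ Lk G τ → Ex G e2 A τ i → Ex G (es e1 e2 s) A τ i) := by
  obtain ⟨B, hB, hb⟩ := pert1 h1 h2 hc hB1
  obtain ⟨B', hB', hb'⟩ := pert1 h2 h1 (fun u v x => (hc v u x).symm) hB2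
  refine ⟨B ∪ ({0} ∪ (fun t => t⁻¹) '' B'), hB.union ((Set.finite_singleton 0).union
    (hB'.image _)), ?_⟩
  intro s hs
  rw [Set.mem_union, Set.mem_union, not_or, not_or] at hs
  obtain ⟨hs1, hs2, hs3⟩ := hs
  have hs0 : s ≠ 0 := by simpa using hs2
  have hs4 : s⁻¹ ∉ B' := by
    intro h
    exact hs3 ⟨s⁻¹, h, inv_inv s⟩
  refine ⟨(hb s hs1).1, (hb s hs1).2, ?_⟩
  intro A τ i hτ hA hEx
  have h3 := (hb' _ hs4).2 A τ i hτ hA hEx
  have h4 : es e1 e2 s = fun v => s • es e2 e1 s⁻¹ v := by
    funext v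
    simp only [es, smul_add, smul_smul, mul_inv_cancel₀ hs0, one_smul]
    rw [add_comm]
  rw [h4, Ex_smul hs0]
  exact h3

end

end H162.CD
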