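import Pool.Agent.H162.CD.Col

namespace H162.CD

open Finset Classical Module

noncomputable section

attribute [-instance] Subtype.instDecidableEq

variable {V : Type*} [Fintype V]

lemma factor {F V1 V2 W : Type*} [Field F] [AddCommGroup V1] [Module F V1] [AddCommGroup V2]
    [Module F V2] [AddCommGroup W] [Module F W] (f : V1 →ₗ[F] V2) (φ : V1 →ₗ[F] W)
    (h : LinearMap.ker f ≤ LinearMap.ker φ) : ∃ ψ : V2 →ₗ[F] W, ψ ∘ₗ f = φ := by
  let f' : (V1 ⧸ LinearMap.ker f) →ₗ[F] V2 := (LinearMap.ker f).liftQ f le_rfl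
  let φ' : (V1 ⧸ LinearMap.ker f) →ₗ[F] W := (LinearMap.ker f).liftQ φ h
  have hinj : LinearMap.ker f' = ⊥ := Submodule.ker_liftQ_eq_bot _ _ _ le_rfl
  obtain ⟨g, hg⟩ := LinearMap.exists_leftInverse_of_injective f' hinj
  refine ⟨φ' ∘ₗ g, ?_⟩
  ext x
  have h1 : g (f x) = Submodule.Quotient.mk x := by
    have := LinearMap.congr_fun hg (Submodule.Quotient.mk x)
    simpa [f'] using this
  rw [LinearMap.comp_apply, LinearMap.comp_apply, h1]
  simp [φ']

lemma sum_ins {W : Type*} [AddCommMonoid W] (F : Finset V → Finset V → W) :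
    ∑ ρ : Finset V, ∑ v, (if v ∈ ρ then 0 else F (insert v ρ) ρ) =
      ∑ ρ : Finset V, ∑ v, (if v ∈ ρ then F ρ (ρ.erase v) else 0) := by
  rw [Finset.sum_comm, Finset.sum_comm (s := (univ : Finset (Finset V))) (t := (univ : Finset V))
    (f := fun ρ v => if v ∈ ρ then F ρ (ρ.erase v) else 0)]
  refine Finset.sum_congr rfl (fun v _ => ?_)
  have h1 : ∀ ρ : Finset V, (if v ∈ ρ then (0 : W) else F (insert v ρ) ρ) =
      if v ∉ ρ then F (insert v ρ) ρ else 0 := by
    intro ρ; by_cases h : v ∈ ρ <;> simp [h]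
  rw [Finset.sum_congr rfl (fun ρ _ => h1 ρ), ← Finset.sum_filter, ← Finset.sum_filter]
  refine Finset.sum_nbij' (fun ρ => insert v ρ) (fun ρ => ρ.erase v) ?_ ?_ ?_ ?_ ?_
  · intro ρ _; simp
  · intro ρ _; simp
  · intro ρ hρ
    rw [Finset.mem_filter] at hρ
    exact Finset.erase_insert hρ.2
  · intro ρ hρ
    rw [Finset.mem_filter] at hρ
    exact Finset.insert_erase hρ.2
  · intro ρ hρ
    rw [Finset.mem_filter] at hρ
    rw [Finset.erase_insert hρ.2]

/-- chains with coefficients in `ZMod 2` -/
def IsChain (G : SimpleGraph V) (A : Finset V) (i : ℕ) (z : Finset V → ZMod 2) : Prop :=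
  ∀ σ, z σ ≠ 0 → σ ⊆ A ∧ Cl G σ ∧ σ.card = i

/-- the boundary of a chain with coefficients in `ZMod 2` -/
def bdry (z : Finset V → ZMod 2) : Finset V → ZMod 2 := fun ρ => ∑ v ∈ ρᶜ, z (insert v ρ)

lemma bdry_eq (z : Finset V → ZMod 2) : bdry z = bd (K := ZMod 2) z := by
  funext ρ
  rw [bdry, bd_apply]
  have : ∀ v, (if v ∈ ρ then (0 : ZMod 2) else z (insert v ρ)) =
      if v ∉ ρ then z (insert v ρ) else 0 := by
    intro v; by_cases h : v ∈ ρ <;> simp [h]
  rw [Finset.sum_congr rfl (fun v _ => this v), ← Finset.sum_filter]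
  congr 1
  ext v; simp

/-- the submodule of chains -/
def C2 (G : SimpleGraph V) (A : Finset V) (i : ℕ) : Submodule (ZMod 2) (Finset V → ZMod 2) where
  carrier := {z | IsChain G A i z}
  add_mem' := by
    intro a b ha hb σ hσ
    by_cases h : a σ = 0
    · exact hb σ (by intro h'; apply hσ; rw [Pi.add_apply, h, h', add_zero])
    · exact ha σ h
  zero_mem' := by intro σ hσ; exact absurd rfl hσ
  smul_mem' := by
    intro c a ha σ hσ
    exact ha σ (by intro h; apply hσ; rw [Pi.smul_apply, h, smul_zero])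

variable {W : Type*} [AddCommGroup W] [Module (ZMod 2) W]

/-- pairing with a cochain -/
def pr2 (c : Finset V → W) : (Finset V → ZMod 2) →ₗ[ZMod 2] W :=
  ∑ ρ : Finset V, (LinearMap.proj ρ : (Finset V → ZMod 2) →ₗ[ZMod 2] ZMod 2).smulRight (c ρ)

lemma pr2_apply (c : Finset V → W) (z : Finset V → ZMod 2) : pr2 c z = ∑ ρ, z ρ • c ρ := by
  simp [pr2]

lemma pr2_single (c : Finset V → W) (ρ : Finset V) : pr2 c (Pi.single ρ 1) = c ρ := by
  rw [pr2_apply, Finset.sum_eq_single ρ]
  · simp
  · intro κ _ h; simp [Pi.single_apply, h]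
  · intro h; exact absurd (Finset.mem_univ _) h

lemma bd_single (ρ : Finset V) : bd (K := ZMod 2) (Pi.single ρ (1 : ZMod 2)) =
    ∑ v ∈ ρ, Pi.single (ρ.erase v) (1 : ZMod 2) := by
  funext κ
  rw [bd_apply, Finset.sum_apply]
  have h1 : ∀ v : V, (if v ∈ κ then (0 : ZMod 2) else (Pi.single ρ (1 : ZMod 2) : Finset V → ZMod 2)
      (insert v κ)) = if v ∈ ρ then (Pi.single (ρ.erase v) (1 : ZMod 2) : Finset V → ZMod 2) κ
      else 0 := by
    intro v
    by_cases hvκ : v ∈ κ
    · rw [if_pos hvκ]
      split_ifs with hvρ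
      · rw [Pi.single_eq_of_ne]
        rintro rfl
        exact Finset.notMem_erase _ _ hvκ
      · rfl
    · rw [if_neg hvκ]
      by_cases h : insert v κ = ρ
      · rw [h, Pi.single_eq_same, if_pos (by rw [← h]; exact mem_insert_self _ _)]
        have : ρ.erase v = κ := by rw [← h, Finset.erase_insert hvκ]
        rw [this, Pi.single_eq_same]
      · rw [Pi.single_eq_of_ne h]
        split_ifs with hvρ
        · rw [Pi.single_eq_of_ne]
          rintro rfl
          exact h (Finset.insert_erase hvρ)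
        · rfl
  rw [Finset.sum_congr rfl (fun v _ => h1 v), ← Finset.sum_filter]
  congr 1
  ext v; simp

theorem row_factor {G : SimpleGraph V} {A : Finset V} {i : ℕ} (c : Finset V → W)
    (hφ : ∀ z, IsChain G A (i + 1) z → bdry z = 0 → pr2 c z = 0) :
    ∃ c' : Finset V → W, (∀ κ, c' κ ≠ 0 → κ ⊆ A ∧ Cl G κ ∧ κ.card = i) ∧
      ∀ ρ, ρ ⊆ A → Cl G ρ → ρ.card = i + 1 → c ρ = ∑ v ∈ ρ, c' (ρ.erase v) := by
  obtain ⟨ψ, hψ⟩ := factor ((bd (K := ZMod 2) (N := ZMod 2)).domRestrict (C2 G A (i + 1)))
    ((pr2 c).domRestrict (C2 G A (i + 1))) (by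
      intro z hz
      rw [LinearMap.mem_ker] at hz ⊢
      rw [LinearMap.domRestrict_apply] at hz ⊢
      exact hφ z.1 z.2 (by rw [bdry_eq]; exact hz))
  refine ⟨fun κ => if κ ⊆ A ∧ Cl G κ ∧ κ.card = i then ψ (Pi.single κ 1) else 0,
    fun κ hκ => ?_, fun ρ h1 h2 h3 => ?_⟩
  · by_contra hne
    exact hκ (if_neg hne)
  · have hm : (Pi.single ρ (1 : ZMod 2) : Finset V → ZMod 2) ∈ C2 G A (i + 1) := by
      intro σ hσ
      have : σ = ρ := by
        by_contra hne
        exact hσ (Pi.single_eq_of_ne hne _)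
      rw [this]; exact ⟨h1, h2, h3⟩
    have h4 := LinearMap.congr_fun hψ ⟨_, hm⟩
    rw [LinearMap.comp_apply, LinearMap.domRestrict_apply, LinearMap.domRestrict_apply,
      pr2_single, bd_single, map_sum] at h4
    rw [← h4]
    refine Finset.sum_congr rfl (fun v hv => ?_)
    dsimp only
    rw [if_pos]
    refine ⟨(Finset.erase_subset _ _).trans h1, h2.mono (Finset.erase_subset _ _), ?_⟩
    rw [Finset.card_erase_of_mem hv, h3]; rfl

lemma pr2_bdry (c : Finset V → W) (y : Finset V → ZMod 2) :
    pr2 c (bdry y) = ∑ ρ : Finset V, y ρ • ∑ v ∈ ρ, c (ρ.erase v) := by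
  rw [bdry_eq, pr2_apply]
  have h1 : ∀ ρ : Finset V, bd (K := ZMod 2) y ρ • c ρ =
      ∑ v, (if v ∈ ρ then 0 else y (insert v ρ) • c ρ) := by
    intro ρ
    rw [bd_apply, Finset.sum_smul]
    refine Finset.sum_congr rfl (fun v _ => ?_)
    split_ifs <;> simp
  rw [Finset.sum_congr rfl (fun ρ _ => h1 ρ)]
  rw [sum_ins (fun a b => y a • c b)]
  refine Finset.sum_congr rfl (fun ρ _ => ?_)
  rw [Finset.smul_sum, ← Finset.sum_filter]
  congr 1
  ext v; simp

/-- flag `F₂`-homology spheres: `G` is a graph whose clique complex has dimension `n - 1` and all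
links have the reduced `F₂`-homology of spheres of the right dimension. Sizes of faces are used
instead of dimensions. -/
structure F2Sphere (G : SimpleGraph V) (n : ℕ) : Prop where
  dim : ∀ σ, Cl G σ → σ.card ≤ n
  acyclic : ∀ σ, Cl G σ → ∀ i, σ.card + i < n → ∀ z, IsChain G (Lk G σ) i z → bdry z = 0 →
    ∃ y, IsChain G (Lk G σ) (i + 1) y ∧ bdry y = z
  top : ∀ σ, Cl G σ → ∃! z, z ≠ 0 ∧ IsChain G (Lk G σ) (n - σ.card) z ∧ bdry z = 0

theorem RowEx {G : SimpleGraph V} {n : ℕ} (hS : F2Sphere G n) {σ : Finset V} (hσ : Cl G σ)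
    {i : ℕ} (hi : σ.card + i < n) (c : Finset V → W)
    (hd : ∀ ρ, ρ ⊆ Lk G σ → Cl G ρ → ρ.card = i + 1 → ∑ v ∈ ρ, c (ρ.erase v) = 0) :
    ∀ z, IsChain G (Lk G σ) i z → bdry z = 0 → pr2 c z = 0 := by
  intro z hz hbz
  obtain ⟨y, hy, hyz⟩ := hS.acyclic σ hσ i hi z hz hbz
  rw [← hyz, pr2_bdry]
  apply Finset.sum_eq_zero
  intro ρ _
  by_cases h0 : y ρ = 0
  · rw [h0, zero_smul]
  · obtain ⟨h1, h2, h3⟩ := hy ρ h0
    rw [hd ρ h1 h2 h3, smul_zero]

omit [Fintype V] in
lemma zmod2_ne {a : ZMod 2} (h : a ≠ 0) : a = 1 := by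
  revert a; decide

/-- every face of size `n - 1` is in exactly two facets -/
lemma two_facets {G : SimpleGraph V} {n : ℕ} (hS : F2Sphere G n) {κ : Finset V} (hκ : Cl G κ)
    (hc : κ.card + 1 = n) : ∃ a b, a ≠ b ∧ Lk G κ = {a, b} := by
  obtain ⟨z, ⟨hz0, hz1, hz2⟩, huniq⟩ := hS.top κ hκ
  have hn : n - κ.card = 1 := by omega
  rw [hn] at hz1 huniq
  obtain ⟨ρ, hρ⟩ := Function.ne_iff.1 hz0
  obtain ⟨h1, _, h3⟩ := hz1 ρ hρ
  obtain ⟨a, rfl⟩ := Finset.card_eq_one.1 h3
  have haL : a ∈ Lk G κ := h1 (Finset.mem_singleton_self a)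
  have hsum : ∑ v : V, z {v} = 0 := by
    have := congrFun hz2 ∅
    rw [bdry_eq, bd_apply] at this
    simpa using this
  have hb : ∃ b, b ≠ a ∧ z {b} ≠ 0 := by
    by_contra hne
    push Not at hne
    rw [Finset.sum_eq_single a (fun b _ hb => hne b hb) (fun h => absurd (mem_univ a) h)] at hsum
    exact hρ hsum
  obtain ⟨b, hba, hzb⟩ := hb
  have hbL : b ∈ Lk G κ := (hz1 {b} hzb).1 (Finset.mem_singleton_self b)
  refine ⟨a, b, hba.symm, ?_⟩
  -- two-point cycles
  have hcyc : ∀ p q : V, p ≠ q → p ∈ Lk G κ → q ∈ Lk G κ →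
      (fun ρ : Finset V => if ρ = {p} ∨ ρ = {q} then (1 : ZMod 2) else 0) = z := by
    intro p q hpq hp hq
    apply huniq
    refine ⟨?_, ?_, ?_⟩
    · intro h
      have := congrFun h {p}
      simp at this
    · intro ρ hρ
      by_cases h : ρ = {p} ∨ ρ = {q}
      · rcases h with rfl | rfl
        · exact ⟨by simpa using hp, cl_singleton _ _, by simp⟩
        · exact ⟨by simpa using hq, cl_singleton _ _, by simp⟩
      · exact absurd (if_neg h) hρ
    · rw [bdry_eq]
      funext ρ
      rw [bd_apply]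
      by_cases hρ : ρ = ∅
      · subst hρ
        have h5 : ∀ v : V, (if v ∈ (∅ : Finset V) then (0 : ZMod 2) else
            (if insert v (∅ : Finset V) = {p} ∨ insert v (∅ : Finset V) = {q} then 1 else 0)) =
            (if v = p then 1 else 0) + (if v = q then 1 else 0) := by
          intro v
          have e1 : (insert v (∅ : Finset V) = {p}) ↔ v = p := by
            constructor
            · intro h; exact Finset.singleton_injective h
            · rintro rfl; rfl
          have e2 : (insert v (∅ : Finset V) = {q}) ↔ v = q := by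
            constructor
            · intro h; exact Finset.singleton_injective h
            · rintro rfl; rfl
          simp only [Finset.notMem_empty, if_false, e1, e2]
          by_cases hp' : v = p
          · have : v ≠ q := by rw [hp']; exact hpq
            simp [hp', hpq]
          · simp [hp']
        rw [Finset.sum_congr rfl (fun v _ => h5 v), Finset.sum_add_distrib]
        simp only [Finset.sum_ite_eq', Finset.mem_univ, if_true, Pi.zero_apply]
        decide
      · rw [Pi.zero_apply]
        apply Finset.sum_eq_zero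
        intro v _
        split_ifs with h1 h2
        · rfl
        · exfalso
          apply hρ
          have : (insert v ρ).card = 1 := by rcases h2 with h | h <;> rw [h] <;> simp
          rw [Finset.card_insert_of_notMem h1] at this
          exact Finset.card_eq_zero.1 (by omega)
        · rfl
  apply Finset.Subset.antisymm
  · intro w hw
    rw [mem_insert, Finset.mem_singleton]
    by_contra hne
    push Not at hne
    have h5 := hcyc a b hba.symm haL hbL
    have h6 := hcyc a w hne.1.symm haL hw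
    have h7 : z {w} = 0 := by
      rw [← h5]
      have e1 : ({w} : Finset V) ≠ {a} := fun h => hne.1 (Finset.singleton_injective h)
      have e2 : ({w} : Finset V) ≠ {b} := fun h => hne.2 (Finset.singleton_injective h)
      simp [e1, e2]
    have h8 : z {w} = 1 := by
      rw [← h6]; simp
    rw [h7] at h8
    exact absurd h8 (by decide)
  · intro w hw
    rw [mem_insert, Finset.mem_singleton] at hw
    rcases hw with rfl | rfl
    · exact haL
    · exact hbL

/-- the fundamental cycle of a link is the sum of all its facets -/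
lemma top_cycle {G : SimpleGraph V} {n : ℕ} (hS : F2Sphere G n) {σ : Finset V} (hσ : Cl G σ)
    {z : Finset V → ZMod 2} (hz : IsChain G (Lk G σ) (n - σ.card) z) (hb : bdry z = 0) :
    z = 0 ∨ z = fun ρ => if ρ ⊆ Lk G σ ∧ Cl G ρ ∧ ρ.card = n - σ.card then 1 else 0 := by
  by_cases hz0 : z = 0
  · exact Or.inl hz0
  right
  obtain ⟨z', hz', huniq⟩ := hS.top σ hσ
  have e1 := huniq z ⟨hz0, hz, hb⟩
  have e2 := huniq (fun ρ => if ρ ⊆ Lk G σ ∧ Cl G ρ ∧ ρ.card = n - σ.card then 1 else 0) (by
    refine ⟨?_, ?_, ?_⟩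
    · obtain ⟨ρ, hρ⟩ := Function.ne_iff.1 hz0
      intro h
      have := congrFun h ρ
      rw [if_pos (hz ρ hρ)] at this
      exact absurd this (one_ne_zero : (1 : ZMod 2) ≠ 0)
    · intro ρ hρ
      by_contra hne
      exact hρ (if_neg hne)
    · rw [bdry_eq]
      funext κ
      rw [bd_apply, Pi.zero_apply]
      by_cases hκ : κ ⊆ Lk G σ ∧ Cl G κ ∧ κ.card + 1 = n - σ.card
      · obtain ⟨k1, k2, k3⟩ := hκ
        have hd : Disjoint σ κ := by
          rw [Finset.disjoint_left]
          intro w hw hwκ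
          exact not_mem_of_mem_Lk (k1 hwκ) hw
        have hcl : Cl G (σ ∪ κ) := cl_union_Lk hσ k1 (Finset.Subset.refl _) k2
        have hcard : (σ ∪ κ).card + 1 = n := by
          rw [Finset.card_union_of_disjoint hd]; omega
        obtain ⟨a, b, hab, hL⟩ := two_facets hS hcl hcard
        have hterm : ∀ v : V, (if v ∈ κ then (0 : ZMod 2) else
            if insert v κ ⊆ Lk G σ ∧ Cl G (insert v κ) ∧ (insert v κ).card = n - σ.card
            then 1 else 0) = (if v = a then 1 else 0) + (if v = b then 1 else 0) := by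
          intro v
          have hiff : (v ∉ κ ∧ (insert v κ ⊆ Lk G σ ∧ Cl G (insert v κ) ∧
              (insert v κ).card = n - σ.card)) ↔ v ∈ ({a, b} : Finset V) := by
            rw [← hL, mem_Lk]
            constructor
            · rintro ⟨h1, h2, h3, _⟩ t ht
              rcases Finset.mem_union.1 ht with ht | ht
              · exact mem_Lk.1 (h2 (mem_insert_self _ _)) t ht
              · exact h3 v (mem_insert_self _ _) t (mem_insert_of_mem ht)
                  (by rintro rfl; exact h1 ht)
            · intro h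
              have hvκ : v ∉ κ := fun hv => G.loopless.irrefl _ (h v (Finset.mem_union_right _ hv))
              refine ⟨hvκ, ?_, ?_, ?_⟩
              · intro w hw
                rcases Finset.mem_insert.1 hw with rfl | hw
                · rw [mem_Lk]; exact fun t ht => h t (Finset.mem_union_left _ ht)
                · exact k1 hw
              · exact k2.insert (fun t ht => h t (Finset.mem_union_right _ ht))
              · rw [Finset.card_insert_of_notMem hvκ]; exact k3
          rw [mem_insert, Finset.mem_singleton] at hiff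
          by_cases hva : v = a
          · have h1 := hiff.2 (Or.inl hva)
            have h2 : v ≠ b := by rw [hva]; exact hab
            rw [if_neg h1.1, if_pos h1.2, if_pos hva, if_neg h2, add_zero]
          · by_cases hvb : v = b
            · have h1 := hiff.2 (Or.inr hvb)
              rw [if_neg h1.1, if_pos h1.2, if_neg hva, if_pos hvb, zero_add]
            · rw [if_neg hva, if_neg hvb, add_zero]
              split_ifs with h3 h4
              · rfl
              · rcases hiff.1 ⟨h3, h4⟩ with h | h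
                · exact absurd h hva
                · exact absurd h hvb
              · rfl
        rw [Finset.sum_congr rfl (fun v _ => hterm v), Finset.sum_add_distrib]
        simp only [Finset.sum_ite_eq', Finset.mem_univ, if_true]
        decide
      · apply Finset.sum_eq_zero
        intro v _
        split_ifs with h1 h2
        · rfl
        · exfalso
          apply hκ
          refine ⟨(subset_insert _ _).trans h2.1, h2.2.1.mono (subset_insert _ _), ?_⟩
          rw [← h2.2.2, Finset.card_insert_of_notMem h1]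
        · rfl)
  rw [e1, ← e2]

end

end H162.CD
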