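import Pool.Agent.H162.CD.Row

namespace H162.CD

open Finset Classical Module

noncomputable section

attribute [-instance] Subtype.instDecidableEq

/-- The staircase argument in an abstract double complex of exponent two. -/
theorem staircase {C : Type*} [AddCommGroup C] (h2 : ∀ x : C, x + x = 0)
    (D : ℕ → ℕ → AddSubgroup C) (dl pt : C →+ C) (n j m : ℕ)
    (hdd : ∀ x, dl (dl x) = 0) (hpp : ∀ x, pt (pt x) = 0) (hcomm : ∀ x, dl (pt x) = pt (dl x))
    (hdl : ∀ p q x, x ∈ D p q → dl x ∈ D p (q + 1))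
    (hpt : ∀ p q x, x ∈ D (p + 1) q → pt x ∈ D p q)
    (hcol : ∀ p q x, x ∈ D (p + 1) q → pt x = 0 → ∃ y ∈ D (p + 2) q, pt y = x)
    (hrow : ∀ p q x, q < n → x ∈ D p q → dl x = 0 → ∃ y ∈ D p (q - 1), dl y = x)
    (htop : ∀ p x, m < p → x ∈ D p n → (∃ z ∈ D (p - 1) (n - 1), pt x = dl z) →
      ∃ x' ∈ D (p + 1) n, ∃ w ∈ D p (n - 1), x = pt x' + dl w)
    (hj : j + m < n) :
    ∀ x ∈ D 0 j, (∃ x1 ∈ D 1 (j + 1), dl x = pt x1) →
      ∃ w ∈ D 0 (j - 1), ∃ y ∈ D 1 j, x = dl w + pt y := by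
  -- the statement at position `p`, by descending induction
  have key : ∀ k p, p + k + 1 + j = n → ∀ x ∈ D p (j + p), (∃ x1 ∈ D (p + 1) (j + p + 1),
      dl x = pt x1) → ∃ w ∈ D p (j + p - 1), ∃ y ∈ D (p + 1) (j + p), x = dl w + pt y := by
    intro k
    induction k with
    | zero =>
      intro p hp x hx hx1
      obtain ⟨x1, hx1m, hx1e⟩ := hx1
      have hn : j + p + 1 = n := by omega
      rw [hn] at hx1m
      have h3 : n - 1 = j + p := by omega
      obtain ⟨x', hx', w1, hw1, hdec⟩ := htop (p + 1) x1 (by omega) hx1m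
        ⟨x, by rw [h3]; exact hx, hx1e.symm⟩
      rw [h3] at hw1
      have h4 : dl (x + pt w1) = 0 := by
        rw [map_add, hx1e, hdec, map_add, hpp, zero_add, hcomm]
        exact h2 _
      obtain ⟨w, hw, hwe⟩ := hrow p (j + p) (x + pt w1) (by omega)
        (AddSubgroup.add_mem _ hx (hpt _ _ _ hw1)) h4
      refine ⟨w, hw, w1, hw1, ?_⟩
      rw [hwe, add_assoc, h2, add_zero]
    | succ k ih =>
      intro p hp x hx hx1
      obtain ⟨x1, hx1m, hx1e⟩ := hx1
      have h3 : pt (dl x1) = 0 := by rw [← hcomm, ← hx1e, hdd]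
      obtain ⟨x2, hx2m, hx2e⟩ := hcol p (j + p + 2) (dl x1) (hdl _ _ _ hx1m) h3
      obtain ⟨w1, hw1, y1, hy1, hdec⟩ := ih (p + 1) (by omega) x1
        (by have : j + (p + 1) = j + p + 1 := by omega
            rw [this]; exact hx1m)
        ⟨x2, by have : j + (p + 1) + 1 = j + p + 2 := by omega
                rw [this]; exact hx2m, hx2e.symm⟩
      have h5 : j + (p + 1) - 1 = j + p := by omega
      rw [h5] at hw1
      have h4 : dl (x + pt w1) = 0 := by
        rw [map_add, hx1e, hdec, map_add, hpp, add_zero, hcomm]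
        exact h2 _
      obtain ⟨w, hw, hwe⟩ := hrow p (j + p) (x + pt w1) (by omega)
        (AddSubgroup.add_mem _ hx (hpt _ _ _ hw1)) h4
      refine ⟨w, hw, w1, hw1, ?_⟩
      rw [hwe, add_assoc, h2, add_zero]
  intro x hx hx1
  have := key (n - j - 1) 0 (by omega) x (by simpa using hx) (by simpa using hx1)
  simpa using this

variable {V : Type*} [Fintype V]
variable {K : Type*} [Field K]
variable {N : Type*} [AddCommGroup N] [Module K N]

/-- the double complex -/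
def DD (G : SimpleGraph V) (e : V → Module.End K N) (p q : ℕ) :
    AddSubgroup (Finset V → Finset V → N) where
  carrier := {x | (∀ σ τ, x σ τ ≠ 0 → σ ⊆ τ ∧ Cl G τ ∧ σ.card = p ∧ τ.card = q) ∧
    ∀ σ τ, x σ τ ∈ SS e σ}
  add_mem' := by
    rintro a b ⟨ha1, ha2⟩ ⟨hb1, hb2⟩
    refine ⟨fun σ τ h => ?_, fun σ τ => add_mem (ha2 σ τ) (hb2 σ τ)⟩
    by_cases h0 : a σ τ = 0
    · apply hb1
      intro h'; apply h; rw [Pi.add_apply, Pi.add_apply, h0, h', add_zero]
    · exact ha1 σ τ h0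
  zero_mem' := ⟨fun σ τ h => absurd rfl h, fun σ τ => zero_mem _⟩
  neg_mem' := by
    rintro a ⟨ha1, ha2⟩
    refine ⟨fun σ τ h => ha1 σ τ ?_, fun σ τ => neg_mem (ha2 σ τ)⟩
    intro h'; apply h; rw [Pi.neg_apply, Pi.neg_apply, h', neg_zero]

/-- horizontal differential -/
def dlh (G : SimpleGraph V) (N : Type*) [AddCommGroup N] :
    (Finset V → Finset V → N) →+ (Finset V → Finset V → N) where
  toFun x := fun σ τ => ∑ v, if (Cl G τ ∧ σ ⊆ τ) ∧ v ∈ τ ∧ v ∉ σ then x σ (τ.erase v) else 0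
  map_zero' := by funext σ τ; simp
  map_add' := by
    intro x y; funext σ τ
    simp only [Pi.add_apply]
    rw [← Finset.sum_add_distrib]
    refine Finset.sum_congr rfl (fun v _ => ?_)
    split_ifs <;> simp

/-- vertical differential -/
def ptv (V : Type*) [Fintype V] (N : Type*) [AddCommGroup N] :
    (Finset V → Finset V → N) →+ (Finset V → Finset V → N) where
  toFun x := fun σ τ => ∑ v, if v ∈ τ ∧ v ∉ σ then x (insert v σ) τ else 0
  map_zero' := by funext σ τ; simp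
  map_add' := by
    intro x y; funext σ τ
    simp only [Pi.add_apply]
    rw [← Finset.sum_add_distrib]
    refine Finset.sum_congr rfl (fun v _ => ?_)
    split_ifs <;> simp

lemma dlh_apply (G : SimpleGraph V) (x : Finset V → Finset V → N) (σ τ : Finset V) :
    dlh G N x σ τ = ∑ v, if (Cl G τ ∧ σ ⊆ τ) ∧ v ∈ τ ∧ v ∉ σ then x σ (τ.erase v) else 0 := rfl

lemma ptv_apply (x : Finset V → Finset V → N) (σ τ : Finset V) :
    ptv V N x σ τ = ∑ v, if v ∈ τ ∧ v ∉ σ then x (insert v σ) τ else 0 := rfl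

include K in
variable (K) in
lemma dlh_dlh [CharP K 2] (G : SimpleGraph V) (x : Finset V → Finset V → N) :
    dlh G N (dlh G N x) = 0 := by
  funext σ τ
  rw [dlh_apply]
  have h1 : ∀ v : V, (if (Cl G τ ∧ σ ⊆ τ) ∧ v ∈ τ ∧ v ∉ σ then dlh G N x σ (τ.erase v) else 0) =
      ∑ w, (if (Cl G τ ∧ σ ⊆ τ) ∧ (v ∈ τ ∧ v ∉ σ) ∧ (w ∈ τ ∧ w ∉ σ) ∧ v ≠ w then
        x σ ((τ.erase v).erase w) else 0) := by
    intro v
    by_cases h : (Cl G τ ∧ σ ⊆ τ) ∧ v ∈ τ ∧ v ∉ σ
    · rw [if_pos h, dlh_apply]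
      refine Finset.sum_congr rfl (fun w _ => ?_)
      have hcl : Cl G (τ.erase v) := h.1.1.mono (Finset.erase_subset _ _)
      have hsub : σ ⊆ τ.erase v := by
        intro a ha
        exact Finset.mem_erase.2 ⟨by rintro rfl; exact h.2.2 ha, h.1.2 ha⟩
      by_cases hw : w ∈ τ ∧ w ∉ σ
      · by_cases hvw : v = w
        · subst hvw
          rw [if_neg (by simp), if_neg (by tauto)]
        · rw [if_pos ⟨⟨hcl, hsub⟩, Finset.mem_erase.2 ⟨fun h => hvw h.symm, hw.1⟩, hw.2⟩,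
            if_pos ⟨h.1, h.2, hw, hvw⟩]
      · rw [if_neg (by rw [Finset.mem_erase]; tauto), if_neg (by tauto)]
    · rw [if_neg h]
      symm
      apply Finset.sum_eq_zero
      intro w _
      rw [if_neg (by tauto)]
  rw [Finset.sum_congr rfl (fun v _ => h1 v)]
  apply sum_symm_zero K
  · intro v w
    by_cases h : (Cl G τ ∧ σ ⊆ τ) ∧ (v ∈ τ ∧ v ∉ σ) ∧ (w ∈ τ ∧ w ∉ σ) ∧ v ≠ w
    · rw [if_pos h, if_pos ⟨h.1, h.2.2.1, h.2.1, h.2.2.2.symm⟩, Finset.erase_right_comm]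
    · rw [if_neg h, if_neg (fun h' => h ⟨h'.1, h'.2.2.1, h'.2.1, h'.2.2.2.symm⟩)]
  · intro v
    rw [if_neg (by tauto)]

include K in
variable (K) in
lemma ptv_ptv [CharP K 2] (x : Finset V → Finset V → N) :
    ptv V N (ptv V N x) = 0 := by
  funext σ τ
  rw [ptv_apply]
  have h1 : ∀ v : V, (if v ∈ τ ∧ v ∉ σ then ptv V N x (insert v σ) τ else 0) =
      ∑ w, (if (v ∈ τ ∧ v ∉ σ) ∧ (w ∈ τ ∧ w ∉ σ) ∧ v ≠ w then
        x (insert w (insert v σ)) τ else 0) := by
    intro v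
    by_cases h : v ∈ τ ∧ v ∉ σ
    · rw [if_pos h, ptv_apply]
      refine Finset.sum_congr rfl (fun w _ => ?_)
      by_cases hw : w ∈ τ ∧ w ∉ insert v σ
      · have hw' := hw.2
        rw [mem_insert] at hw'
        rw [if_pos hw, if_pos ⟨h, ⟨hw.1, by tauto⟩, by rintro rfl; tauto⟩]
      · rw [if_neg hw, if_neg]
        rw [mem_insert] at hw
        tauto
    · rw [if_neg h]
      symm
      apply Finset.sum_eq_zero
      intro w _
      rw [if_neg (by tauto)]
  rw [Finset.sum_congr rfl (fun v _ => h1 v)]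
  apply sum_symm_zero K
  · intro v w
    by_cases h : (v ∈ τ ∧ v ∉ σ) ∧ (w ∈ τ ∧ w ∉ σ) ∧ v ≠ w
    · rw [if_pos h, if_pos ⟨h.2.1, h.1, h.2.2.symm⟩, Finset.insert_comm]
    · rw [if_neg h, if_neg (fun h' => h ⟨h'.2.1, h'.1, h'.2.2.symm⟩)]
  · intro v
    rw [if_neg (by tauto)]

lemma dl_pt_comm (G : SimpleGraph V) (x : Finset V → Finset V → N) :
    dlh G N (ptv V N x) = ptv V N (dlh G N x) := by
  funext σ τ
  rw [dlh_apply, ptv_apply]
  have h1 : ∀ v : V, (if (Cl G τ ∧ σ ⊆ τ) ∧ v ∈ τ ∧ v ∉ σ then ptv V N x σ (τ.erase v) else 0) =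
      ∑ w, (if (Cl G τ ∧ σ ⊆ τ) ∧ (v ∈ τ ∧ v ∉ σ) ∧ (w ∈ τ ∧ w ∉ σ) ∧ v ≠ w then
        x (insert w σ) (τ.erase v) else 0) := by
    intro v
    by_cases h : (Cl G τ ∧ σ ⊆ τ) ∧ v ∈ τ ∧ v ∉ σ
    · rw [if_pos h, ptv_apply]
      refine Finset.sum_congr rfl (fun w _ => ?_)
      by_cases hw : w ∈ τ.erase v ∧ w ∉ σ
      · have hw' := Finset.mem_erase.1 hw.1
        rw [if_pos hw, if_pos ⟨h.1, h.2, ⟨hw'.2, hw.2⟩, hw'.1.symm⟩]
      · rw [if_neg hw, if_neg]
        rw [Finset.mem_erase] at hw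
        rintro ⟨_, _, h3, h4⟩
        exact hw ⟨⟨h4.symm, h3.1⟩, h3.2⟩
    · rw [if_neg h]
      symm
      apply Finset.sum_eq_zero
      intro w _
      rw [if_neg (by tauto)]
  have h2 : ∀ w : V, (if w ∈ τ ∧ w ∉ σ then dlh G N x (insert w σ) τ else 0) =
      ∑ v, (if (Cl G τ ∧ σ ⊆ τ) ∧ (v ∈ τ ∧ v ∉ σ) ∧ (w ∈ τ ∧ w ∉ σ) ∧ v ≠ w then
        x (insert w σ) (τ.erase v) else 0) := by
    intro w
    by_cases h : w ∈ τ ∧ w ∉ σ
    · rw [if_pos h, dlh_apply]
      refine Finset.sum_congr rfl (fun v _ => ?_)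
      by_cases hv : (Cl G τ ∧ insert w σ ⊆ τ) ∧ v ∈ τ ∧ v ∉ insert w σ
      · have hv' := hv.2.2
        rw [mem_insert] at hv'
        rw [if_pos hv, if_pos ⟨⟨hv.1.1, (subset_insert _ _).trans hv.1.2⟩,
          ⟨hv.2.1, by tauto⟩, h, by tauto⟩]
      · rw [if_neg hv, if_neg]
        rintro ⟨h3, h4, h5, h6⟩
        apply hv
        refine ⟨⟨h3.1, Finset.insert_subset h5.1 h3.2⟩, h4.1, ?_⟩
        rw [mem_insert]; tauto
    · rw [if_neg h]
      symm
      apply Finset.sum_eq_zero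
      intro v _
      rw [if_neg (by tauto)]
  rw [Finset.sum_congr rfl (fun v _ => h1 v), Finset.sum_congr rfl (fun w _ => h2 w),
    Finset.sum_comm]

lemma dlh_mem {G : SimpleGraph V} {e : V → Module.End K N} (p q : ℕ)
    (x : Finset V → Finset V → N) (hx : x ∈ DD G e p q) : dlh G N x ∈ DD G e p (q + 1) := by
  obtain ⟨h1, h2⟩ := hx
  refine ⟨fun σ τ h => ?_, fun σ τ => ?_⟩
  · rw [dlh_apply] at h
    obtain ⟨v, _, hv⟩ := Finset.exists_ne_zero_of_sum_ne_zero h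
    split_ifs at hv with hc
    · have := h1 _ _ hv
      refine ⟨hc.1.2, hc.1.1, this.2.2.1, ?_⟩
      rw [← this.2.2.2, Finset.card_erase_add_one hc.2.1]
    · exact absurd rfl hv
  · rw [dlh_apply]
    apply Submodule.sum_mem
    intro v _
    split_ifs
    · exact h2 _ _
    · exact zero_mem _

lemma ptv_mem {G : SimpleGraph V} {e : V → Module.End K N} (p q : ℕ)
    (x : Finset V → Finset V → N) (hx : x ∈ DD G e (p + 1) q) : ptv V N x ∈ DD G e p q := by
  obtain ⟨h1, h2⟩ := hx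
  refine ⟨fun σ τ h => ?_, fun σ τ => ?_⟩
  · rw [ptv_apply] at h
    obtain ⟨v, _, hv⟩ := Finset.exists_ne_zero_of_sum_ne_zero h
    split_ifs at hv with hc
    · have := h1 _ _ hv
      refine ⟨(subset_insert _ _).trans this.1, this.2.1, ?_, this.2.2.2⟩
      have h3 := this.2.2.1
      rw [Finset.card_insert_of_notMem hc.2] at h3
      omega
    · exact absurd rfl hv
  · rw [ptv_apply]
    apply Submodule.sum_mem
    intro v _
    split_ifs
    · exact SS_mono (subset_insert _ _) (h2 _ _)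
    · exact zero_mem _

/-- columns are exact -/
lemma col_exact [CharP K 2] {G : SimpleGraph V} {e : V → Module.End K N} (he : IsRep G e)
    (hB : Bal G e) (p q : ℕ) (x : Finset V → Finset V → N) (hx : x ∈ DD G e (p + 1) q)
    (hb : ptv V N x = 0) : ∃ y ∈ DD G e (p + 2) q, ptv V N y = x := by
  obtain ⟨h1, h2⟩ := hx
  have key : ∀ τ, ∃ y : Finset V → N, (∀ σ, y σ ≠ 0 → σ ⊆ τ ∧ Cl G τ ∧ σ.card = p + 2 ∧
      τ.card = q) ∧ (∀ σ, y σ ∈ SS e σ) ∧ ∀ σ, (∑ v, if v ∈ τ ∧ v ∉ σ then y (insert v σ)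
      else 0) = x σ τ := by
    intro τ
    by_cases hτ : Cl G τ ∧ τ.card = q
    · have hxm : (fun σ => x σ τ) ∈ Ch G e τ ∅ (p + 1) := by
        refine ⟨fun σ v hv => by simp at hv, fun σ v hv => h2 σ τ v hv, fun σ hσ => ?_⟩
        have := h1 σ τ hσ
        exact ⟨this.1, this.2.1.mono this.1, this.2.2.1⟩
      have hbx : bd (K := K) (fun σ => x σ τ) = 0 := by
        funext σ
        have h3 := congrFun (congrFun hb σ) τ
        rw [ptv_apply] at h3
        refine Eq.trans ?_ h3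
        rw [bd_apply]
        refine Finset.sum_congr rfl (fun v _ => ?_)
        by_cases hv : v ∈ σ
        · rw [if_pos hv, if_neg (by tauto)]
        · rw [if_neg hv]
          by_cases hvτ : v ∈ τ
          · rw [if_pos ⟨hvτ, hv⟩]
          · rw [if_neg (by tauto)]
            by_contra hne
            exact hvτ ((h1 _ _ hne).1 (mem_insert_self _ _))
      obtain ⟨y, hy, hyx⟩ := Ex_simplex he hB τ ∅ (Finset.disjoint_empty_right _)
        (by rw [Finset.union_empty]; exact hτ.1) p _ hxm hbx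
      refine ⟨y, fun σ hσ => ⟨(hy.2.2 σ hσ).1, hτ.1, (hy.2.2 σ hσ).2.2, hτ.2⟩,
        fun σ v hv => hy.2.1 σ v hv, fun σ => ?_⟩
      have h3 := congrFun hyx σ
      refine Eq.trans ?_ h3
      rw [bd_apply]
      refine Finset.sum_congr rfl (fun v _ => ?_)
      by_cases hv : v ∈ σ
      · rw [if_pos hv, if_neg (by tauto)]
      · rw [if_neg hv]
        by_cases hvτ : v ∈ τ
        · rw [if_pos ⟨hvτ, hv⟩]
        · rw [if_neg (by tauto)]
          by_contra hne
          exact hvτ ((hy.2.2 _ (fun h => hne h.symm)).1 (mem_insert_self _ _))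
    · refine ⟨0, fun σ hσ => absurd rfl hσ, fun σ => zero_mem _, fun σ => ?_⟩
      have : x σ τ = 0 := by
        by_contra hne
        have := h1 σ τ hne
        exact hτ ⟨this.2.1, this.2.2.2⟩
      rw [this]
      apply Finset.sum_eq_zero
      intro v _
      split_ifs <;> rfl
  choose y hy1 hy2 hy3 using key
  refine ⟨fun σ τ => y τ σ, ⟨fun σ τ h => hy1 τ σ h, fun σ τ => hy2 τ σ⟩, ?_⟩
  funext σ τ
  rw [ptv_apply]
  exact hy3 τ σ

end

end H162.CD
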