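import Pool.Agent.H162.CD.Basic

namespace H162.CD

open Finset Classical

noncomputable section

variable {V : Type*} [Fintype V]
variable {K : Type*} [Field K] [CharP K 2]
variable {N : Type*} [AddCommGroup N] [Module K N]

/-- common neighbours -/
def Lk (G : SimpleGraph V) (τ : Finset V) : Finset V := univ.filter (fun v => ∀ t ∈ τ, G.Adj v t)

lemma mem_Lk {G : SimpleGraph V} {τ : Finset V} {v : V} : v ∈ Lk G τ ↔ ∀ t ∈ τ, G.Adj v t := by
  simp [Lk]

lemma not_mem_of_mem_Lk {G : SimpleGraph V} {τ : Finset V} {v : V} (h : v ∈ Lk G τ) : v ∉ τ := by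
  intro hv
  exact (G.loopless.irrefl v) (mem_Lk.1 h v hv)

lemma cl_insert_Lk {G : SimpleGraph V} {τ : Finset V} {v : V} (hτ : Cl G τ) (h : v ∈ Lk G τ) :
    Cl G (insert v τ) := hτ.insert (fun u hu => mem_Lk.1 h u hu)

lemma nb_subset_Lk {G : SimpleGraph V} {τ A : Finset V} {v : V} (h : A ⊆ Lk G τ) :
    nb G A v ⊆ Lk G (insert v τ) := by
  intro w hw
  rw [mem_nb] at hw
  rw [mem_Lk]
  intro t ht
  rw [mem_insert] at ht
  rcases ht with rfl | ht
  · exact hw.2.symm
  · exact mem_Lk.1 (h hw.1) t ht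

/-- Vanishing above the middle dimension for all full subcomplexes of all links. -/
theorem upper (G : SimpleGraph V) (e : V → Module.End K N) (n : ℕ)
    (hdim : ∀ σ, Cl G σ → σ.card ≤ n)
    (hodd : ∀ τ, Cl G τ → Odd (n - τ.card) → ∀ i, (n - τ.card) / 2 < i →
      Ex G e (Lk G τ) τ i) :
    ∀ r τ, Cl G τ → τ.card + r = n → ∀ A ⊆ Lk G τ, ∀ i, r / 2 < i → Ex G e A τ i := by
  intro r
  induction r with
  | zero =>
    intro τ hτ hcard A hA i hi
    have hAe : A = ∅ := by
      by_contra hne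
      obtain ⟨a, ha⟩ := Finset.nonempty_iff_ne_empty.2 hne
      have h1 := hdim _ (cl_insert_Lk hτ (hA ha))
      rw [Finset.card_insert_of_notMem (not_mem_of_mem_Lk (hA ha))] at h1
      omega
    subst hAe
    obtain ⟨j, rfl⟩ : ∃ j, i = j + 1 := ⟨i - 1, by omega⟩
    exact Ex_empty
  | succ r ih =>
    intro τ hτ hcard
    have hlow : ∀ v ∈ Lk G τ, ∀ A, A ⊆ Lk G τ → ∀ i, r / 2 < i →
        Ex G e (nb G A v) (insert v τ) i := by
      intro v hv A hA i hi
      apply ih _ (cl_insert_Lk hτ hv) _ _ (nb_subset_Lk hA) i hi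
      rw [Finset.card_insert_of_notMem (not_mem_of_mem_Lk hv)]
      omega
    rcases Nat.even_or_odd r with hr | hr
    · -- `r + 1` odd
      have hr2 : (r + 1) / 2 = r / 2 := by
        obtain ⟨k, rfl⟩ := hr
        omega
      have hodd' : Odd (n - τ.card) := by
        have : n - τ.card = r + 1 := by omega
        rw [this]
        exact hr.add_one
      have htop : ∀ i, (r + 1) / 2 < i → Ex G e (Lk G τ) τ i := by
        intro i hi
        apply hodd τ hτ hodd' i
        have : n - τ.card = r + 1 := by omega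
        rw [this]; exact hi
      have key : ∀ D : Finset V, D ⊆ Lk G τ → ∀ i, (r + 1) / 2 < i →
          Ex G e (Lk G τ \ D) τ i := by
        intro D
        induction D using Finset.induction_on with
        | empty =>
          intro _ i hi
          rw [Finset.sdiff_empty]
          exact htop i hi
        | insert v D hvD ihD =>
          intro hD i hi
          have hD' : D ⊆ Lk G τ := (subset_insert _ _).trans hD
          have hv : v ∈ Lk G τ := hD (mem_insert_self _ _)
          have h1 := ihD hD' i hi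
          have hvm : v ∈ Lk G τ \ D := Finset.mem_sdiff.2 ⟨hv, hvD⟩
          have h2 := hlow v hv (Lk G τ \ D) Finset.sdiff_subset i (by omega)
          have h3 := D2 hvm h1 h2
          have : Lk G τ \ insert v D = (Lk G τ \ D).erase v := by
            ext w
            simp only [Finset.mem_sdiff, Finset.mem_insert, Finset.mem_erase]
            tauto
          rw [this]
          exact h3
      intro A hA i hi
      have := key (Lk G τ \ A) Finset.sdiff_subset i hi
      rwa [Finset.sdiff_sdiff_eq_self hA] at this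
    · -- `r + 1` even
      intro A
      induction A using Finset.induction_on with
      | empty =>
        intro _ i hi
        obtain ⟨j, rfl⟩ : ∃ j, i = j + 1 := ⟨i - 1, by omega⟩
        exact Ex_empty
      | insert v A hvA ihA =>
        intro hA i hi
        have hA' : A ⊆ Lk G τ := (subset_insert _ _).trans hA
        have hv : v ∈ Lk G τ := hA (mem_insert_self _ _)
        obtain ⟨j, rfl⟩ : ∃ j, i = j + 1 := ⟨i - 1, by omega⟩
        have h1 := ihA hA' (j + 1) hi
        have hj : r / 2 < j := by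
          obtain ⟨k, rfl⟩ := hr
          omega
        have h2 := hlow v hv (insert v A) hA j hj
        apply D1 (mem_insert_self _ _) _ h2
        rwa [Finset.erase_insert hvA]

/-- the part of a chain inside `A` -/
def pt (A : Finset V) (x : Finset V → N) : Finset V → N := fun σ => if σ ⊆ A then x σ else 0

omit [Fintype V] [CharP K 2] in
lemma pt_mem {G : SimpleGraph V} {e : V → Module.End K N} {A B τ : Finset V} {i : ℕ}
    {x : Finset V → N} (hx : x ∈ Ch G e (A ∪ B) τ i) : pt A x ∈ Ch G e A τ i := by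
  obtain ⟨h1, h2, h3⟩ := hx
  refine ⟨fun σ w hw => ?_, fun σ w hw => ?_, fun σ hσ => ?_⟩
  · rw [pt]; split_ifs
    · exact h1 σ w hw
    · simp
  · rw [pt]; split_ifs
    · exact h2 σ w hw
    · simp
  · rw [pt] at hσ
    split_ifs at hσ with h
    · exact ⟨h, (h3 σ hσ).2⟩
    · exact absurd rfl hσ

omit [Fintype V] in
lemma pt_mem' {G : SimpleGraph V} {e : V → Module.End K N} {A B τ : Finset V} {i : ℕ}
    (hAB : ∀ a ∈ A, a ∉ B → ∀ b ∈ B, b ∉ A → ¬ G.Adj a b)
    {x : Finset V → N} (hx : x ∈ Ch G e (A ∪ B) τ i) : x + pt A x ∈ Ch G e B τ i := by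
  have h0 : x + pt A x ∈ Ch G e (A ∪ B) τ i :=
    add_mem hx (Ch_mono Finset.subset_union_left (pt_mem hx))
  refine ⟨h0.1, h0.2.1, fun σ hσ => ?_⟩
  have h1 := h0.2.2 σ hσ
  refine ⟨?_, h1.2⟩
  have hnA : ¬ σ ⊆ A := by
    intro h
    apply hσ
    rw [Pi.add_apply, pt, if_pos h]
    exact add_self2 K _
  intro w hw
  by_contra hwB
  obtain ⟨u, hu, huA⟩ := Finset.not_subset.1 hnA
  have huB : u ∈ B := by
    rcases Finset.mem_union.1 (h1.1 hu) with h | h
    · exact absurd h huA
    · exact h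
  have hwA : w ∈ A := by
    rcases Finset.mem_union.1 (h1.1 hw) with h | h
    · exact h
    · exact absurd h hwB
  exact hAB w hwA hwB u huB huA (h1.2.1 w hw u hu (by rintro rfl; exact huA hwA))

omit [Fintype V] [CharP K 2] in
lemma Ch_inter {G : SimpleGraph V} {e : V → Module.End K N} {A B τ : Finset V} {i : ℕ}
    {x : Finset V → N} (hA : x ∈ Ch G e A τ i) (hB : x ∈ Ch G e B τ i) :
    x ∈ Ch G e (A ∩ B) τ i :=
  ⟨hA.1, hA.2.1, fun σ hσ => ⟨Finset.subset_inter (hA.2.2 σ hσ).1 (hB.2.2 σ hσ).1,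
    (hA.2.2 σ hσ).2⟩⟩

theorem MV {G : SimpleGraph V} {e : V → Module.End K N} {A B τ : Finset V} {i : ℕ}
    (hAB : ∀ a ∈ A, a ∉ B → ∀ b ∈ B, b ∉ A → ¬ G.Adj a b)
    (hA : Ex G e A τ (i + 1)) (hB : Ex G e B τ (i + 1)) (hI : Ex G e (A ∩ B) τ i) :
    Ex G e (A ∪ B) τ (i + 1) := by
  intro x hx hbx
  have hp := pt_mem hx
  have hq := pt_mem' hAB hx
  have hbp : bd (K := K) (x + pt A x) = bd (K := K) (pt A x) := by
    rw [map_add, hbx, zero_add]
  have hy : bd (K := K) (pt A x) ∈ Ch G e (A ∩ B) τ i := by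
    apply Ch_inter (bd_mem hp)
    rw [← hbp]
    exact bd_mem hq
  obtain ⟨z, hz, hbz⟩ := hI _ hy (bd_bd _)
  have e1 : bd (K := K) (pt A x + z) = 0 := by
    rw [map_add, hbz]; exact add_self2 K _
  have e2 : bd (K := K) (x + pt A x + z) = 0 := by
    rw [map_add, hbz, hbp]; exact add_self2 K _
  obtain ⟨a, ha, hba⟩ := hA _ (add_mem hp (Ch_mono Finset.inter_subset_left hz)) e1
  obtain ⟨b, hb, hbb⟩ := hB _ (add_mem hq (Ch_mono Finset.inter_subset_right hz)) e2
  refine ⟨a + b, add_mem (Ch_mono Finset.subset_union_left ha)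
    (Ch_mono Finset.subset_union_right hb), ?_⟩
  rw [map_add, hba, hbb]
  have : pt A x + z + (x + pt A x + z) = x + (pt A x + pt A x) + (z + z) := by abel
  rw [this, add_self2 K (pt A x), add_self2 K z, add_zero, add_zero]

theorem MV_zero {G : SimpleGraph V} {e : V → Module.End K N} {A B τ : Finset V}
    (hA : Ex G e A τ 0) : Ex G e (A ∪ B) τ 0 := by
  intro x hx hbx
  have hx' : x ∈ Ch G e A τ 0 := by
    refine ⟨hx.1, hx.2.1, fun σ hσ => ?_⟩
    have h := hx.2.2 σ hσ
    have : σ = ∅ := Finset.card_eq_zero.1 h.2.2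
    subst this
    exact ⟨by simp, h.2⟩
  obtain ⟨w, hw, hbw⟩ := hA _ hx' hbx
  exact ⟨w, Ch_mono Finset.subset_union_left hw, hbw⟩

theorem MVcut {G : SimpleGraph V} {e : V → Module.End K N} {A B τ : Finset V} {i : ℕ}
    (hAB : ∀ a ∈ A, a ∉ B → ∀ b ∈ B, b ∉ A → ¬ G.Adj a b)
    (hU : Ex G e (A ∪ B) τ i) (hI : Ex G e (A ∩ B) τ i) :
    Ex G e A τ i := by
  intro x hx hbx
  obtain ⟨w, hw, hbw⟩ := hU x (Ch_mono Finset.subset_union_left hx) hbx
  have hp := pt_mem hw
  have hq := pt_mem' hAB hw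
  have hb : bd (K := K) (w + pt A w) = x + bd (K := K) (pt A w) := by rw [map_add, hbw]
  have hy : bd (K := K) (w + pt A w) ∈ Ch G e (A ∩ B) τ i := by
    apply Ch_inter _ (bd_mem hq)
    rw [hb]
    exact add_mem hx (bd_mem hp)
  obtain ⟨u, hu, hbu⟩ := hI _ hy (bd_bd _)
  refine ⟨pt A w + u, add_mem hp (Ch_mono Finset.inter_subset_left hu), ?_⟩
  rw [map_add, hbu, hb]
  have : bd (K := K) (pt A w) + (x + bd (K := K) (pt A w)) =
    x + (bd (K := K) (pt A w) + bd (K := K) (pt A w)) := by abel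
  rw [this, add_self2 K, add_zero]

end

end H162.CD
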